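import Pool.Agent.MP_542436_nt.H39.Spec
import Pool.Agent.MP_542436_nt.H96.ABC

/-! From the approximation theorem to the subexponential inequality. -/

namespace Pool.Agent.MP_542436_nt.H39

open Finset H96.ABC

namespace ABC

/-- logarithm of the part of `n` on the primes of `S` -/
noncomputable def lg (S : Finset ℕ) (n : ℕ) : ℝ := ∑ p ∈ S, (n.factorization p : ℝ) * Real.log p

theorem lg_nonneg (S : Finset ℕ) (n : ℕ) : 0 ≤ lg S n :=
  sum_nonneg fun p _ => mul_nonneg (Nat.cast_nonneg _) (Real.log_natCast_nonneg p)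

theorem log_pr {S : Finset ℕ} (hS : ∀ p ∈ S, p.Prime) (n : ℕ) :
    Real.log (∏ p ∈ S, (p : ℝ) ^ n.factorization p) = lg S n := by
  rw [Real.log_prod fun p hp => pow_ne_zero _ (by exact_mod_cast (hS p hp).ne_zero)]
  exact sum_congr rfl fun p _ => Real.log_pow _ _

theorem split {S : Finset ℕ} (hS : ∀ p ∈ S, p.Prime) {n : ℕ} (hn : n ≠ 0)
    (h : n.primeFactors ⊆ S) (π : ℕ → Prop) [DecidablePred π] :
    lg (S.filter π) n + lg (S.filter fun p => ¬ π p) n = Real.log n := by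
  rw [cast_prod (K := ℝ) n hn S h, log_pr hS, lg, lg, sum_filter_add_sum_filter_not, lg]

theorem la_eq {s t : ℕ} (cop : Nat.Coprime s t) {P : Finset ℕ} (hP : ∀ p ∈ P, p.Prime) :
    LA P (fun p => (s.factorization p : ℤ) - t.factorization p) = lg P s := by
  refine sum_congr rfl fun p hp => ?_
  congr 1
  beta_reduce
  by_cases h : p ∣ s
  · rw [Nat.factorization_eq_zero_of_not_dvd (n := t) fun k =>
      (hP p hp).one_lt.ne' (Nat.eq_one_of_dvd_coprimes cop h k)]
    simp
  · rw [Nat.factorization_eq_zero_of_not_dvd h]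
    simp

theorem size {P : Finset ℕ} (hP : ∀ p ∈ P, p.Prime) {n : ℕ} {h : ℝ} (b : lg P n ≤ h) :
    ((∏ p ∈ P, p ^ n.factorization p : ℕ) : ℤ) ≠ 0 ∧
      |(((∏ p ∈ P, p ^ n.factorization p : ℕ) : ℤ) : ℝ)| ≤ Real.exp h := by
  have h0 : ∏ p ∈ P, p ^ n.factorization p ≠ 0 :=
    prod_ne_zero_iff.2 fun p hp => pow_ne_zero _ (hP p hp).ne_zero
  refine ⟨Int.natCast_ne_zero.2 h0, ?_⟩
  rw [Int.cast_natCast, Nat.abs_cast, ← Real.log_le_iff_le_exp (by positivity)]
  push_cast
  rwa [log_pr hP]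

theorem apx {r : ℕ} [Fact r.Prime] {s t Y : ℕ} {S : Finset ℕ} (π : ℕ → Prop) [DecidablePred π]
    {h : ℝ} (hs : s ≠ 0) (ht : t ≠ 0) (cop : Nat.Coprime s t) (hS : ∀ p ∈ S, p.Prime)
    (h1 : s.primeFactors ⊆ S) (h2 : t.primeFactors ⊆ S) (hr : r ∉ S)
    (hd : (r : ℤ) ^ Y ∣ (s : ℤ) - t) (one : 1 ≤ h) (b1 : lg (S.filter fun p => ¬ π p) s ≤ h)
    (b2 : lg (S.filter fun p => ¬ π p) t ≤ h) (ord : lg (S.filter π) t ≤ lg (S.filter π) s) :
    ∃ x a b, Apx r (S.filter π) x a b h Y ∧ LA (S.filter π) x = lg (S.filter π) s := by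
  have hP : ∀ p ∈ S.filter π, p.Prime := fun p hp => hS p (mem_filter.1 hp).1
  have hQ : ∀ p ∈ S.filter fun p => ¬ π p, p.Prime := fun p hp => hS p (mem_filter.1 hp).1
  refine ⟨_, _, _, ⟨hP, fun k => hr (mem_filter.1 k).1, ?_, (size hQ b1).1, (size hQ b2).1,
    (size hQ b1).2, (size hQ b2).2, one, ?_⟩, la_eq cop hP⟩
  · rw [la_eq cop hP]
    refine le_trans (le_of_eq ?_) ord
    rw [← la_eq cop.symm hP]
    congr 1
    funext p
    simp
  · have e : (((∏ p ∈ S.filter fun p => ¬ π p, p ^ s.factorization p : ℕ) : ℤ) : ℚ) /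
        ((∏ p ∈ S.filter fun p => ¬ π p, p ^ t.factorization p : ℕ) : ℤ) *
        pw (S.filter π) (fun p => (s.factorization p : ℤ) - t.factorization p) = (s : ℚ) / t := by
      rw [cast_prod (K := ℚ) s hs S h1, cast_prod (K := ℚ) t ht S h2,
        ← prod_filter_not_mul_prod_filter S π, ← prod_filter_not_mul_prod_filter S π,
        mul_div_mul_comm, ← prod_div_distrib (s := S.filter π)]
      push_cast
      congr 1
      refine prod_congr rfl fun p hp => ?_
      rw [zpow_sub₀ (by exact_mod_cast (hP p hp).ne_zero), zpow_natCast, zpow_natCast]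
    have ht0 : (t : ℚ_[r]) ≠ 0 := by exact_mod_cast ht
    have e1 : (((s : ℚ) / t : ℚ) : ℚ_[r]) - 1 = (((s : ℤ) - t : ℤ) : ℚ_[r]) / t := by
      push_cast
      field_simp
    have e2 : ‖(t : ℚ_[r])‖ = 1 := Padic.norm_natCast_eq_one_iff.2
      ((Nat.Prime.coprime_iff_not_dvd Fact.out).2 fun k =>
        hr (h2 (Nat.mem_primeFactors.2 ⟨Fact.out, k, ht⟩)))
    rw [e, e1, norm_div, e2, div_one]
    exact (Padic.norm_int_le_pow_iff_dvd _ _).2 hd

/-- the part on small primes -/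
theorem low (h2 : H96.RowP2) (hA : H96.RowARI) {η : ℝ} (hη : 0 < η) :
    ∃ (C : ℝ) (k : ℕ), 1 ≤ C ∧ ∀ (t u v c : ℕ) (R B : ℝ) (S : Finset ℕ), u ≠ 0 → v ≠ 0 →
      Nat.Coprime t u → Nat.Coprime t v → Nat.Coprime u v → 1 < u * v → u ≤ c → v ≤ c → 4 ≤ c →
      (t : ℤ) ∣ (u : ℤ) ^ 2 - (v : ℤ) ^ 2 → ∏ r ∈ (u * v).primeFactors, (r : ℝ) ≤ R →
      (∀ p ∈ S, p.Prime ∧ (p : ℝ) ≤ B) → ∏ r ∈ S, (r : ℝ) ≤ R → 0 ≤ B →
      lg S t ≤ C * B * R ^ η * (3 + 2 * Real.log R + Real.log (Real.log c)) ^ (k + 1) := by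
  obtain ⟨C, k, hC, H2⟩ := h2
  obtain ⟨D, hD, G⟩ := hA.prod C η (by linarith) hη
  refine ⟨C * D, k, one_le_mul_of_one_le_of_one_le hC hD,
    fun t u v c R B S hu hv htu htv huv h1 huc hvc hc hd hR hS hSR hB => ?_⟩
  have hF := frm hA (e := 2) (by norm_num) le_rfl hu hv huv h1 huc hvc hc hR
  have hX := Real.log_nonneg (one_le_log hc)
  have hR1 : 1 ≤ R := (one_le_prod hF.prime).trans hR
  have hlR := Real.log_nonneg hR1
  have hcard := card_le hA (fun p hp => (hS p hp).1) hSR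
  have hH : Real.log R ≤ 3 + 2 * Real.log R + Real.log (Real.log c) := by linarith
  have hcH : (S.card : ℝ) ≤ 3 + 2 * Real.log R + Real.log (Real.log c) := by linarith
  generalize 3 + 2 * Real.log R + Real.log (Real.log c) = H at hF hH hcH ⊢
  have hH1 := hF.one
  have hpos : 0 ≤ C * D * B * R ^ η * H ^ k := by positivity
  have term : ∀ p ∈ S, (t.factorization p : ℝ) * Real.log p ≤ C * D * B * R ^ η * H ^ k := by
    intro p hp
    obtain ⟨hpp, hpB⟩ := hS p hp
    by_cases hpt : p ∣ t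
    swap
    · rw [Nat.factorization_eq_zero_of_not_dvd hpt, Nat.cast_zero, zero_mul]
      exact hpos
    have : Fact p.Prime := ⟨hpp⟩
    have hpu : ¬ p ∣ u := fun h => hpp.one_lt.ne' (Nat.eq_one_of_dvd_coprimes htu hpt h)
    have hpv : ¬ p ∣ v := fun h => hpp.one_lt.ne' (Nat.eq_one_of_dvd_coprimes htv hpt h)
    have hpR : (p : ℝ) ≤ R := by
      have := prod_mono (singleton_subset_iff.2 hp) fun q hq => (hS q hq).1
      rw [prod_singleton] at this
      exact this.trans hSR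
    refine (padic hu hv hpv hd (H2 p _ _ H hF (fun h => ((Nat.Prime.dvd_mul hpp).1
      (Nat.dvd_of_mem_primeFactors h)).elim hpu hpv)
      ((Real.log_le_log (by exact_mod_cast hpp.pos) hpR).trans hH))).trans ?_
    have a1 := G _ hF.prime
    rw [prod_mul_distrib, prod_const] at a1
    have a2 := a1.trans (mul_le_mul_of_nonneg_left
      (Real.rpow_le_rpow (zero_le_one.trans (one_le_prod hF.prime)) hR hη.le) (by linarith))
    calc _ = C * (C ^ (u * v).primeFactors.card * ∏ r ∈ (u * v).primeFactors, Real.log r) * p *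
          H ^ k := by ring
      _ ≤ C * (D * R ^ η) * B * H ^ k := by gcongr
      _ = _ := by ring
  refine (sum_le_card_nsmul _ _ _ term).trans ?_
  rw [nsmul_eq_mul, pow_succ, mul_comm, ← mul_assoc]
  exact mul_le_mul_of_nonneg_left hcH hpos

theorem few {S : Finset ℕ} {T : ℝ} {u : ℕ} (hT : 1 < T) (h : ∀ p ∈ S, T ≤ p)
    (hS : ∏ p ∈ S, (p : ℝ) ≤ T ^ u) : S.card ≤ u := by
  rw [← pow_le_pow_iff_right₀ hT, ← prod_const]
  exact (prod_le_prod (fun _ _ => by linarith) h).trans hS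

/-- the case of a large summand -/
theorem large (h2 : H96.RowP2) (hA : H96.RowARI) (hG : RowGM) {u : ℕ} (hu : 1 ≤ u) :
    ∃ (C : ℝ) (k : ℕ), 1 ≤ C ∧ ∀ (a b c : ℕ) (R : ℝ), 0 < b → a + b = c →
      Nat.Coprime a b → 4 ≤ c → c ≤ a ^ 2 → ∏ r ∈ (a * b * c).primeFactors, (r : ℝ) = R →
      Real.log c ≤ C * (R ^ (u : ℝ)⁻¹) ^ 3 * (3 + 2 * Real.log R + Real.log (Real.log c)) ^ k := by
  have hu' : (1 : ℝ) ≤ u := by exact_mod_cast hu
  obtain ⟨D, k, hD, L⟩ := low h2 hA (η := (u : ℝ)⁻¹) (by positivity)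
  obtain ⟨C, hC, GM⟩ := hG u (4 * u) hu (by omega)
  refine ⟨8 * u * C * (D * C), k + 2, ?_, fun a b c R hb habc hab hc ha2 hR => ?_⟩
  · have := one_le_mul_of_one_le_of_one_le (one_le_mul_of_one_le_of_one_le hu' hC)
      (one_le_mul_of_one_le_of_one_le hD hC)
    linarith
  have ha : 2 ≤ a := by nlinarith
  have ha0 : a ≠ 0 := by omega
  have hc0 : c ≠ 0 := by omega
  have h0 : a * b * c ≠ 0 := mul_ne_zero (mul_ne_zero ha0 hb.ne') hc0
  have hca : Nat.Coprime c a := by rw [← habc]; simpa using hab.symm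
  have hcb : Nat.Coprime c b := by rw [← habc]; simpa using hab
  have hz : (c : ℤ) = a + b := by exact_mod_cast habc.symm
  have hN : ∀ r ∈ (a * b * c).primeFactors, r.Prime := fun r hr => Nat.prime_of_mem_primeFactors hr
  have sub : ∀ (n : ℕ) (S : Finset ℕ), n ∣ a * b * c → S ⊆ n.primeFactors →
      ∏ r ∈ S, (r : ℝ) ≤ R := fun n S hn hS =>
    hR ▸ prod_mono (hS.trans (Nat.primeFactors_mono hn h0)) hN
  have da : a ∣ a * b * c := ⟨b * c, by ring⟩
  have dbc : b * c ∣ a * b * c := ⟨a, by ring⟩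
  have hR1 : 1 < R := by
    obtain ⟨q, hq⟩ := Nat.nonempty_primeFactors.2 ha
    have := sub a {q} da (singleton_subset_iff.2 hq)
    rw [prod_singleton] at this
    exact lt_of_lt_of_le (by exact_mod_cast (Nat.prime_of_mem_primeFactors hq).one_lt) this
  have hT : 1 < R ^ (u : ℝ)⁻¹ := Real.one_lt_rpow hR1 (by positivity)
  have hTu : (R ^ (u : ℝ)⁻¹) ^ u = R := Real.rpow_inv_natCast_pow (by linarith) (by omega)
  have hX := one_le_log hc
  have hlX := Real.log_nonneg hX
  have hlR := Real.log_nonneg hR1.le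
  have sm : ∀ n : ℕ, ∀ p ∈ n.primeFactors.filter fun p : ℕ => ¬ C * R ^ (u : ℝ)⁻¹ < p,
      p.Prime ∧ (p : ℝ) ≤ C * R ^ (u : ℝ)⁻¹ := fun n p hp =>
    ⟨Nat.prime_of_mem_primeFactors (mem_filter.1 hp).1, not_lt.1 (mem_filter.1 hp).2⟩
  have la := L a b c c R _ _ hb.ne' hc0 hab hca.symm hcb.symm (by nlinarith) (by omega) le_rfl hc
    ⟨-(a + 2 * b), by rw [hz]; ring⟩ (sub _ _ dbc subset_rfl) (sm a)
    (sub _ _ da (filter_subset _ _)) (by positivity)
  have lb := L b a c c R _ _ ha0 hc0 hab.symm hcb.symm hca.symm (by nlinarith) (by omega) le_rfl hc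
    ⟨-(2 * a + b), by rw [hz]; ring⟩ (sub _ _ ⟨b, by ring⟩ subset_rfl) (sm (b * c))
    (sub _ _ dbc (filter_subset _ _)) (by positivity)
  have lc := L c a b c R _ _ ha0 hb.ne' hca hcb hab (by nlinarith) (by omega) (by omega) hc
    ⟨a - b, by rw [hz]; ring⟩ (sub _ _ ⟨c, rfl⟩ subset_rfl) (sm (b * c))
    (sub _ _ dbc (filter_subset _ _)) (by positivity)
  have hH : Real.log R ≤ 3 + 2 * Real.log R + Real.log (Real.log c) := by linarith
  have hH1 : 1 ≤ 3 + 2 * Real.log R + Real.log (Real.log c) := by linarith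
  generalize 3 + 2 * Real.log R + Real.log (Real.log c) = H at la lb lc hH hH1 ⊢
  generalize R ^ (u : ℝ)⁻¹ = T at la lb lc hT hTu ⊢
  have e : 8 * u * C * (D * C) * T ^ 3 * H ^ (k + 2) =
      4 * u * (C * (2 * T) * (D * (C * T) * T * H ^ (k + 1))) * H := by ring
  have one : 1 ≤ D * (C * T) * T * H ^ (k + 1) := one_le_mul_of_one_le_of_one_le
    (one_le_mul_of_one_le_of_one_le (one_le_mul_of_one_le_of_one_le hD
      (one_le_mul_of_one_le_of_one_le hC hT.le)) hT.le) (one_le_pow₀ hH1)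
  rw [e]
  generalize D * (C * T) * T * H ^ (k + 1) = h at la lb lc one ⊢
  rcases le_or_gt (Real.log c) (4 * h) with hx | hx
  · refine hx.trans ?_
    calc 4 * h = 4 * 1 * (1 * 1 * h) * 1 := by ring
      _ ≤ _ := by gcongr; linarith
  have big : ∀ n : ℕ, ∀ p ∈ n.primeFactors.filter fun p : ℕ => C * T < p, T ≤ p := fun n p hp =>
    le_trans (by nlinarith) (mem_filter.1 hp).2.le
  have x1 : Real.log c ≤ 2 * Real.log a := by
    have := Real.log_le_log (by positivity) (show (c : ℝ) ≤ (a : ℝ) ^ 2 by exact_mod_cast ha2)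
    rwa [Real.log_pow] at this
  have sa := split (fun _ => Nat.prime_of_mem_primeFactors) ha0 subset_rfl fun p : ℕ => C * T < p
  have ca : ((a.primeFactors.filter fun p : ℕ => C * T < p).card : ℝ) ≤ u := by
    exact_mod_cast few hT (big a) (hTu ▸ sub _ _ da (filter_subset _ _))
  obtain ⟨r, hr, hY⟩ := exists_le_of_sum_le (s := a.primeFactors.filter fun p : ℕ => C * T < p)
    (f := fun _ => Real.log c / (4 * u)) (g := fun p => (a.factorization p : ℝ) * Real.log p)
    (nonempty_of_ne_empty fun k => by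
      rw [k, lg, sum_empty] at sa
      linarith)
    (by
      rw [sum_const, nsmul_eq_mul]
      refine (mul_le_mul_of_nonneg_right ca (by positivity)).trans ?_
      rw [show u * (Real.log c / (4 * u)) = Real.log c / 4 by field_simp, ← lg]
      linarith)
  rw [div_le_iff₀ (by positivity)] at hY
  obtain ⟨hra, hrB⟩ := mem_filter.1 hr
  have hrp := Nat.prime_of_mem_primeFactors hra
  have : Fact r.Prime := ⟨hrp⟩
  have hrR : (r : ℝ) ≤ R := by simpa using sub a {r} da (singleton_subset_iff.2 hra)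
  have hr0 : (0 : ℝ) < r := by exact_mod_cast hrp.pos
  have hlr := Real.log_natCast_nonneg r
  have hrS : r ∉ (b * c).primeFactors := fun k => hrp.one_lt.ne' (Nat.eq_one_of_dvd_coprimes
    (hab.mul_right hca.symm) (Nat.dvd_of_mem_primeFactors hra) (Nat.dvd_of_mem_primeFactors k))
  have hS : ∀ p ∈ (b * c).primeFactors, p.Prime := fun _ => Nat.prime_of_mem_primeFactors
  have s1 : b.primeFactors ⊆ (b * c).primeFactors :=
    Nat.primeFactors_mono ⟨c, rfl⟩ (mul_ne_zero hb.ne' hc0)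
  have s2 : c.primeFactors ⊆ (b * c).primeFactors :=
    Nat.primeFactors_mono ⟨b, mul_comm _ _⟩ (mul_ne_zero hb.ne' hc0)
  have sb := split hS hb.ne' s1 fun p : ℕ => C * T < p
  have sc := split hS hc0 s2 fun p : ℕ => C * T < p
  have hd : (r : ℤ) ^ a.factorization r ∣ (c : ℤ) - b := by
    rw [hz, add_sub_cancel_right]
    exact_mod_cast Nat.ordProj_dvd a r
  have lac : Real.log a ≤ Real.log c :=
    Real.log_le_log (by positivity) (by exact_mod_cast (by omega : a ≤ c))
  have lbc : Real.log b ≤ Real.log c :=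
    Real.log_le_log (by positivity) (by exact_mod_cast (by omega : b ≤ c))
  obtain ⟨x, a', b', ap, w1, w2⟩ : ∃ x a' b', Apx r ((b * c).primeFactors.filter fun p : ℕ =>
      C * T < p) x a' b' h (a.factorization r) ∧
      LA ((b * c).primeFactors.filter fun p : ℕ => C * T < p) x ≤ Real.log c ∧
      Real.log c ≤ 2 * LA ((b * c).primeFactors.filter fun p : ℕ => C * T < p) x := by
    rcases le_total (lg ((b * c).primeFactors.filter fun p : ℕ => C * T < p) b)
      (lg ((b * c).primeFactors.filter fun p : ℕ => C * T < p) c) with o | o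
    · obtain ⟨x, a', b', k1, k2⟩ := apx _ hc0 hb.ne' hcb hS s2 s1 hrS hd one lc lb o
      have := lg_nonneg ((b * c).primeFactors.filter fun p : ℕ => ¬ C * T < p) c
      exact ⟨x, a', b', k1, by linarith, by linarith⟩
    · obtain ⟨x, a', b', k1, k2⟩ := apx _ hb.ne' hc0 hcb.symm hS s1 s2 hrS (dvd_sub_comm.1 hd) one
        lb lc o
      have := lg_nonneg ((b * c).primeFactors.filter fun p : ℕ => ¬ C * T < p) b
      exact ⟨x, a', b', k1, by linarith, by linarith⟩
  have hP := sub _ _ dbc (filter_subset (fun p : ℕ => C * T < p) _)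
  have hM : ((⌊T⌋₊ + 1 : ℕ) : ℝ) ≤ 2 * T := by
    have := Nat.floor_le (zero_le_one.trans hT.le)
    push_cast
    linarith
  have fin := GM r _ x a' b' h _ (⌊T⌋₊ + 1) ap
    ((few hT (big _) (hTu ▸ hP)).trans (by omega)) (by
      rw [Lam, ← Real.log_prod fun p hp => by exact_mod_cast (ap.prime p hp).ne_zero]
      have k1 := Real.log_le_log (one_pos.trans_le (one_le_prod ap.prime)) hP
      have k2 := Real.log_le_log (by linarith) (big a r hr)
      rw [← hTu, Real.log_pow] at k1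
      push_cast
      nlinarith)
    (by push_cast; linarith)
    (by
      have := single_le_sum (f := fun p : ℕ => (a.factorization p : ℝ) * Real.log p)
        (fun p _ => mul_nonneg (Nat.cast_nonneg _) (Real.log_natCast_nonneg p)) hr
      have := lg_nonneg (a.primeFactors.filter fun p : ℕ => ¬ C * T < p) a
      rw [lg] at sa
      linarith)
    (le_trans (by nlinarith) hrB.le)
    (by
      have := pow_lt_pow_left₀ (Nat.lt_floor_add_one T) (by linarith) (by omega : u ≠ 0)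
      exact_mod_cast hrR.trans_lt (hTu ▸ this))
  calc Real.log c ≤ 4 * u * a.factorization r * Real.log r := by linarith
    _ ≤ _ := by
      gcongr
      · exact fin.trans (by gcongr)
      · exact (Real.log_le_log hr0 hrR).trans hH

end ABC

open ABC in
theorem rowABC : H96.RowP2 → H96.RowP3 → H96.RowARI → RowGM → RowABC := by
  intro h2 h3 hA hG ε hε
  obtain ⟨u, hu⟩ := exists_nat_ge (max 4 (4 / ε))
  have u1 : (4 : ℝ) ≤ u := (le_max_left _ _).trans hu
  have u0 : (0 : ℝ) < u := by linarith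
  have u2 : (u : ℝ)⁻¹ * 3 + (u : ℝ)⁻¹ ≤ ε := by
    have := (div_le_iff₀ hε).1 ((le_max_right _ _).trans hu)
    rw [show (u : ℝ)⁻¹ * 3 + (u : ℝ)⁻¹ = 4 / u by ring, div_le_iff₀ u0]
    linarith
  obtain ⟨C, k, hC, hL⟩ := large h2 hA hG (u := u) (by exact_mod_cast (by linarith : (1 : ℝ) ≤ u))
  obtain ⟨D, l, hD, hS⟩ := small h3 hA (θ := (u : ℝ)⁻¹ * 3) (by positivity)
  obtain ⟨C', hC'⟩ := hA.boot (C + D) ((u : ℝ)⁻¹ * 3) (u : ℝ)⁻¹ (k + l) (by positivity)
    (by rw [inv_mul_le_iff₀ u0]; linarith) (by positivity)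
  refine ⟨max C' 2, fun a b c ha hb habc hab => ?_⟩
  have hN : ∀ r ∈ (a * b * c).primeFactors, r.Prime := fun r hr => Nat.prime_of_mem_primeFactors hr
  have hR1 := one_le_prod hN
  have hc0 : c ≠ 0 := by omega
  have hpos := Real.one_le_rpow hR1 hε.le
  rcases lt_or_ge c 4 with hc | hc
  · have e1 : (c : ℝ) ≤ 3 := by exact_mod_cast (by omega : c ≤ 3)
    have e3 := Real.log_le_sub_one_of_pos (show (0 : ℝ) < c by positivity)
    have e4 := le_max_right C' 2
    nlinarith
  have hX := one_le_log hc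
  have m1 := fun h => hS a b c _ ha hb habc (by rw [← habc]; simpa using hab) hc h
    (prod_mono (Nat.primeFactors_mono ⟨a, by ring⟩
      (mul_ne_zero (mul_ne_zero ha.ne' hb.ne') hc0)) hN)
  have m2 := fun h => hL a b c _ hb habc hab hc h rfl
  generalize ∏ r ∈ (a * b * c).primeFactors, (r : ℝ) = R at hR1 hpos m1 m2 ⊢
  rw [← Real.rpow_mul_natCast (by linarith), Nat.cast_ofNat] at m2
  have hH1 : 1 ≤ 3 + 2 * Real.log R + Real.log (Real.log c) := by
    have := Real.log_nonneg hR1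
    have := Real.log_nonneg hX
    linarith
  refine (hC' _ R hX hR1 ?_).trans (mul_le_mul (le_max_left _ _)
    (Real.rpow_le_rpow_of_exponent_le hR1 u2) (by positivity) (zero_le_two.trans (le_max_right _ _)))
  rcases lt_or_ge (a ^ 2) c with h | h
  · exact (m1 h).trans (by gcongr <;> first | omega | linarith)
  · exact (m2 h).trans (by gcongr <;> first | omega | linarith)

end Pool.Agent.MP_542436_nt.H39
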