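import Pool.Agent.MP_542436_nt.H39.Spec

/-! The auxiliary polynomial, from the lemma of Siegel. -/

set_option autoImplicit false

namespace Pool.Agent.MP_542436_nt.H39

open MvPolynomial

namespace AUX

theorem siegel {α β : Type} [Fintype α] [Fintype β] (A : Matrix α β ℤ) (M L : ℕ) (hM : 1 ≤ M)
    (hA : ∀ i j, |A i j| ≤ M) (hβ : Fintype.card α < Fintype.card β)
    (h : (L + 1) * Fintype.card α ≤ L * Fintype.card β) :
    ∃ t : β → ℤ, t ≠ 0 ∧ A.mulVec t = 0 ∧ ∀ u, |t u| ≤ ((Fintype.card β * M) ^ L : ℕ) := by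
  have h1 : 1 ≤ Fintype.card β * M := Nat.mul_pos (by omega) hM
  rcases Nat.eq_zero_or_pos (Fintype.card α) with h0 | h0
  · have := Fintype.card_eq_zero_iff.1 h0
    have : Nonempty β := Fintype.card_pos_iff.1 (by omega)
    refine ⟨1, one_ne_zero, Subsingleton.elim _ _, fun u => ?_⟩
    rw [Pi.one_apply, abs_one]
    exact_mod_cast Nat.one_le_pow _ _ h1
  letI := Matrix.seminormedAddCommGroup (m := α) (n := β) (α := ℤ)
  obtain ⟨t, t0, t1, t2⟩ := Int.Matrix.exists_ne_zero_int_vec_norm_le A hβ h0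
  refine ⟨t, t0, t1, fun u => ?_⟩
  have hM' : (1 : ℝ) ≤ M := by exact_mod_cast hM
  have h2 : ‖A‖ ≤ M := (Matrix.norm_le_iff (by positivity)).2 fun i j => by
    rw [Int.norm_eq_abs]
    exact_mod_cast hA i j
  have h3 : (Fintype.card α : ℝ) < Fintype.card β := by exact_mod_cast hβ
  have h4 : ((L : ℝ) + 1) * Fintype.card α ≤ L * Fintype.card β := by exact_mod_cast h
  have h5 : (Fintype.card α : ℝ) / (Fintype.card β - Fintype.card α) ≤ L := by
    rw [div_le_iff₀ (by linarith)]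
    linarith
  have h6 : ‖t‖ ≤ ((Fintype.card β : ℝ) * M) ^ (L : ℝ) :=
    t2.trans ((Real.rpow_le_rpow (by positivity)
      (mul_le_mul_of_nonneg_left (max_le hM' h2) (Nat.cast_nonneg _))
      (div_nonneg (Nat.cast_nonneg _) (by linarith))).trans
      (Real.rpow_le_rpow_of_exponent_le (by exact_mod_cast h1) h5))
  have h7 := (norm_le_pi_norm t u).trans h6
  rw [Int.norm_eq_abs, Real.rpow_natCast] at h7
  exact_mod_cast h7

variable {σ : Type}

/-- the sum of the absolute values of the coefficients -/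
noncomputable def l1 (f : MvPolynomial σ ℤ) : ℤ := ∑ z ∈ f.support, |coeff z f|

theorem l1_nonneg (f : MvPolynomial σ ℤ) : 0 ≤ l1 f := Finset.sum_nonneg fun _ _ => abs_nonneg _

theorem sum_le (T : Finset (σ →₀ ℕ)) (f : MvPolynomial σ ℤ) : ∑ z ∈ T, |coeff z f| ≤ l1 f := by
  rw [← Finset.sum_filter_ne_zero T]
  exact Finset.sum_le_sum_of_subset_of_nonneg (fun z h => mem_support_iff.2
    (abs_ne_zero.1 (Finset.mem_filter.1 h).2)) fun _ _ _ => abs_nonneg _

theorem coeff_le (z : σ →₀ ℕ) (f : MvPolynomial σ ℤ) : |coeff z f| ≤ l1 f := by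
  simpa using sum_le {z} f

theorem l1_sum {ι : Type} (s : Finset ι) (a : ι → σ →₀ ℕ) (c : ι → ℤ) :
    l1 (∑ i ∈ s, monomial (a i) (c i)) ≤ ∑ i ∈ s, |c i| := by
  classical
  unfold l1
  generalize (∑ i ∈ s, monomial (a i) (c i) : MvPolynomial σ ℤ).support = T
  calc _ ≤ ∑ z ∈ T, ∑ i ∈ s, if a i = z then |c i| else 0 := Finset.sum_le_sum fun z _ => by
        rw [coeff_sum]
        refine (Finset.abs_sum_le_sum_abs _ _).trans (Finset.sum_le_sum fun i _ => ?_)
        rw [coeff_monomial]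
        split_ifs <;> simp
    _ ≤ _ := by
        rw [Finset.sum_comm]
        refine Finset.sum_le_sum fun i _ => ?_
        rw [Finset.sum_ite_eq]
        split_ifs <;> simp

theorem l1_mul (f g : MvPolynomial σ ℤ) : l1 (f * g) ≤ l1 f * l1 g := by
  have e : f * g = ∑ p ∈ f.support ×ˢ g.support,
      monomial (p.1 + p.2) (coeff p.1 f * coeff p.2 g) := by
    conv_lhs => rw [f.as_sum, g.as_sum, Finset.sum_mul_sum]
    simp only [monomial_mul]
    rw [Finset.sum_product]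
  rw [e]
  refine (l1_sum _ _ _).trans (le_of_eq ?_)
  rw [l1, l1, Finset.sum_mul_sum, Finset.sum_product]
  simp only [abs_mul]

theorem l1_monomial (a : σ →₀ ℕ) (c : ℤ) : l1 (monomial a c) ≤ |c| := by
  simpa using l1_sum ({()} : Finset Unit) (fun _ => a) fun _ => c

theorem l1_pow {f : MvPolynomial σ ℤ} {m : ℤ} (h : l1 f ≤ m) (n : ℕ) : l1 (f ^ n) ≤ m ^ n := by
  induction n with
  | zero => simpa using l1_monomial (0 : σ →₀ ℕ) 1
  | succ n ih =>
    rw [pow_succ, pow_succ]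
    exact (l1_mul _ _).trans (mul_le_mul ih h (l1_nonneg _) ((l1_nonneg _).trans ih))

end AUX

open AUX in
theorem rowAUX : RowAUX := by
  classical
  intro ρ G m Y d L ω S hm hd h0 hG hω hS hL hY
  have hP : l1 (ω ^ Y) ≤ (m : ℤ) ^ Y := l1_pow hω Y
  have hs : S.card ≤ d ^ ρ := (Finset.card_le_card hS).trans_eq (card_bx ρ d)
  have hD : 1 ≤ d ^ ρ := Nat.one_le_pow _ _ hd
  have hU : (d - G * Y) ^ ρ ≤ d ^ ρ := Nat.pow_le_pow_left (Nat.sub_le _ _) _
  have cα : Fintype.card ↥(bx ρ d \ S) = d ^ ρ - S.card := by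
    rw [Fintype.card_coe, Finset.card_sdiff_of_subset hS, card_bx]
  have cβ : Fintype.card ↥(bx ρ (d - G * Y)) = (d - G * Y) ^ ρ := by
    rw [Fintype.card_coe, card_bx]
  obtain ⟨e, he⟩ := Nat.exists_eq_add_of_le hs
  have he' : d ^ ρ - S.card = e := by omega
  have hlt : e < (d - G * Y) ^ ρ := by
    by_contra hc
    have := Nat.mul_le_mul_left L (not_lt.1 hc)
    nlinarith
  obtain ⟨t, t0, t1, t2⟩ := siegel
    (Matrix.of fun (z : ↥(bx ρ d \ S)) (u : ↥(bx ρ (d - G * Y))) =>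
      coeff z.1 (ω ^ Y * monomial u.1 1)) (m ^ Y) L (Nat.one_le_pow _ _ hm)
    (fun z u => by
      refine (coeff_le _ _).trans ((l1_mul _ _).trans ?_)
      have := mul_le_mul hP (l1_monomial u.1 1) (l1_nonneg _) (by positivity)
      simpa using this)
    (by rw [cα, cβ, he']; exact hlt) (by rw [cα, cβ, he']; nlinarith)
  set H : MvPolynomial (Fin ρ) ℤ := ∑ u : ↥(bx ρ (d - G * Y)), monomial u.1 (t u) with hH
  have hc : ∀ u : ↥(bx ρ (d - G * Y)), coeff u.1 H = t u := fun u => by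
    rw [hH, coeff_sum, Finset.sum_eq_single u (fun v _ hv => by
      rw [coeff_monomial, if_neg fun h => hv (Subtype.ext h)]) (by simp), coeff_monomial, if_pos rfl]
  refine ⟨H, mul_ne_zero (pow_ne_zero _ h0) fun h => t0 (funext fun u => ?_), fun z hz => ?_, ?_⟩
  · rw [← hc, h]
    rfl
  · by_contra hn
    have hb : z ∈ bx ρ d := mem_bx.2 fun i => by
      have a1 : degreeOf i ω ≤ G := degreeOf_le_iff.2 fun z hz => hG z hz i
      have a2 : degreeOf i H ≤ d - G * Y - 1 := degreeOf_le_iff.2 fun v hv => by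
        obtain ⟨u, -, hu⟩ := Finset.mem_biUnion.1 (support_sum hv)
        rw [Finset.mem_singleton.1 (support_monomial_subset hu)]
        have := mem_bx.1 u.2 i
        omega
      have a3 := (degreeOf_pow_le i ω Y).trans (Nat.mul_le_mul_left Y a1)
      have a4 := (monomial_le_degreeOf i hz).trans (degreeOf_mul_le i _ _)
      rw [mul_comm Y] at a3
      omega
    have h1 := congrFun t1 ⟨z, Finset.mem_sdiff.2 ⟨hb, hn⟩⟩
    refine mem_support_iff.1 hz (Eq.trans ?_ h1)
    rw [hH, Finset.mul_sum, coeff_sum]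
    refine Finset.sum_congr rfl fun u _ => ?_
    change _ = coeff z (ω ^ Y * monomial u.1 1) * t u
    rw [mul_comm _ (t u), ← coeff_C_mul, mul_left_comm, C_mul_monomial, mul_one]
  · have h1 : l1 H ≤ ((d - G * Y) ^ ρ * ((d - G * Y) ^ ρ * m ^ Y) ^ L : ℕ) := by
      refine (l1_sum _ _ _).trans ((Finset.sum_le_card_nsmul _ _ _ fun u _ => t2 u).trans_eq ?_)
      rw [Finset.card_univ, cβ, nsmul_eq_mul, Nat.cast_mul]
    have h2 : m ^ Y * ((d - G * Y) ^ ρ * ((d - G * Y) ^ ρ * m ^ Y) ^ L) ≤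
        (d ^ ρ * m ^ Y) ^ (L + 2) :=
      calc _ = ((d - G * Y) ^ ρ * m ^ Y) ^ (L + 1) := by ring
        _ ≤ (d ^ ρ * m ^ Y) ^ (L + 1) := Nat.pow_le_pow_left (Nat.mul_le_mul_right _ hU) _
        _ ≤ _ := Nat.pow_le_pow_right (Nat.mul_pos hD (Nat.one_le_pow _ _ hm)) (by omega)
    refine (sum_le _ _).trans ((l1_mul _ _).trans
      ((mul_le_mul hP h1 (l1_nonneg _) (by positivity)).trans ?_))
    exact_mod_cast h2

end Pool.Agent.MP_542436_nt.H39
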