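import Pool.Agent.MP_542436_nt.H39.Spec

/-! A prime that is minimal at one step and contains the next step. -/

set_option autoImplicit false

namespace Pool.Agent.MP_542436_nt.H39

open MvPolynomial

namespace CHN

theorem chain {R : Type} [CommRing R] [IsDomain R] (n : ℕ) (hd : ringKrullDim R = n)
    (I : ℕ → Ideal R) (hI : Monotone I) (h0 : I 0 ≠ ⊥) (m : Ideal R) [m.IsPrime] (hm : I n ≤ m) :
    ∃ (j : ℕ) (p : Ideal R), p ∈ (I j).minimalPrimes ∧ p ≤ m ∧ I (j + 1) ≤ p := by
  by_contra h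
  push Not at h
  have key : ∀ (j : ℕ) (q : Ideal R), q.IsPrime → q ≤ m → I j ≤ q → (j + 1 : ℕ∞) ≤ q.height := by
    intro j
    induction j with
    | zero =>
      intro q _ _ hq
      rw [Nat.cast_zero, zero_add, Order.one_le_iff_ne_zero, Ne, Ideal.height_eq_zero_iff_eq_bot]
      rintro rfl
      exact h0 (le_bot_iff.1 hq)
    | succ j ih =>
      intro q _ hq hj
      obtain ⟨p, hp, hpq⟩ := Ideal.exists_minimalPrimes_le ((hI j.le_succ).trans hj)
      have := hp.1.1
      have h1 : p < q := lt_of_le_of_ne hpq fun e => h j p hp (hpq.trans hq) (e ▸ hj)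
      refine le_trans ?_ (Ideal.height_add_one_le_of_lt_of_isPrime h1)
      rw [Nat.cast_succ]
      exact add_le_add_left (ih p this (hpq.trans hq) hp.1.2) 1
  have h1 := key n m inferInstance le_rfl hm
  have h2 := Ideal.height_le_ringKrullDim_of_isPrime (I := m)
  rw [hd, ← WithBot.coe_natCast, WithBot.coe_le_coe] at h2
  have h3 := h1.trans h2
  norm_cast at h3
  omega

end CHN

theorem rowCHN : RowCHN := by
  intro ρ θ F hF h
  have hd : ringKrullDim (Rg ρ) = (ρ + 1 : ℕ) := by
    rw [MvPolynomial.ringKrullDim_of_isNoetherianRing, ringKrullDim_eq_zero_of_field, zero_add]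
    simp
  have := RingHom.ker_isPrime (eval (1 : Option (Fin ρ) → ℂ))
  obtain ⟨j, p, h1, h2, h3⟩ := CHN.chain (ρ + 1) hd
    (fun j => Ideal.span ((fun l => Dl l F) '' {l | l.length ≤ j * θ}))
    (fun i j hij => Ideal.span_mono (Set.image_mono fun l hl =>
      le_trans hl (Nat.mul_le_mul_right θ hij)))
    (fun e => hF (Ideal.span_eq_bot.1 e F ⟨[], by simp, rfl⟩))
    (RingHom.ker (eval (1 : Option (Fin ρ) → ℂ)))
    (Ideal.span_le.2 (by rintro _ ⟨l, hl, rfl⟩; exact h l hl))
  exact ⟨j, p, h1, fun f hf => h2 hf, fun l hl => h3 (Ideal.subset_span ⟨l, hl, rfl⟩)⟩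

end Pool.Agent.MP_542436_nt.H39
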