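import Pool.Agent.MP_542436_nt.H39.Spec

/-! Comparison of two filtrations of a local ring. -/

set_option autoImplicit false

namespace Pool.Agent.MP_542436_nt.H39

namespace CNT

variable {O : Type} [CommRing O] [IsLocalRing O]

open Classical in
/-- the steps of the chain that stay strict after adding `U` -/
noncomputable def st (𝔞 : ℕ → Ideal O) (W : Finset ℕ) (U : Ideal O) : Finset ℕ :=
  W.filter fun v => 𝔞 (v + 1) ⊔ U ≠ 𝔞 v ⊔ U

theorem lost {𝔞 : ℕ → Ideal O} (h : Antitone 𝔞) {U : Ideal O} {e : O}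
    (hm : ∀ x ∈ IsLocalRing.maximalIdeal O, x * e ∈ U) {v : ℕ} (h1 : 𝔞 (v + 1) ⊔ U ≠ 𝔞 v ⊔ U)
    (h2 : 𝔞 (v + 1) ⊔ (Ideal.span {e} ⊔ U) = 𝔞 v ⊔ (Ideal.span {e} ⊔ U)) :
    e ∈ 𝔞 v ⊔ U ∧ e ∉ 𝔞 (v + 1) ⊔ U := by
  have hle : 𝔞 (v + 1) ⊔ U ≤ 𝔞 v ⊔ U := sup_le_sup_right (h v.le_succ) U
  obtain ⟨y, hy, hy'⟩ := SetLike.exists_of_lt (hle.lt_of_ne h1)
  have h3 : y ∈ Ideal.span {e} ⊔ (𝔞 (v + 1) ⊔ U) := by
    rw [sup_left_comm, h2]
    exact (sup_le_sup_left le_sup_right _ : 𝔞 v ⊔ U ≤ 𝔞 v ⊔ (Ideal.span {e} ⊔ U)) hy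
  obtain ⟨_, ha, z, hz, rfl⟩ := Submodule.mem_sup.1 h3
  obtain ⟨o, rfl⟩ := Ideal.mem_span_singleton'.1 ha
  refine ⟨?_, fun he => hy' (add_mem (Ideal.mul_mem_left _ _ he) hz)⟩
  have ho : IsUnit o := by
    by_contra hn
    exact hy' (add_mem (Ideal.mem_sup_right (hm o ((IsLocalRing.mem_maximalIdeal o).2 hn))) hz)
  exact (Ideal.unit_mul_mem_iff_mem _ ho).1 ((Submodule.add_mem_iff_left _ (hle hz)).1 hy)

theorem step {𝔞 : ℕ → Ideal O} (h : Antitone 𝔞) (W : Finset ℕ) {U : Ideal O} {e : O}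
    (hm : ∀ x ∈ IsLocalRing.maximalIdeal O, x * e ∈ U) :
    (st 𝔞 W U).card ≤ (st 𝔞 W (Ideal.span {e} ⊔ U)).card + 1 := by
  refine Finset.le_card_sdiff _ _ |> tsub_le_iff_left.1 |>.trans (Nat.add_le_add_left ?_ _)
  have key : ∀ v ∈ st 𝔞 W U \ st 𝔞 W (Ideal.span {e} ⊔ U), e ∈ 𝔞 v ⊔ U ∧ e ∉ 𝔞 (v + 1) ⊔ U := by
    intro v hv
    simp only [st, Finset.mem_sdiff, Finset.mem_filter, not_and, not_not] at hv
    exact lost h hm hv.1.2 (hv.2 hv.1.1)
  refine Finset.card_le_one.2 fun v hv w hw => ?_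
  by_contra hne
  rcases lt_or_gt_of_ne hne with hlt | hlt
  · exact (key v hv).2 (sup_le_sup_right (h hlt) U (key w hw).1)
  · exact (key w hw).2 (sup_le_sup_right (h hlt) U (key v hv).1)

theorem main {E : Type} (e : E → O) (rk : E → ℕ) {𝔞 : ℕ → Ideal O} (h : Antitone 𝔞)
    (W : Finset ℕ) (𝔟 : Ideal O) (S : Finset E) :
    (∀ x ∈ IsLocalRing.maximalIdeal O, ∀ i ∈ S,
      x * e i ∈ Ideal.span (e '' {i' | i' ∈ S ∧ rk i < rk i'}) ⊔ 𝔟) →
    ∃ E' ⊆ S, (st 𝔞 W 𝔟).card ≤ (st 𝔞 W (Ideal.span (e '' S) ⊔ 𝔟)).card + E'.card ∧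
      ∀ o : E → O, (∀ i, o i = 0 ∨ IsUnit (o i)) → ∑ i ∈ E', o i * e i ∈ 𝔟 →
        ∀ i ∈ E', o i = 0 := by
  classical
  induction S using Finset.induction_on_min_value rk with
  | empty => exact fun _ => ⟨∅, subset_rfl, by simp, by simp⟩
  | insert a s ha hmin ih =>
    intro hm
    have sub : ∀ i, rk a ≤ rk i →
        {i' | i' ∈ insert a s ∧ rk i < rk i'} ⊆ {i' | i' ∈ s ∧ rk i < rk i'} := by
      rintro i hi i' ⟨h1, h2⟩
      rcases Finset.mem_insert.1 h1 with rfl | h1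
      · exact absurd h2 hi.not_gt
      · exact ⟨h1, h2⟩
    obtain ⟨E', hE, hc, hi⟩ := ih fun x hx i hi => sup_le_sup_right
      (Ideal.span_mono (Set.image_mono (sub i (hmin i hi)))) 𝔟 (hm x hx i (Finset.mem_insert_of_mem hi))
    have ha' : ∀ x ∈ IsLocalRing.maximalIdeal O, x * e a ∈ Ideal.span (e '' s) ⊔ 𝔟 := fun x hx =>
      sup_le_sup_right (Ideal.span_mono (Set.image_mono ((sub a le_rfl).trans fun _ h => h.1))) 𝔟
        (hm x hx a (Finset.mem_insert_self a s))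
    have hU : Ideal.span (e '' (insert a s : Finset E)) ⊔ 𝔟 =
        Ideal.span {e a} ⊔ (Ideal.span (e '' s) ⊔ 𝔟) := by
      rw [Finset.coe_insert, Set.image_insert_eq, Ideal.span_insert, sup_assoc]
    rw [hU]
    by_cases he : e a ∈ Ideal.span (e '' s) ⊔ 𝔟
    · refine ⟨E', hE.trans (Finset.subset_insert a s), ?_, hi⟩
      rwa [sup_eq_right.2 ((Ideal.span_singleton_le_iff_mem _).2 he)]
    · have haE : a ∉ E' := fun h => ha (hE h)
      refine ⟨insert a E', Finset.insert_subset_insert a hE, ?_, fun o ho hs => ?_⟩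
      · have := step h W ha'
        rw [Finset.card_insert_of_notMem haE]
        omega
      · rw [Finset.sum_insert haE] at hs
        have h0 : o a = 0 := by
          refine (ho a).resolve_right fun hu => he ((Ideal.unit_mul_mem_iff_mem _ hu).1 ?_)
          refine (Submodule.add_mem_iff_left _ (Ideal.mem_sup_left (Ideal.sum_mem _ fun i hi =>
            Ideal.mul_mem_left _ (o i) (Ideal.subset_span (Set.mem_image_of_mem e (hE hi)))))).1
              (Ideal.mem_sup_right hs)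
        rw [h0, zero_mul, zero_add] at hs
        exact Finset.forall_mem_insert _ _ _ |>.2 ⟨h0, hi o ho hs⟩

end CNT

open CNT in
theorem rowCNT : RowCNT := by
  intro O E _ _ _ e rk 𝔞 n W h hW ht hm
  obtain ⟨E', -, hc, hi⟩ := main e rk h W (𝔞 n) Finset.univ fun x hx i _ => by
    simpa using hm x hx i
  refine ⟨E', ?_, hi⟩
  have e1 : st 𝔞 W (𝔞 n) = W := by
    classical
    refine Finset.filter_true_of_mem fun v hv => ?_
    rw [sup_eq_left.2 (h (hW v hv).1), sup_eq_left.2 (h (hW v hv).1.le)]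
    exact (hW v hv).2
  rw [e1, Finset.coe_univ, Set.image_univ, ht] at hc
  simpa [st] using hc

end Pool.Agent.MP_542436_nt.H39
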