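import Pool.Agent.MP_542436_nt.H39.Spec

/-! The contradiction with free parameters. -/

set_option autoImplicit false

namespace Pool.Agent.MP_542436_nt.H39

open MvPolynomial Finset

namespace CORE

theorem zpow_sum {ι : Type} {p : ℚ} (hp : p ≠ 0) (t : Finset ι) (f : ι → ℤ) :
    p ^ ∑ j ∈ t, f j = ∏ j ∈ t, p ^ f j := by
  classical
  induction t using Finset.induction_on with
  | empty => simp
  | insert a s ha ih => rw [sum_insert ha, prod_insert ha, zpow_add₀ hp, ih]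

theorem pw_comb {ρ : ℕ} {P : Finset ℕ} (hP : ∀ p ∈ P, p.Prime) (z : Fin ρ → ℕ)
    (e : Fin ρ → ℕ → ℤ) (s : ℕ) (x : ℕ → ℤ) :
    pw P (fun p => ∑ j, z j * e j p + s * x p) = pw P x ^ s * ∏ j, pw P (e j) ^ z j := by
  simp only [pw, ← prod_pow]
  rw [prod_comm, ← prod_mul_distrib]
  refine prod_congr rfl fun p hp => ?_
  have h : (p : ℚ) ≠ 0 := Nat.cast_ne_zero.2 (hP p hp).ne_zero
  rw [zpow_add₀ h, zpow_sum h, mul_comm]
  simp only [mul_comm (_ : ℤ) (e _ p), mul_comm (s : ℤ), zpow_mul, zpow_natCast]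

theorem pw_ne {P : Finset ℕ} (hP : ∀ p ∈ P, p.Prime) (x : ℕ → ℤ) : pw P x ≠ 0 :=
  prod_ne_zero_iff.2 fun p hp => zpow_ne_zero _ (Nat.cast_ne_zero.2 (hP p hp).ne_zero)

theorem pw_norm {r : ℕ} [hr : Fact r.Prime] {P : Finset ℕ} (hP : ∀ p ∈ P, p.Prime) (h : r ∉ P)
    (x : ℕ → ℤ) : ‖((pw P x : ℚ) : ℚ_[r])‖ = 1 := by
  simp only [pw, Rat.cast_prod, Rat.cast_zpow, Rat.cast_natCast, norm_prod, norm_zpow]
  refine prod_eq_one fun p hp => ?_
  rw [Padic.norm_natCast_eq_one_iff.2 ((Nat.coprime_primes hr.1 (hP p hp)).2 fun e => h (e ▸ hp)),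
    one_zpow]

theorem win (L ν : ℕ) : ∃ W : Finset ℕ, W.card = L * ν ∧ ∀ w ∈ W, w < 2 * L * ν ∧
    ∀ i, w ≤ (2 * i + 1) * ν ∨ (2 * i + 2) * ν ≤ w := by
  refine ⟨(range L ×ˢ range ν).image fun u => 2 * u.1 * ν + u.2, ?_, fun w hw => ?_⟩
  · rw [card_image_of_injOn, card_product, card_range, card_range]
    rintro ⟨i, j⟩ h1 ⟨i', j'⟩ h2 h
    simp only [coe_product, coe_range, Set.mem_prod, Set.mem_Iio] at h1 h2 h
    have : i = i' := by
      rcases lt_trichotomy i i' with c | c | c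
      · nlinarith [Nat.mul_le_mul_right ν (Nat.succ_le_of_lt c)]
      · exact c
      · nlinarith [Nat.mul_le_mul_right ν (Nat.succ_le_of_lt c)]
    subst this
    rw [Nat.add_left_cancel h]
  · obtain ⟨⟨i, j⟩, h, rfl⟩ := mem_image.1 hw
    simp only [mem_product, mem_range] at h ⊢
    refine ⟨by nlinarith [Nat.mul_le_mul_right ν (Nat.succ_le_of_lt h.1)], fun k => ?_⟩
    rcases le_or_gt i k with c | c
    · exact .inl (by nlinarith [Nat.mul_le_mul_right ν c])
    · exact .inr (by nlinarith [Nat.mul_le_mul_right ν (Nat.succ_le_of_lt c)])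

theorem size {ρ d m Y L : ℕ} (hd : 1 ≤ d) (hm : 1 ≤ m) {t : Finset (Fin ρ →₀ ℕ)}
    (ht : t ⊆ bx ρ d) {ψ : (Fin ρ →₀ ℕ) → ℤ} (h : ∑ z ∈ t, |ψ z| ≤ (d ^ ρ * m ^ Y) ^ (L + 2))
    (α : Fin ρ → ℕ) :
    ∑ z ∈ t, |((ψ z * ∏ j, ((z j).choose (α j) : ℤ) : ℤ) : ℝ)| ≤
      Real.exp ((L + 2) * (ρ * Real.log d + Y * Real.log m) + ρ * d * Real.log 2) := by
  have h' : ∑ z ∈ t, |(ψ z : ℝ)| ≤ (d ^ ρ * m ^ Y) ^ (L + 2) := by exact_mod_cast h
  have e : Real.exp ((L + 2) * (ρ * Real.log d + Y * Real.log m) + ρ * d * Real.log 2) =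
      (d ^ ρ * m ^ Y) ^ (L + 2) * (2 ^ d) ^ ρ := by
    rw [Real.exp_add, show (L : ℝ) + 2 = (L + 2 : ℕ) by simp, Real.exp_nat_mul, Real.exp_add,
      mul_assoc, Real.exp_nat_mul, Real.exp_nat_mul, Real.exp_nat_mul, Real.exp_nat_mul,
      Real.exp_log (by positivity), Real.exp_log (by positivity), Real.exp_log two_pos]
  rw [e]
  refine le_trans (sum_le_sum fun z hz => ?_) (((sum_mul ..).symm.le).trans
    (mul_le_mul_of_nonneg_right h' (by positivity)))
  push_cast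
  rw [abs_mul, abs_of_nonneg (a := ∏ _, _) (by positivity)]
  refine mul_le_mul_of_nonneg_left ?_ (abs_nonneg _)
  refine (prod_le_prod (fun _ _ => by positivity) (g := fun _ => (2 : ℝ) ^ d) fun j _ => ?_).trans
    (by simp)
  exact_mod_cast (Nat.choose_le_two_pow _ _).trans
    (Nat.pow_le_pow_right two_pos (mem_bx.1 (ht hz) j).le)

theorem sum_bd {ρ d : ℕ} {z : Fin ρ →₀ ℕ} (hz : z ∈ bx ρ d) {u : Fin ρ → ℝ} {c : ℝ}
    (hu : ∀ j, |u j| ≤ c) : |∑ j, z j * u j| ≤ ρ * d * c := by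
  refine (abs_sum_le_sum_abs _ _).trans ((sum_le_sum (g := fun _ => d * c) fun j _ => ?_).trans
    (by simp [mul_assoc]))
  rw [abs_mul, Nat.abs_cast]
  exact mul_le_mul (by exact_mod_cast (mem_bx.1 hz j).le) (hu j) (abs_nonneg _) (by positivity)

end CORE

open CORE in
theorem rowCORE : RowWIN → RowAUX → RowRAD → RowSPL → RowCORE := by
  intro WIN AUX RAD SPL r _ P x a b h Y ρ δ g E G m N d K ν L L₀ S κ₀ κ e ω ε err A Z ω0 ωG ωm m1
    ωr hκ he ε0 hrel GY dK KY ν1 EN EK LN N1 cnt hS herr h1 h2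
  have d1 : 1 ≤ d := by omega
  have N0 : (0 : ℝ) < N := by exact_mod_cast N1
  have N0' : (0 : ℤ) < N := by exact_mod_cast N1
  obtain ⟨W, W1, W2⟩ := win L ν
  obtain ⟨h0, t, hN, ht, tc, tw⟩ := WIN N _ (bx ρ d) (fun z => ∑ j, z j * κ j) W N1
    fun w hw => (W2 w hw).1.trans_le LN
  rw [W1, card_bx] at tc
  obtain ⟨H, H0, H1, H2⟩ := AUX ρ G m Y d L₀ ω t m1 d1 ω0 ωG ωm ht
    (Nat.le_of_mul_le_mul_right (cnt.trans (by nlinarith [Nat.mul_le_mul_left L₀ tc])) N1) GY
  obtain ⟨w, s, hw⟩ : ∃ w s : (Fin ρ →₀ ℕ) → ℕ, ∀ z ∈ t, w z ∈ W ∧ s z ≤ 2 * S + 1 ∧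
      ∑ j, (z j : ℤ) * κ j + N * s z = h0 + N * S + w z := by
    refine ⟨fun z => ((∑ j, z j * κ j - h0) % N).toNat,
      fun z => (S - (∑ j, z j * κ j - h0) / N).toNat, fun z hz => ⟨tw z hz, ?_⟩⟩
    have b1 : |∑ j, (z j : ℤ) * κ j| ≤ N * S := by
      have := (sum_bd (ht hz) (u := fun j => κ j) (c := κ₀) fun j => by exact_mod_cast hκ j).trans
        (show (ρ : ℝ) * d * κ₀ ≤ N * S by exact_mod_cast hS)
      exact_mod_cast this
    beta_reduce
    generalize ∑ j, (z j : ℤ) * κ j = f at b1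
    obtain ⟨b1, b2⟩ := abs_le.1 b1
    have hN' : (h0 : ℤ) < N := by exact_mod_cast hN
    have q1 : (f - h0) / N ≤ S := Int.ediv_le_of_le_mul N0' (by linarith [Int.natCast_nonneg h0])
    have q2 : -(S + 1 : ℤ) ≤ (f - h0) / N := Int.le_ediv_of_mul_le N0' (by linarith)
    refine ⟨by omega, ?_⟩
    rw [Int.toNat_of_nonneg (sub_nonneg.2 q1), Int.toNat_of_nonneg (Int.emod_nonneg _ N0'.ne')]
    linear_combination -Int.mul_ediv_add_emod (f - h0) N
  set F : (Fin ρ →₀ ℕ) → ℕ → ℤ := fun z p => ∑ j, z j * e j p + s z * x p with hF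
  have Lm : 0 ≤ Lam P := sum_nonneg fun p _ => Real.log_natCast_nonneg p
  have key : ∀ α : Fin ρ → ℕ, ∑ j, α j < K → ∀ i : ℕ,
      ∑ z ∈ t with w z ≤ (2 * i + 1) * ν,
        ((coeff z (ω ^ Y * H) * ∏ j, ((z j).choose (α j) : ℤ) : ℤ) : ℚ) *
          (((a : ℚ) / b) ^ s z * pw P (F z)) = 0 := fun α hα i => by
    have T : Trm t P x a b (fun z => coeff z (ω ^ Y * H) * ∏ j, ((z j).choose (α j) : ℤ)) s F
        (fun z => (h0 + N * S + w z) / N) (2 * S + 1) h
        ((L₀ + 2) * (ρ * Real.log d + Y * Real.log m) + ρ * d * Real.log 2) (ρ * d * ε) :=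
      ⟨A.prime, A.ord, A.hb, A.sa, A.sb, size d1 m1 ht (by exact_mod_cast H2) α,
        fun z hz => (hw z hz).2.1, by positivity, fun z hz p hp => by
          have a1 : (∑ j, (z j : ℝ) * κ j + N * s z) = h0 + N * S + w z := by
            exact_mod_cast (hw z hz).2.2
          refine le_of_eq_of_le (congrArg _ ?_) (sum_bd (ht hz) fun j => he j p hp)
          simp only [hF, ← a1, mul_sub, sum_sub_distrib, ← mul_div_assoc, ← mul_assoc, ← sum_div,
            ← sum_mul]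
          push_cast
          field_simp
          ring⟩
    have R := RAD r ρ Y ω H _ _ t s α (fun j => (pw_norm A.prime A.hr (e j)).le) ωr A.apx H1
    have V := SPL.van r _ t P x a b _ s F _ _ (Y - ∑ j, α j) h _ _ ((h0 + N * S) / N)
      (2 * L * ν / N) T A.hr (fun z hz => by
        have : (w z : ℝ) ≤ 2 * L * ν := by exact_mod_cast (W2 _ (hw z hz).1).1.le
        rw [← add_div]
        constructor <;> gcongr ?_ / _ <;> linarith [Nat.cast_nonneg (α := ℝ) (w z)])
      (le_of_eq_of_le (congrArg _ (by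
        simp only [hF, pw_comb A.prime]
        push_cast
        simp only [mul_pow, mul_assoc])) R)
      (by
        have a1 : (Y : ℝ) - K ≤ (Y - ∑ j, α j : ℕ) := by
          rw [Nat.cast_sub (hα.le.trans KY)]
          exact sub_le_sub_left (by exact_mod_cast hα.le) _
        have a2 := mul_le_mul_of_nonneg_right a1 (Real.log_natCast_nonneg r)
        have a3 : 0 ≤ ρ * d * ε * Lam P := by positivity
        push_cast
        linarith)
    have U := SPL.spl _ t P x a b _ s F _ _ h _ _ ((h0 + N * S) / N)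
      ((h0 + N * S + ((2 * i + 1) * ν : ℕ)) / N) (ν / N) T (fun z hz => by
        refine ⟨by gcongr ?_ / _; exact le_add_of_nonneg_right (by positivity), ?_⟩
        rcases (W2 _ (hw z hz).1).2 i with c | c
        · exact .inl (by gcongr)
        · refine .inr ?_
          have : ((2 * i + 2) * ν : ℝ) ≤ w z := by exact_mod_cast c
          rw [← add_div]
          gcongr ?_ / _
          push_cast
          linarith) V (by positivity) (by push_cast; linarith)
    simpa only [div_le_div_iff_of_pos_right N0, add_le_add_iff_left, Nat.cast_le] using U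
  have fin : ∀ i : ℕ, ∀ z ∈ t, w z < 2 * i * ν → coeff z (ω ^ Y * H) = 0 := by
    intro i
    induction i with
    | zero => simp
    | succ i ih =>
      intro z hz c
      by_cases c1 : w z < 2 * i * ν
      · exact ih z hz c1
      have := Z N K d ν κ (h0 + 2 * i * ν)
        (t.filter fun z => w z ≤ (2 * i + 1) * ν ∧ 2 * i * ν ≤ w z)
        (fun z => (coeff z (ω ^ Y * H) : ℤ) * (((a : ℚ) / b) ^ s z * pw P (F z))) hrel N1 d1 dK ν1
        EN EK (fun z hz => ?_) (fun α hα => ?_) z (mem_filter.2 ⟨hz, ?_, not_lt.1 c1⟩)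
      · exact Int.cast_eq_zero.1 ((mul_eq_zero.1 this).resolve_right (mul_ne_zero (pow_ne_zero _
          (div_ne_zero (Int.cast_ne_zero.2 A.ha) (Int.cast_ne_zero.2 A.hb))) (pw_ne A.prime _)))
      · obtain ⟨z1, z2, z3⟩ := mem_filter.1 hz
        refine ⟨fun j => (mem_bx.1 (ht z1) j).le, w z - 2 * i * ν, by
          rw [add_mul] at z2; omega, S - s z, ?_⟩
        push_cast [Nat.cast_sub z3]
        linear_combination (hw z z1).2.2
      · rw [← key α hα i, ← filter_filter, sum_filter]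
        refine sum_congr rfl fun z hz => ?_
        split_ifs with c2
        · push_cast
          ring
        · simp [ih z (mem_filter.1 hz).1 (not_le.1 c2)]
      · exact ((W2 _ (hw z hz).1).2 i).resolve_right (not_le.2 (by rwa [mul_add 2] at c))
  refine H0 (MvPolynomial.ext _ _ fun z => ?_)
  by_contra c
  exact c (fin (w z + 1) z (H1 (mem_support_iff.2 c)) (by nlinarith))

end Pool.Agent.MP_542436_nt.H39
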