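import Pool.Agent.MP_542436_nt.H39.Spec

/-! Row COUNT: the inequality of Bezout type. -/

set_option autoImplicit false

namespace Pool.Agent.MP_542436_nt.H39

open MvPolynomial

namespace COUNT

/-- pairs of short words -/
abbrev Ix (A B : Type) (j s : ℕ) : Type :=
  {l : List A // l.length < j} × {l : List B // l.length < s}

/-- the product attached to a pair of words -/
def ev {O A B : Type} [CommRing O] {j s : ℕ} (α : A → O) (β : B → O) (i : Ix A B j s) : O :=
  (i.1.1.map α).prod * (i.2.1.map β).prod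

/-- the rank of a pair of words -/
def rk {A B : Type} {j s : ℕ} (i : Ix A B j s) : ℕ := i.1.1.length * s + i.2.1.length

theorem span_mul {O : Type} [CommRing O] {S : Set O} {J : Ideal O} {y : O}
    (h : ∀ x ∈ S, x * y ∈ J) : ∀ x ∈ Ideal.span S, x * y ∈ J := by
  intro x hx
  induction hx using Submodule.span_induction with
  | mem x hx => exact h x hx
  | zero => simp
  | add a b _ _ ha hb => rw [add_mul]; exact J.add_mem ha hb
  | smul a b _ hb => rw [smul_eq_mul, mul_assoc]; exact J.mul_mem_left _ hb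

theorem prod_pow {O B : Type} [CommRing O] (β : B → O) (l : List B) :
    (l.map β).prod ∈ Ideal.span (Set.range β) ^ l.length := by
  induction l with
  | nil => simp
  | cons b l ih =>
    rw [List.map_cons, List.prod_cons, List.length_cons, pow_succ']
    exact Ideal.mul_mem_mul (Ideal.subset_span ⟨b, rfl⟩) ih

theorem filt {O A B : Type} [CommRing O] {j s : ℕ} (α : A → O) (β : B → O)
    (hs : Ideal.span (Set.range β) ^ s ≤ Ideal.span (Set.range α)) (𝔟 : Ideal O)
    (hb : ∀ l : List A, l.length = j → (l.map α).prod ∈ 𝔟) (i : Ix A B j s) :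
    ∀ x ∈ Ideal.span (Set.range β),
      x * ev α β i ∈ Ideal.span (ev α β '' {i' : Ix A B j s | rk i < rk i'}) ⊔ 𝔟 := by
  obtain ⟨⟨l, hl⟩, ⟨m, hm⟩⟩ := i
  refine span_mul ?_
  rintro _ ⟨b, rfl⟩
  by_cases h : m.length + 1 < s
  · refine Ideal.mem_sup_left (Ideal.subset_span ⟨(⟨l, hl⟩, ⟨b :: m, h⟩), ?_, ?_⟩)
    · simp [rk]
    · simp only [ev, List.map_cons, List.prod_cons]
      ring
  · have h1 := prod_pow β (b :: m)
    rw [List.length_cons, show m.length + 1 = s by omega] at h1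
    have h2 : β b * ev α β (⟨l, hl⟩, ⟨m, hm⟩) = ((b :: m).map β).prod * (l.map α).prod := by
      simp only [ev, List.map_cons, List.prod_cons]
      ring
    rw [h2]
    refine span_mul ?_ _ (hs h1)
    rintro _ ⟨a, rfl⟩
    by_cases k : l.length + 1 < j
    · refine Ideal.mem_sup_left (Ideal.subset_span
        ⟨(⟨a :: l, k⟩, ⟨[], by simp; omega⟩), ?_, ?_⟩)
      · simp only [rk, Set.mem_ofPred_eq, List.length_cons, List.length_nil, add_mul]
        omega
      · simp [ev]
    · exact Ideal.mem_sup_right (hb (a :: l) (by rw [List.length_cons]; omega))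

variable {ρ : ℕ}

theorem Box.mono {a b a' b' : ℕ} {f : Rg ρ} (h : Box a b f) (ha : a ≤ a') (hb : b ≤ b') :
    Box a' b' f := fun μ hμ => ⟨fun i => ((h μ hμ).1 i).trans ha, (h μ hμ).2.trans hb⟩

theorem Box.mul {a b a' b' : ℕ} {f g : Rg ρ} (h : Box a b f) (h' : Box a' b' g) :
    Box (a + a') (b + b') (f * g) := by
  classical
  intro μ hμ
  obtain ⟨x, hx, y, hy, rfl⟩ := Finset.mem_add.1 (support_mul f g hμ)
  exact ⟨fun i => add_le_add ((h x hx).1 i) ((h' y hy).1 i), add_le_add (h x hx).2 (h' y hy).2⟩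

theorem box_mon {a b : ℕ} {μ : Option (Fin ρ) →₀ ℕ} (h : (∀ i, μ (some i) ≤ a) ∧ μ none ≤ b) :
    Box a b (monomial μ 1 : Rg ρ) := fun ν hν => by
  rw [Finset.mem_singleton.1 (support_monomial_subset hν)]
  exact h

theorem box_list {A : Type} {a b : ℕ} {α : A → Rg ρ} (h : ∀ x, Box a b (α x)) (l : List A) :
    Box (l.length * a) (l.length * b) (l.map α).prod := by
  induction l with
  | nil => exact box_mon (μ := 0) (by simp)
  | cons x l ih =>
    rw [List.map_cons, List.prod_cons, List.length_cons, add_one_mul, add_one_mul, add_comm _ a,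
      add_comm _ b]
    exact Box.mul (h x) ih

theorem box_y (w : ℕ) : Box 0 w (X none ^ w : Rg ρ) := by
  rw [X_pow_eq_monomial]
  exact box_mon (by simp)

theorem box_fin {A : Type} [Finite A] (α : A → Rg ρ) : ∃ c, ∀ x, Box c c (α x) := by
  obtain ⟨c, hc⟩ := (Set.finite_range fun x => (α x).totalDegree).bddAbove
  have : ∀ x, ∀ μ ∈ (α x).support, ∀ v, μ v ≤ c := fun x μ hμ v =>
    ((monomial_le_degreeOf v hμ).trans (degreeOf_le_totalDegree _ v)).trans (hc ⟨x, rfl⟩)
  exact ⟨c, fun x μ hμ => ⟨fun i => this x μ hμ _, this x μ hμ _⟩⟩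

theorem hom_list {A M : Type} [AddCommMonoid M] {w : Option (Fin ρ) → M} {α : A → Rg ρ}
    (h : ∀ x, ∃ c, (α x).IsWeightedHomogeneous w c) (l : List A) :
    ∃ c, (l.map α).prod.IsWeightedHomogeneous w c := by
  induction l with
  | nil => exact ⟨0, isWeightedHomogeneous_one _ _⟩
  | cons x l ih =>
    obtain ⟨c, hc⟩ := h x
    obtain ⟨c', hc'⟩ := ih
    exact ⟨c + c', hc.mul hc'⟩

theorem gens {N : ℕ} [NeZero N] (w : Option (Fin ρ) → ZMod N) (𝔭 : Ideal (Rg ρ)) [𝔭.IsPrime]
    (O : Type) [CommRing O] [Algebra (Rg ρ) O] [IsLocalization.AtPrime O 𝔭]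
    (h : ∀ f ∈ 𝔭, ∃ h ∉ 𝔭, ∀ c, weightedHomogeneousComponent w c (h * f) ∈ 𝔭) :
    ∃ T : Finset (Rg ρ), (∀ x : T, ∃ c, (x : Rg ρ).IsWeightedHomogeneous w c) ∧
      𝔭.map (algebraMap (Rg ρ) O) = Ideal.span (Set.range fun x : T => algebraMap (Rg ρ) O x) := by
  obtain ⟨T, h1, h2⟩ := (Submodule.fg_span_iff_fg_span_finset_subset (R := Rg ρ)
    {f | f ∈ 𝔭 ∧ ∃ c, f.IsWeightedHomogeneous w c}).1 (IsNoetherian.noetherian _)
  refine ⟨T, fun x => (h1 x.2).2, ?_⟩
  refine le_antisymm (Ideal.map_le_iff_le_comap.2 fun f hf => ?_) (Ideal.span_le.2 ?_)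
  · obtain ⟨g, g1, g2⟩ := h f hf
    have k : g * f ∈ Ideal.span (T : Set (Rg ρ)) := by
      rw [← sum_weightedHomogeneousComponent (w := w) (g * f), finsum_eq_sum_of_fintype]
      refine h2.le (Submodule.sum_mem _ fun c _ => Submodule.subset_span ⟨g2 c, c, ?_⟩)
      exact weightedHomogeneousComponent_isWeightedHomogeneous c _
    have k2 := Ideal.mem_map_of_mem (algebraMap (Rg ρ) O) k
    rw [Ideal.map_span, map_mul, Ideal.unit_mul_mem_iff_mem _
      ((IsLocalization.AtPrime.isUnit_to_map_iff _ 𝔭 g).2 g1), Set.image_eq_range] at k2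
    exact k2
  · rintro _ ⟨x, rfl⟩
    exact Ideal.mem_map_of_mem _ (h1 x.2).1

theorem ev_map {R O A B : Type} [CommRing R] [CommRing O] (f : R →+* O) {j s : ℕ} (α : A → R)
    (β : B → R) (i : Ix A B j s) :
    ev (fun x => f (α x)) (fun x => f (β x)) i = f (ev α β i) := by
  simp only [ev, map_mul, map_list_prod, List.map_map, Function.comp_def]

end COUNT

open COUNT in
theorem rowCOUNT : RowGR → RowCNT → RowUP → RowCOUNT := by
  intro HG HC HU ρ N _ κ Φ 𝔭 θ d ν hΦ hp hy hφ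
  classical
  have : 𝔭.IsPrime := hp.1.1
  have : Finite Φ := hΦ
  obtain ⟨O, _, _, _, _, _⟩ : ∃ (O : Type) (_ : CommRing O) (_ : Algebra (Rg ρ) O)
      (_ : IsLocalization.AtPrime O 𝔭) (_ : IsLocalRing O), IsNoetherianRing O :=
    ⟨Localization.AtPrime 𝔭, _, _, inferInstance, inferInstance, inferInstance⟩
  obtain ⟨T, hT, hm⟩ := gens (wt κ) 𝔭 O (HG ρ N _ Φ 𝔭 (fun φ h => (hφ φ h).1) hp)
  set f := algebraMap (Rg ρ) O with hf
  obtain ⟨s0, hs0⟩ := Ideal.exists_radical_pow_le_of_fg ((Ideal.span Φ).map f)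
    (IsNoetherian.noetherian _)
  rw [IsLocalization.AtPrime.radical_map_of_mem_minimalPrimes O 𝔭 _ hp, hm, Ideal.map_span,
    Set.image_eq_range] at hs0
  rw [IsLocalization.AtPrime.map_eq_maximalIdeal] at hm
  have hs := (Ideal.pow_le_pow_right s0.le_succ).trans hs0
  obtain ⟨c1, hc1⟩ := box_fin (Subtype.val : T → Rg ρ)
  refine ⟨(s0 + 1) * c1 + N + 1, ?_⟩
  rintro j u a b H hj ⟨𝔞, n, W, a1, a2, a3, a4, a5⟩ ⟨c, s, s1, s2, s3⟩
  have : Finite {l : List Φ // l.length < j} := List.finite_length_lt Φ j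
  have : Finite {l : List T // l.length < s0 + 1} := List.finite_length_lt T _
  have := Fintype.ofFinite (Ix Φ T j (s0 + 1))
  have sat : ∀ v x, f x ∈ (𝔞 v).map f → x ∈ 𝔞 v := fun v x hx => by
    obtain ⟨g, g1, g2⟩ := (IsLocalization.algebraMap_mem_map_algebraMap_iff 𝔭.primeCompl O _ x).1 hx
    exact a2 v g g1 x g2
  obtain ⟨E', e1, e2⟩ := HC O (Ix Φ T j (s0 + 1)) (ev (fun x => f x.1) fun x => f x.1) rk
    (fun v => (𝔞 v).map f) n W (fun v v' h => Ideal.map_mono (a1 h))
    (fun v hv => ⟨(a4 v hv).1, fun h => (a4 v hv).2 (le_antisymm (a1 v.le_succ) fun x hx =>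
      sat _ x (h.ge (Ideal.mem_map_of_mem f hx)))⟩)
    ((Ideal.eq_top_iff_one _).2 (Ideal.mem_sup_left (Ideal.subset_span
      ⟨(⟨[], hj⟩, ⟨[], s0.succ_pos⟩), by simp [ev]⟩)))
    fun x hx i => filt _ _ hs _ (fun l hl => by
      subst hl
      have := Ideal.mem_map_of_mem f (a5 (fun i => (l[i.1] : Φ)) fun i => (hφ _ (l[i.1]).2).2.2)
      rwa [map_prod, Fin.prod_univ_fun_getElem l fun x => f x.1] at this) i x (hm ▸ hx)
  have hh : ∀ i : Ix Φ T j (s0 + 1), ∃ c, (ev Subtype.val Subtype.val i).IsWeightedHomogeneous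
      (wt κ) c := fun i => by
    obtain ⟨c, hc⟩ := hom_list (fun x : Φ => (hφ x x.2).1) i.1.1
    obtain ⟨c', hc'⟩ := hom_list hT i.2.1
    exact ⟨c + c', hc.mul hc'⟩
  choose ω hω using hh
  let F : Ix Φ T j (s0 + 1) × (Option (Fin ρ) →₀ ℕ) → Rg ρ := fun p =>
    ev Subtype.val Subtype.val p.1 * X none ^ (-(ω p.1 + c)).val * monomial p.2 1
  have li : LinearIndepOn ℂ F (E' ×ˢ s : Finset _) := linearIndepOn_finset_iff.2 fun g hg => by
    let q : Ix Φ T j (s0 + 1) → Rg ρ := fun i => ∑ μ ∈ s, monomial μ (g (i, μ))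
    have q1 : ∀ i, q i ∈ 𝔭 → q i = 0 := fun i h => s3 _ h fun μ hμ => by
      obtain ⟨ν, h1, h2⟩ := Finset.mem_biUnion.1 (support_sum hμ)
      rwa [Finset.mem_singleton.1 (support_monomial_subset h2)]
    have q2 : ∀ i, q i ∉ 𝔭 → IsUnit (f (X none ^ (-(ω i + c)).val * q i)) := fun i h =>
      (IsLocalization.AtPrime.isUnit_to_map_iff O 𝔭 _).2
        (mul_mem (pow_mem (show X none ∈ 𝔭.primeCompl from hy) _) h)
    have q3 := e2 (fun i => f (X none ^ (-(ω i + c)).val * q i))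
      (fun i => (em (q i ∈ 𝔭)).imp (fun h => by rw [q1 i h, mul_zero, map_zero]) (q2 i)) (by
        simp only [ev_map f, ← map_mul, ← map_sum]
        refine Ideal.mem_map_of_mem f ?_
        convert (𝔞 n).zero_mem
        rw [← hg, Finset.sum_product]
        refine Finset.sum_congr rfl fun i _ => ?_
        simp only [q, F, Finset.mul_sum, Finset.sum_mul]
        refine Finset.sum_congr rfl fun μ _ => ?_
        rw [← mul_smul_comm, smul_monomial, smul_eq_mul, mul_one]
        ring)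
    rintro ⟨i, μ⟩ hp
    rw [Finset.mem_product] at hp
    have q4 : q i = 0 := q1 i (by_contra fun h => (q2 i h).ne_zero (q3 i hp.1))
    have q5 := congrArg (coeff μ) q4
    simp only [q, coeff_sum, coeff_monomial, Finset.sum_ite_eq', coeff_zero] at q5
    rwa [if_pos hp.2] at q5
  have up := HU ρ N κ 0 (j * d + a + ((s0 + 1) * c1 + N)) (j * ν + b + ((s0 + 1) * c1 + N + 1))
    (E' ×ˢ s : Finset _) _ li fun p => by
      obtain ⟨⟨i, μ⟩, hp⟩ := p
      obtain ⟨k1, k2⟩ := s2 μ (Finset.mem_product.1 hp).2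
      constructor
      · convert ((hω i).mul ((isWeightedHomogeneous_X ℂ (wt κ) none).pow (-(ω i + c)).val)).mul
          (isWeightedHomogeneous_monomial (wt κ) μ (1 : ℂ) k1) using 1
        simp [wt]
      · refine Box.mono (Box.mul (Box.mul (Box.mul (box_list (fun x : Φ => (hφ x x.2).2.1) i.1.1)
          (box_list hc1 i.2.1)) (box_y (-(ω i + c)).val)) (box_mon k2)) ?_ ?_
        · have := Nat.mul_le_mul_right d i.1.2.le
          have := Nat.mul_le_mul_right c1 i.2.2.le
          omega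
        · have := Nat.mul_le_mul_right ν i.1.2.le
          have := Nat.mul_le_mul_right c1 i.2.2.le
          have := ZMod.val_lt (-(ω i + c))
          omega
  rw [Fintype.card_coe, Finset.card_product] at up
  exact (Nat.mul_le_mul (a3.trans e1) s1).trans up

end Pool.Agent.MP_542436_nt.H39
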