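import Pool.Agent.MP_542436_nt.H39.Spec

/-! Monomials in independent variables. -/

set_option autoImplicit false

namespace Pool.Agent.MP_542436_nt.H39

open MvPolynomial Finset

namespace FAM

variable {ρ : ℕ}

/-- the exponent with given parts -/
noncomputable def ex (z : Fin ρ → ℕ) (w : ℕ) : Option (Fin ρ) →₀ ℕ :=
  Finsupp.equivFunOnFinite.symm fun v => v.elim w z

@[simp] theorem ex_none (z : Fin ρ → ℕ) (w : ℕ) : ex z w none = w := rfl

@[simp] theorem ex_some (z : Fin ρ → ℕ) (w : ℕ) (i : Fin ρ) : ex z w (some i) = z i := rfl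

theorem ex_inj (w : (Fin ρ → ℕ) → ℕ) : Function.Injective fun z => ex z (w z) :=
  fun _ _ h => funext fun i => DFunLike.congr_fun h (some i)

theorem ex_add (z : Fin ρ → ℕ) (w : ℕ) : ex z w = ex z 0 + Finsupp.single none w := by
  ext v
  cases v <;> simp

theorem weight_ex {N : ℕ} (κ : Fin ρ → ZMod N) (z : Fin ρ → ℕ) (w : ℕ) :
    Finsupp.weight (wt κ) (ex z w) = w + ∑ i, z i • κ i := by
  rw [Finsupp.weight_apply, Finsupp.sum_fintype _ _ (by simp), Fintype.sum_option]
  simp [wt]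

/-- the exponents below `a` supported on `J` -/
def bs (J : Finset (Fin ρ)) (a : ℕ) : Finset (Fin ρ → ℕ) :=
  Fintype.piFinset fun i => range (if i ∈ J then a else 1)

theorem card_bs (J : Finset (Fin ρ)) (a : ℕ) : (bs J a).card = a ^ J.card := by
  simp [bs]

theorem mem_bs {J : Finset (Fin ρ)} {a : ℕ} {z : Fin ρ → ℕ} (h : z ∈ bs J a) (i : Fin ρ) :
    z i ≤ a ∧ (z i ≠ 0 → i ∈ J) := by
  have := mem_range.1 (Fintype.mem_piFinset.1 h i)
  split_ifs at this with k
  · exact ⟨this.le, fun _ => k⟩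
  · exact ⟨by omega, by omega⟩

theorem gen {𝔭 : Ideal (Rg ρ)} {J : Finset (Fin ρ)} {a : ℕ} (h : Ind 𝔭 (xs J))
    {T : Finset (Fin ρ → ℕ)} (hT : T ⊆ bs J a) (w : (Fin ρ → ℕ) → ℕ)
    (hw : ∀ z, (X none ^ w z - 1 : Rg ρ) ∈ 𝔭) :
    ∀ f ∈ 𝔭, f.support ⊆ T.image (fun z => ex z (w z)) → f = 0 := by
  intro f hf hs
  have e : f = ∑ z ∈ T, monomial (ex z (w z)) (coeff (ex z (w z)) f) := by
    rw [← sum_image (f := fun μ => monomial μ (coeff μ f)) (ex_inj w).injOn]
    refine f.as_sum.trans (sum_subset hs fun μ _ k => ?_)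
    rw [notMem_support_iff.1 k, map_zero]
  set g : Rg ρ := ∑ z ∈ T, monomial (ex z 0) (coeff (ex z (w z)) f) with hg
  have g1 : f - g ∈ 𝔭 := by
    rw [hg]
    nth_rewrite 1 [e]
    rw [← sum_sub_distrib]
    refine 𝔭.sum_mem fun z _ => ?_
    generalize coeff (ex z (w z)) f = c
    rw [ex_add z (w z), monomial_add_single, ← mul_sub_one]
    exact 𝔭.mul_mem_left _ (hw z)
  have g2 : g = 0 := by
    refine h g (by simpa using 𝔭.sub_mem hf g1) fun v hv => ?_
    obtain ⟨z, hz, k⟩ := mem_biUnion.1 (vars_sum_subset _ _ hv)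
    obtain ⟨d, hd, k⟩ := (mem_vars_iff_mem_support _).1 k
    rw [mem_singleton.1 (support_monomial_subset hd), Finsupp.mem_support_iff] at k
    cases v with
    | none => exact absurd rfl k
    | some i => exact mem_image_of_mem _ ((mem_bs (hT hz) i).2 k)
  rw [e]
  refine sum_eq_zero fun z hz => ?_
  have := congrArg (coeff (ex z 0)) g2
  rw [hg, coeff_sum, sum_eq_single_of_mem z hz fun z' _ k => by
    rw [coeff_monomial, if_neg fun q => k (ex_inj (fun _ => 0) q)], coeff_monomial, if_pos rfl] at this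
  rw [this, coeff_zero, map_zero]

end FAM

open FAM in
theorem rowFAM : RowFAM := by
  intro ρ N _ κ 𝔭 J a h
  refine ⟨fun hy => ⟨0, (bs J a).image fun z => ex z (-∑ i, z i • κ i).val, ?_, fun μ hμ => ?_,
    gen h Subset.rfl _ fun z => ?_⟩, ?_⟩
  · rw [card_image_of_injective _ (ex_inj _), card_bs]
  · obtain ⟨z, hz, rfl⟩ := mem_image.1 hμ
    exact ⟨by rw [weight_ex, ZMod.natCast_zmod_val, neg_add_cancel], fun i => (mem_bs hz i).1,
      (ZMod.val_lt _).le⟩
  · exact Ideal.mem_of_dvd _ (sub_one_dvd_pow_sub_one _ _) hy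
  · obtain ⟨c, -, hc⟩ := exists_max_image univ
      (fun c : ZMod N => ((bs J a).filter fun z => ∑ i, z i • κ i = c).card) univ_nonempty
    refine ⟨_, ?_, c, ((bs J a).filter fun z => ∑ i, z i • κ i = c).image fun z => ex z 0,
      (card_image_of_injective _ (ex_inj _)).ge, fun μ hμ => ?_,
      gen h (filter_subset _ _) (fun _ => 0) fun z => by simp⟩
    · rw [← card_bs, card_eq_sum_card_fiberwise (f := fun z => ∑ i, z i • κ i) (t := univ)
        fun _ _ => mem_univ _]
      refine (sum_le_card_nsmul _ _ _ hc).trans ?_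
      rw [card_univ, ZMod.card, smul_eq_mul]
    · obtain ⟨z, hz, rfl⟩ := mem_image.1 hμ
      rw [mem_filter] at hz
      exact ⟨by rw [weight_ex, hz.2, Nat.cast_zero, zero_add], fun i => (mem_bs hz.1 i).1, le_rfl⟩

end Pool.Agent.MP_542436_nt.H39
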