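import Pool.Agent.MP_542436_nt.H39.Spec

/-! Independent monomials when the last variable is free. -/

set_option autoImplicit false

namespace Pool.Agent.MP_542436_nt.H39

open MvPolynomial

namespace FRE

variable {ρ N : ℕ}

/-- the exponent with given `x`-part and of weight zero -/
noncomputable def ex (κ : Fin ρ → ZMod N) (p : (Fin ρ → ℕ) × ℕ) : Option (Fin ρ) →₀ ℕ :=
  Finsupp.equivFunOnFinite.symm fun v => v.elim ((-∑ j, p.1 j • κ j).val + N * p.2) p.1

theorem ex_some (κ : Fin ρ → ZMod N) (p : (Fin ρ → ℕ) × ℕ) (j : Fin ρ) :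
    ex κ p (some j) = p.1 j := rfl

theorem ex_none (κ : Fin ρ → ZMod N) (p : (Fin ρ → ℕ) × ℕ) :
    ex κ p none = (-∑ j, p.1 j • κ j).val + N * p.2 := rfl

theorem ex_inj [NeZero N] (κ : Fin ρ → ZMod N) : Function.Injective (ex κ) := by
  rintro ⟨z, q⟩ ⟨z', q'⟩ h
  obtain rfl : z = z' := funext fun j => DFunLike.congr_fun h (some j)
  have h1 := DFunLike.congr_fun h none
  rw [ex_none, ex_none] at h1
  exact Prod.ext rfl (Nat.eq_of_mul_eq_mul_left (NeZero.pos N) (Nat.add_left_cancel h1))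

theorem ex_wt [NeZero N] (κ : Fin ρ → ZMod N) (p : (Fin ρ → ℕ) × ℕ) :
    Finsupp.weight (wt κ) (ex κ p) = 0 := by
  rw [Finsupp.weight_eq_sum, Fintype.sum_option, ex_none]
  change _ • (1 : ZMod N) + ∑ j, p.1 j • κ j = 0
  rw [nsmul_one, Nat.cast_add, Nat.cast_mul, ZMod.natCast_self, zero_mul, add_zero,
    ZMod.natCast_zmod_val, neg_add_cancel]

/-- the bounds of the exponents -/
def bd (V : Finset (Fin ρ)) (i₀ : Fin ρ) (g a : ℕ) (j : Fin ρ) : ℕ :=
  if j = i₀ then g else if j ∈ V then a else 1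

theorem prod_bd {V : Finset (Fin ρ)} {i₀ : Fin ρ} (h : i₀ ∈ V) (g a : ℕ) :
    ∏ j, bd V i₀ g a j = g * a ^ (V.card - 1) := by
  rw [← Finset.mul_prod_erase _ _ (Finset.mem_univ i₀), bd, if_pos rfl,
    ← Finset.card_erase_of_mem h, ← Finset.prod_const]
  congr 1
  refine (Finset.prod_subset_one_on_sdiff (Finset.erase_subset_erase _ (Finset.subset_univ V))
    (fun j hj => ?_) fun j hj => ?_).symm
  · have h1 := Finset.mem_sdiff.1 hj
    have h2 := Finset.ne_of_mem_erase h1.1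
    rw [bd, if_neg h2, if_neg fun e => h1.2 (Finset.mem_erase.2 ⟨h2, e⟩)]
  · rw [bd, if_neg (Finset.ne_of_mem_erase hj), if_pos (Finset.mem_of_mem_erase hj)]

/-- the coefficient of a power of `y` -/
noncomputable def cf (f : Rg ρ) (w : ℕ) : Rg ρ :=
  ∑ μ ∈ f.support with μ none = w, monomial (μ.erase none) (coeff μ f)

theorem sum_cf (f : Rg ρ) : ∑ w ∈ f.support.image (· none), cf f w * X none ^ w = f := by
  refine Eq.trans ?_ (support_sum_monomial_coeff f)
  refine Eq.trans (Finset.sum_congr rfl fun w _ => ?_) (Finset.sum_fiberwise_of_maps_to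
    (s := f.support) (fun μ hμ => Finset.mem_image_of_mem (· none) hμ) _)
  rw [cf, Finset.sum_mul]
  refine Finset.sum_congr rfl fun μ hμ => ?_
  rw [X_pow_eq_monomial, monomial_mul, mul_one, ← (Finset.mem_filter.1 hμ).2,
    Finsupp.erase_add_single]

theorem supp_cf {f : Rg ρ} {w : ℕ} {ν : Option (Fin ρ) →₀ ℕ} (h : ν ∈ (cf f w).support) :
    ∃ μ ∈ f.support, μ none = w ∧ ν = μ.erase none := by
  obtain ⟨μ, h1, h2⟩ := Finset.mem_biUnion.1 (support_sum h)
  exact ⟨μ, (Finset.mem_filter.1 h1).1, (Finset.mem_filter.1 h1).2,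
    Finset.mem_singleton.1 (support_monomial_subset h2)⟩

end FRE

open FRE in
theorem rowFRE : RowGCD → RowTRA → RowFRE := by
  intro hG hT ρ N _ κ 𝔭 J i g a b hp h1 hN hI hi hn hga
  have hJ : Ind 𝔭 (xs J) := fun f hf hv => hI f hf (hv.trans (Finset.subset_insert _ _))
  obtain ⟨i₀, hi₀, hgcd⟩ := hG ρ N κ 𝔭 J i g hp h1 hN hJ hi
  have hs : ∀ μ ∈ (Fintype.piFinset (fun j => Finset.range (bd (insert i J) i₀ g a j)) ×ˢ
      Finset.range b).image (ex κ), Finsupp.weight (wt κ) μ = 0 ∧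
        (∀ j, μ (some j) < bd (insert i J) i₀ g a j) ∧ μ none ≤ N * b := by
    intro μ hμ
    obtain ⟨p, hp', rfl⟩ := Finset.mem_image.1 hμ
    obtain ⟨h2, h3⟩ := Finset.mem_product.1 hp'
    refine ⟨ex_wt κ p, fun j => Finset.mem_range.1 (Fintype.mem_piFinset.1 h2 j), ?_⟩
    rw [ex_none]
    refine le_trans ?_ (Nat.mul_le_mul_left N (Finset.mem_range.1 h3))
    rw [Nat.mul_succ, add_comm]
    exact Nat.add_le_add_left (ZMod.val_lt _).le _
  refine ⟨0, _, ?_, fun μ hμ => ⟨(hs μ hμ).1, fun j => ?_, (hs μ hμ).2.2⟩, fun f hf hsub => ?_⟩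
  · rw [Finset.card_image_of_injective _ (ex_inj κ), Finset.card_product, Fintype.card_piFinset,
      Finset.card_range]
    simp only [Finset.card_range]
    rw [prod_bd hi₀, Finset.card_insert_of_notMem hi, Nat.add_sub_cancel]
  · have h := (hs μ hμ).2.1 j
    unfold bd at h
    split_ifs at h <;> omega
  · have hv : ∀ w, (cf f w).vars ⊆ xs (insert i J) := by
      intro w v hv
      obtain ⟨ν, h2, h3⟩ := (mem_vars_iff_mem_support v).1 hv
      obtain ⟨μ, h4, -, rfl⟩ := supp_cf h2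
      rw [Finsupp.support_erase, Finset.mem_erase, Finsupp.mem_support_iff] at h3
      obtain ⟨j, rfl⟩ := Option.ne_none_iff_exists'.1 h3.1
      refine Finset.mem_image_of_mem some (by_contra fun hj => h3.2 ?_)
      have h := (hs μ (hsub h4)).2.1 j
      rw [bd, if_neg fun e : j = i₀ => hj (e ▸ hi₀), if_neg hj] at h
      exact Nat.lt_one_iff.1 h
    have hc := hT ρ 𝔭 J i hp hI hn (f.support.image (· none)) (cf f) (fun w _ => hv w)
      (by rw [sum_cf]; exact hf)
    rw [← sum_cf f]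
    refine Finset.sum_eq_zero fun w hw => ?_
    obtain ⟨μ₀, hμ₀, -⟩ := Finset.mem_image.1 hw
    have hg : ∀ μ ∈ f.support, μ (some i₀) < g := fun μ hμ => by
      have h := (hs μ (hsub hμ)).2.1 i₀
      rwa [bd, if_pos rfl] at h
    refine mul_eq_zero_of_left (hgcd _ (hc w hw) (-(w : ZMod N)) (fun ν hν => ?_) (hv w) ?_) _
    · obtain ⟨μ, h4, h5, rfl⟩ := supp_cf (mem_support_iff.2 hν)
      have h := (hs μ (hsub h4)).1
      rw [← Finsupp.erase_add_single none μ, map_add, Finsupp.weight_single, h5] at h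
      change _ + w • (1 : ZMod N) = 0 at h
      rw [nsmul_one] at h
      exact eq_neg_of_add_eq_zero_left h
    · refine (degreeOf_lt_iff (Nat.zero_lt_of_lt (hg μ₀ hμ₀))).2 fun ν hν => ?_
      obtain ⟨μ, h4, -, rfl⟩ := supp_cf hν
      rw [Finsupp.erase_ne (Option.some_ne_none i₀)]
      exact hg μ h4

end Pool.Agent.MP_542436_nt.H39
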