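import Pool.Agent.MP_542436_nt.H39.Spec

/-! No homogeneous equation of small degree. -/

set_option autoImplicit false

namespace Pool.Agent.MP_542436_nt.H39

namespace GCD

section Prin

open Polynomial
open scoped nonZeroDivisors

theorem prin {A : Type} [CommRing A] [IsDomain A] [UniqueFactorizationMonoid A] (q : Ideal A[X])
    (hq : q.IsPrime) (h0 : ∀ a, C a ∈ q → a = 0) (hne : q ≠ ⊥) : ∃ F ∈ q, ∀ G ∈ q, F ∣ G := by
  obtain ⟨F, hF, hp⟩ := hq.exists_mem_prime_of_ne_bot hne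
  refine ⟨F, hF, fun G hG => ?_⟩
  have hd : F.natDegree ≠ 0 := fun h => hp.ne_zero (by
    rw [eq_C_of_natDegree_eq_zero h] at hF ⊢
    rw [h0 _ hF, map_zero])
  have hpr := hp.irreducible.isPrimitive hd
  have hi := (hpr.irreducible_iff_irreducible_map_fraction_map (K := FractionRing A)).1
    hp.irreducible
  refine hpr.dvd_of_fraction_map_dvd_fraction_map (K := FractionRing A) ?_
  by_contra hn
  obtain ⟨a, b, e⟩ := hi.coprime_iff_not_dvd.2 hn
  obtain ⟨c, hc, ea⟩ := IsLocalization.integerNormalization_spec A⁰ a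
  obtain ⟨d, hd, eb⟩ := IsLocalization.integerNormalization_spec A⁰ b
  have : C d * IsLocalization.integerNormalization A⁰ a * F +
      C c * IsLocalization.integerNormalization A⁰ b * G = C (c * d) := by
    apply map_injective (algebraMap A (FractionRing A)) (IsFractionRing.injective _ _)
    simp only [Polynomial.map_add, Polynomial.map_mul, map_C, ea, eb, Algebra.smul_def,
      Polynomial.algebraMap_apply, map_mul]
    linear_combination (C (algebraMap A (FractionRing A) c) * C (algebraMap A (FractionRing A) d)) * e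
  exact nonZeroDivisors.ne_zero (mul_mem hc hd)
    (h0 _ (this ▸ add_mem (q.mul_mem_left _ hF) (q.mul_mem_left _ hG)))

end Prin

open MvPolynomial

theorem com {ρ : ℕ} {𝔭 : Ideal (Rg ρ)} {J : Finset (Fin ρ)} {i : Fin ρ} (hp : 𝔭.IsPrime)
    (hJ : Ind 𝔭 (xs J)) (hi : i ∉ J) {G₀ : Rg ρ} (h1 : G₀ ∈ 𝔭) (h2 : G₀.vars ⊆ xs (insert i J))
    (h3 : G₀ ≠ 0) : ∃ F ∈ 𝔭, ∀ G ∈ 𝔭, G.vars ⊆ xs (insert i J) → F ∣ G := by
  let σ : Option J → Option (Fin ρ) := fun o => o.elim (some i) fun j => some j.1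
  have hσ : Function.Injective σ := by
    rintro (_ | j) (_ | j') e
    · rfl
    · exact absurd (Option.some.inj e ▸ j'.2) hi
    · exact absurd ((Option.some.inj e).symm ▸ j.2) hi
    · exact congrArg some (Subtype.ext (Option.some.inj e))
  let φ : Polynomial (MvPolynomial J ℂ) →+* Rg ρ :=
    (rename σ).toRingHom.comp (optionEquivLeft ℂ J).symm.toRingEquiv.toRingHom
  have hφ : Function.Injective φ :=
    (rename_injective σ hσ).comp (optionEquivLeft ℂ J).symm.injective
  have hs : ∀ G : Rg ρ, G.vars ⊆ xs (insert i J) → ∃ P, φ P = G := fun G hG => by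
    obtain ⟨P, rfl⟩ := exists_rename_eq_of_vars_subset_range G σ hσ fun v hv => by
      obtain ⟨j, hj, rfl⟩ := Finset.mem_image.1 (hG hv)
      rcases Finset.mem_insert.1 hj with rfl | hj
      exacts [⟨none, rfl⟩, ⟨some ⟨j, hj⟩, rfl⟩]
    exact ⟨optionEquivLeft ℂ J P, congrArg (rename σ) ((optionEquivLeft ℂ J).symm_apply_apply P)⟩
  have hC : φ.comp Polynomial.C = (rename fun j : J => some j.1).toRingHom :=
    ringHom_ext (fun r => by simp [φ]) fun j => by simp [φ, σ]
  obtain ⟨P₀, rfl⟩ := hs G₀ h2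
  obtain ⟨F, hF, hd⟩ := prin (𝔭.comap φ) (Ideal.comap_isPrime φ 𝔭) (fun a ha => by
    have e : φ (Polynomial.C a) = rename (fun j : J => some j.1) a := RingHom.congr_fun hC a
    have : φ (Polynomial.C a) = 0 := hJ _ ha (by
      rw [e]
      refine (vars_rename _ _).trans fun v hv => ?_
      obtain ⟨j, -, rfl⟩ := Finset.mem_image.1 hv
      exact Finset.mem_image_of_mem _ j.2)
    exact Polynomial.C_eq_zero.1 (hφ (this.trans (map_zero φ).symm))) fun h => by
      have : P₀ ∈ 𝔭.comap φ := h1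
      rw [h, Ideal.mem_bot] at this
      exact h3 (by rw [this, map_zero])
  refine ⟨φ F, hF, fun G hG hv => ?_⟩
  obtain ⟨P, rfl⟩ := hs G hv
  exact map_dvd φ (hd P hG)

variable {σ M : Type} [AddCommGroup M] (χ : AddChar M ℂ) (w : σ → M)

/-- The twist by a character. -/
noncomputable def tw : MvPolynomial σ ℂ →ₐ[ℂ] MvPolynomial σ ℂ := aeval fun v => C (χ (w v)) * X v

theorem tw_mon (μ : σ →₀ ℕ) :
    tw χ w (monomial μ 1) = C (χ (Finsupp.weight w μ)) * monomial μ 1 := by
  induction μ using Finsupp.induction_linear with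
  | zero => simp
  | add a b ha hb =>
    rw [← one_mul (1 : ℂ), ← monomial_mul, map_mul, ha, hb, map_add, AddChar.map_add_eq_mul,
      map_mul]
    ring
  | single v n =>
    rw [← X_pow_eq_monomial, map_pow, Finsupp.weight_single, AddChar.map_nsmul_eq_pow, map_pow,
      ← mul_pow, tw, aeval_X]

theorem tw_coeff (f : MvPolynomial σ ℂ) (μ : σ →₀ ℕ) :
    coeff μ (tw χ w f) = χ (Finsupp.weight w μ) * coeff μ f := by
  classical
  induction f using MvPolynomial.induction_on' with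
  | monomial ν c =>
    rw [← mul_one c, ← C_mul_monomial, map_mul, tw_mon, algHom_C, algebraMap_eq, coeff_C_mul,
      coeff_C_mul, coeff_C_mul, coeff_monomial]
    split_ifs with h
    · rw [h]; ring
    · simp
  | add p q hp hq => rw [map_add, coeff_add, coeff_add, hp, hq, mul_add]

theorem tw_hom {G : MvPolynomial σ ℂ} {c : M} (h : G.IsWeightedHomogeneous w c) :
    tw χ w G = C (χ c) * G := by
  ext μ
  rw [tw_coeff, coeff_C_mul]
  by_cases h0 : coeff μ G = 0
  · rw [h0, mul_zero, mul_zero]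
  · rw [h h0]

theorem same {D : MvPolynomial σ ℂ} (h : tw χ w D ∣ D) {μ μ' : σ →₀ ℕ} (h1 : μ ∈ D.support)
    (h2 : μ' ∈ D.support) : χ (Finsupp.weight w μ) = χ (Finsupp.weight w μ') := by
  obtain ⟨u, hu⟩ := h
  have h0 : D ≠ 0 := by rintro rfl; simp at h1
  have hs : (tw χ w D).support = D.support := by
    ext ν
    simp [tw_coeff, (χ.val_isUnit _).ne_zero]
  have hd := totalDegree_mul_of_isDomain (left_ne_zero_of_mul (hu ▸ h0))
    (right_ne_zero_of_mul (hu ▸ h0))
  rw [← hu, totalDegree, totalDegree, hs, left_eq_add, totalDegree_eq_zero_iff_eq_C] at hd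
  have key : ∀ ν ∈ D.support, coeff 0 u * χ (Finsupp.weight w ν) = 1 := fun ν hν => by
    have := congrArg (coeff ν) hu
    rw [hd, mul_comm, coeff_C_mul, tw_coeff, ← mul_assoc] at this
    exact (mul_eq_right₀ (mem_support_iff.1 hν)).1 this.symm
  exact mul_left_cancel₀ (left_ne_zero_of_mul_eq_one (key μ h1))
    ((key μ h1).trans (key μ' h2).symm)

theorem deg_le {D G : MvPolynomial σ ℂ} (h : D ∣ G) (h0 : G ≠ 0) {μ : σ →₀ ℕ}
    (hμ : μ ∈ D.support) (v : σ) : μ v ≤ G.degreeOf v := by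
  obtain ⟨u, rfl⟩ := h
  rw [degreeOf_mul_eq (left_ne_zero_of_mul h0) (right_ne_zero_of_mul h0)]
  exact (monomial_le_degreeOf v hμ).trans (Nat.le_add_right _ _)

end GCD

open MvPolynomial GCD in
theorem rowGCD : RowGCD := by
  intro ρ N _ κ 𝔭 J i g hp h1 hκ hJ hi
  by_contra hn
  push Not at hn
  choose! G G1 c G2 G3 G4 G5 using hn
  have mi := Finset.mem_insert_self i J
  obtain ⟨F, hF, hd⟩ := com hp hJ hi (G1 i mi) (G3 i mi) (G5 i mi)
  obtain ⟨D, hD⟩ : ∃ D : Rg ρ, ∀ d, d ∣ D ↔ ∀ j ∈ insert i J, d ∣ G j := by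
    let : NormalizedGCDMonoid (Rg ρ) := Nonempty.some inferInstance
    exact ⟨(insert i J).gcd G, fun d => Finset.dvd_gcd_iff⟩
  have D1 := (hD D).1 dvd_rfl
  have D2 : D ∈ 𝔭 := 𝔭.mem_of_dvd ((hD F).2 fun j hj => hd _ (G1 j hj) (G3 j hj)) hF
  have D3 : tw ZMod.stdAddChar (wt κ) D ∣ D := (hD _).2 fun j hj => by
    have := map_dvd (tw ZMod.stdAddChar (wt κ)) (D1 j hj)
    have hu : IsUnit (C (ZMod.stdAddChar (c j)) : Rg ρ) :=
      (AddChar.val_isUnit ZMod.stdAddChar (c j)).map C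
    rwa [tw_hom _ _ (G2 j hj), hu.dvd_mul_left] at this
  have D4 : ∀ μ ∈ D.support, ∀ v, v ∉ xs (insert i J) → μ v = 0 := fun μ hμ v hv => by
    have := deg_le (D1 i mi) (G5 i mi) hμ v
    rwa [not_not.1 (mt mem_vars_iff_degreeOf_ne_zero.2 fun h => hv (G3 i mi h)),
      Nat.le_zero] at this
  have D5 : ∀ μ ∈ D.support, μ none = 0 := fun μ hμ => D4 μ hμ none (by simp [xs])
  have D6 : ∀ μ ∈ D.support, ∀ j, μ (some j) < g := fun μ hμ j => by
    by_cases hj : j ∈ insert i J
    · exact (deg_le (D1 j hj) (G5 j hj) hμ _).trans_lt (G4 j hj)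
    · rw [D4 μ hμ _ (by simpa [xs] using hj)]
      exact Nat.zero_lt_of_lt (G4 i mi)
  have D7 : ∀ μ ∈ D.support, Finsupp.weight (wt κ) μ = ∑ j, (μ (some j) : ZMod N) * κ j :=
    fun μ hμ => by
      rw [Finsupp.weight_apply, Finsupp.sum_fintype _ _ (by simp), Fintype.sum_option,
        D5 μ hμ, zero_smul, zero_add]
      simp only [wt, Option.elim_some, nsmul_eq_mul]
  obtain ⟨μ, hμ⟩ : D.support.Nonempty :=
    support_nonempty.2 (ne_zero_of_dvd_ne_zero (G5 i mi) (D1 i mi))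
  have hs : D.support = {μ} := Finset.eq_singleton_iff_unique_mem.2 ⟨hμ, fun ν hν => by
    have e := ZMod.injective_stdAddChar (same _ _ D3 hν hμ)
    rw [D7 ν hν, D7 μ hμ] at e
    have := hκ _ _ (D6 ν hν) (D6 μ hμ) e
    ext (_ | j)
    · rw [D5 ν hν, D5 μ hμ]
    · exact congrFun this j⟩
  have := h1 D D2
  rw [eval_eq, hs] at this
  exact mem_support_iff.1 hμ (by simpa using this)

end Pool.Agent.MP_542436_nt.H39
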