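import Pool.Agent.MP_542436_nt.H39.Spec

/-! The choice of the parameters. -/

set_option autoImplicit false

namespace Pool.Agent.MP_542436_nt.H39.GM

open MvPolynomial

theorem bern (b G ρ : ℕ) :
    (b + G) * (b + G) ^ ρ ≤ (b + G) * b ^ ρ + ρ * G * (b + G) ^ ρ := by
  induction ρ with
  | zero => simp
  | succ ρ ih =>
    have h1 : b ^ ρ ≤ (b + G) ^ ρ := Nat.pow_le_pow_left (by omega) ρ
    calc (b + G) * (b + G) ^ (ρ + 1) = (b + G) * ((b + G) * (b + G) ^ ρ) := by ring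
      _ ≤ (b + G) * ((b + G) * b ^ ρ + ρ * G * (b + G) ^ ρ) := Nat.mul_le_mul_left _ ih
      _ = (b + G) * b ^ (ρ + 1) + ρ * G * (b + G) ^ (ρ + 1) + G * (b + G) * b ^ ρ := by ring
      _ ≤ (b + G) * b ^ (ρ + 1) + ρ * G * (b + G) ^ (ρ + 1) + G * (b + G) * (b + G) ^ ρ :=
          Nat.add_le_add_left (Nat.mul_le_mul_left _ h1) _
      _ = (b + G) * b ^ (ρ + 1) + (ρ + 1) * G * (b + G) ^ (ρ + 1) := by ring

theorem count {u ρ T d E n : ℕ} (hT : T < d) (h : 32 * u * (ρ * T) ≤ d) :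
    (32 * u + 1) * d ^ ρ * (16 * u * E * n) ≤
      32 * u * ((d - T) ^ ρ * (16 * u * E * n) + E * n * d ^ ρ) := by
  obtain ⟨b, rfl⟩ : ∃ b, d = b + T := ⟨d - T, by omega⟩
  rw [Nat.add_sub_cancel]
  have h1 := bern b T ρ
  have h2 : 32 * u * (b + T) ^ ρ ≤ 32 * u * b ^ ρ + (b + T) ^ ρ := by
    refine Nat.le_of_mul_le_mul_left ?_ (show 0 < b + T by omega)
    calc (b + T) * (32 * u * (b + T) ^ ρ) = 32 * u * ((b + T) * (b + T) ^ ρ) := by ring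
      _ ≤ 32 * u * ((b + T) * b ^ ρ + ρ * T * (b + T) ^ ρ) := Nat.mul_le_mul_left _ h1
      _ = 32 * u * ((b + T) * b ^ ρ) + 32 * u * (ρ * T) * (b + T) ^ ρ := by ring
      _ ≤ 32 * u * ((b + T) * b ^ ρ) + (b + T) * (b + T) ^ ρ :=
          Nat.add_le_add_left (Nat.mul_le_mul_right _ h) _
      _ = (b + T) * (32 * u * b ^ ρ + (b + T) ^ ρ) := by ring
  have h3 := Nat.mul_le_mul_right (16 * u * E * n) h2
  generalize (b + T) ^ ρ = A at h3 ⊢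
  generalize b ^ ρ = B at h3 ⊢
  nlinarith

theorem norel {ρ g κ₀ N : ℕ} {κ v : Fin ρ → ℤ} (hκ : ∀ j, |κ j| ≤ κ₀) (hv : ∀ j, |v j| ≤ g)
    (hN : ρ * g * κ₀ < N) (hd : (N : ℤ) ∣ ∑ j, v j * κ j) : ∑ j, v j * κ j = 0 := by
  refine Int.eq_zero_of_abs_lt_dvd hd ?_
  calc |∑ j, v j * κ j| ≤ ∑ j, |v j * κ j| := Finset.abs_sum_le_sum_abs _ _
    _ ≤ ∑ _j : Fin ρ, (g : ℤ) * κ₀ := Finset.sum_le_sum fun j _ => by
        rw [abs_mul]
        exact mul_le_mul (hv j) (hκ j) (abs_nonneg _) (by positivity)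
    _ = ((ρ * g * κ₀ : ℕ) : ℤ) := by simp [mul_assoc]
    _ < N := by exact_mod_cast hN

theorem near {Q G₀ N : ℕ} {e κ x : ℤ} (hQ : 1 ≤ Q) (hN : 1 ≤ N)
    (h : (Q : ℤ) * |N * e - κ * x| ≤ G₀ * N) : |(e : ℝ) - κ * x / N| ≤ (G₀ : ℝ) / Q := by
  have hQ' : (0 : ℝ) < Q := by exact_mod_cast hQ
  have hN' : (0 : ℝ) < N := by exact_mod_cast hN
  have h1 : (Q : ℝ) * |(N : ℝ) * e - κ * x| ≤ G₀ * N := by exact_mod_cast h
  have h2 : (e : ℝ) - κ * x / N = (N * e - κ * x) / N := by field_simp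
  rw [h2, abs_div, abs_of_pos hN', div_le_div_iff₀ hN' hQ']
  linarith

/-- the error terms -/
theorem errs {u k ρ δ₁ δ G₀ Q B Y h Λ ℓ W S lg lm : ℝ} (hu : 1 ≤ u) (hk : 1 ≤ k) (hρ0 : 0 ≤ ρ)
    (hρ : ρ ≤ 2 * k) (hδ0 : 0 ≤ δ₁) (hδ : δ₁ ≤ δ) (hG : 0 ≤ G₀) (hB : 0 < B) (hQ0 : 0 < Q)
    (hQ : 64 * B * k * δ * G₀ * u ≤ Q) (hY : 8 * B * u ≤ Y) (hΛ : Λ ≤ u * ℓ)
    (hℓ1 : 1 ≤ ℓ) (hℓ : 4 * B * ((32 * u + 2) * (2 * k * δ + 2 * k) + 2 * k * δ) ≤ ℓ)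
    (hlg : lg ≤ δ₁ * Y) (hlm : lm ≤ 2 * k) (hS : (2 * S + 1) * h ≤ W) (hW : 4 * B * W ≤ Y) :
    (32 * u + 2) * (ρ * lg + Y * lm) + ρ * (δ₁ * Y) * Real.log 2 + (2 * S + 1) * h +
      (4 * ρ * (δ₁ * Y) * (G₀ / Q) + 1) * Λ ≤ 3 / 4 * (Y * ℓ / B) := by
  have hY0 : 0 ≤ Y := le_trans (by positivity) hY
  have hρδ : ρ * δ₁ ≤ 2 * k * δ := mul_le_mul hρ hδ hδ0 (by linarith)
  have hρδY : ρ * (δ₁ * Y) ≤ 2 * k * δ * Y := by
    rw [← mul_assoc]; exact mul_le_mul_of_nonneg_right hρδ hY0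
  have hl2 : Real.log 2 ≤ 1 := by
    have := Real.log_le_sub_one_of_pos (show (0 : ℝ) < 2 by norm_num); linarith
  have h1 : ρ * lg + Y * lm ≤ (2 * k * δ + 2 * k) * Y := by
    have a1 := mul_le_mul_of_nonneg_left hlg hρ0
    have a2 := mul_le_mul_of_nonneg_left hlm hY0
    linarith
  have h2 : ρ * (δ₁ * Y) * Real.log 2 ≤ 2 * k * δ * Y := by
    have a1 := mul_le_mul_of_nonneg_left hl2 (show 0 ≤ ρ * (δ₁ * Y) by positivity)
    linarith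
  have h3 : (32 * u + 2) * (ρ * lg + Y * lm) + ρ * (δ₁ * Y) * Real.log 2 ≤ Y * ℓ / B / 4 := by
    have a1 := mul_le_mul_of_nonneg_left h1 (show 0 ≤ 32 * u + 2 by linarith)
    have a2 := mul_le_mul_of_nonneg_right hℓ hY0
    rw [div_div, le_div_iff₀ (by positivity)]
    have a3 := mul_le_mul_of_nonneg_right (add_le_add a1 h2) (show 0 ≤ B * 4 by positivity)
    linarith
  have h4 : (2 * S + 1) * h ≤ Y * ℓ / B / 4 := by
    rw [div_div, le_div_iff₀ (by positivity)]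
    have a1 := mul_le_mul_of_nonneg_right hS (show 0 ≤ B * 4 by positivity)
    have a2 := mul_le_mul_of_nonneg_left hℓ1 hY0
    linarith
  have h5 : 4 * ρ * (δ₁ * Y) * (G₀ / Q) + 1 ≤ Y / (4 * B * u) := by
    have a1 : 4 * ρ * (δ₁ * Y) * (G₀ / Q) ≤ Y / (8 * B * u) := by
      rw [← mul_div_assoc, div_le_div_iff₀ hQ0 (by positivity)]
      have b1 := mul_le_mul_of_nonneg_right hρδY (show 0 ≤ 4 * G₀ * (8 * B * u) by positivity)
      have b2 := mul_le_mul_of_nonneg_left hQ hY0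
      linarith
    have a2 : 1 ≤ Y / (8 * B * u) := by
      rw [le_div_iff₀ (by positivity)]; linarith
    have a3 : Y / (4 * B * u) = Y / (8 * B * u) + Y / (8 * B * u) := by
      field_simp; ring
    linarith
  have h6 : (4 * ρ * (δ₁ * Y) * (G₀ / Q) + 1) * Λ ≤ Y * ℓ / B / 4 := by
    calc (4 * ρ * (δ₁ * Y) * (G₀ / Q) + 1) * Λ ≤ (4 * ρ * (δ₁ * Y) * (G₀ / Q) + 1) * (u * ℓ) :=
          mul_le_mul_of_nonneg_left hΛ (by positivity)
      _ ≤ Y / (4 * B * u) * (u * ℓ) := mul_le_mul_of_nonneg_right h5 (by positivity)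
      _ = Y * ℓ / B / 4 := by field_simp
  linarith

theorem apx_mono {r : ℕ} [Fact r.Prime] {P : Finset ℕ} {x : ℕ → ℤ} {a b : ℤ} {h : ℝ} {Y Y' : ℕ}
    (H : Apx r P x a b h Y) (hY : Y' ≤ Y) : Apx r P x a b h Y' := by
  refine ⟨H.prime, H.hr, H.ord, H.ha, H.hb, H.sa, H.sb, H.one, H.apx.trans ?_⟩
  refine zpow_le_zpow_right₀ ?_ (by omega)
  exact_mod_cast (Fact.out : r.Prime).one_lt.le

end Pool.Agent.MP_542436_nt.H39.GM

namespace Pool.Agent.MP_542436_nt.H39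

open MvPolynomial GM

theorem rowGM : RowSTR → RowCORE → RowZ → RowGM := by
  intro hSTR hCORE hZ k u hk hu
  choose gZ EZ hZP using hZ
  obtain ⟨G₀, hG₀⟩ := hSTR k
    (fun G => ∑ ρ ∈ Finset.range (2 * k + 1), gZ ρ (4 * (64 * u * k * G + 1)))
  obtain ⟨E, hE1, hE⟩ : ∃ E, 1 ≤ E ∧ ∀ ρ ≤ 2 * k, ∀ G ≤ G₀,
      EZ ρ (4 * (64 * u * k * G + 1)) ≤ E ∧ gZ ρ (4 * (64 * u * k * G + 1)) ≤ E := by
    refine ⟨∑ q ∈ Finset.range (2 * k + 1) ×ˢ Finset.range (G₀ + 1),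
      (EZ q.1 (4 * (64 * u * k * q.2 + 1)) + gZ q.1 (4 * (64 * u * k * q.2 + 1))) + 1,
      by omega, fun ρ hρ G hG => ?_⟩
    have := Finset.single_le_sum (s := Finset.range (2 * k + 1) ×ˢ Finset.range (G₀ + 1))
      (f := fun q => EZ q.1 (4 * (64 * u * k * q.2 + 1)) + gZ q.1 (4 * (64 * u * k * q.2 + 1)))
      (fun _ _ => Nat.zero_le _) (a := (ρ, G)) (by simp; omega)
    simp only at this
    omega
  obtain ⟨δ, hδ⟩ : ∃ δ, δ = 64 * u * k * G₀ + 1 := ⟨_, rfl⟩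
  obtain ⟨B, hB⟩ : ∃ B, B = 32 * u * E := ⟨_, rfl⟩
  obtain ⟨Q, hQ⟩ : ∃ Q, Q = 64 * B * k * δ * G₀ * u + G₀ + 1 := ⟨_, rfl⟩
  obtain ⟨c₀, hc₀⟩ : ∃ c₀, c₀ = 4 * B * ((32 * u + 2) * (2 * k * δ + 2 * k) + 2 * k * δ) + 1 :=
    ⟨_, rfl⟩
  obtain ⟨c₃, hc₃⟩ : ∃ c₃, c₃ = 4 * k * δ * (G₀ * Q ^ u) + 1 := ⟨_, rfl⟩
  obtain ⟨c₅, hc₅⟩ : ∃ c₅, c₅ = 2 * k * E * (G₀ * Q ^ u) := ⟨_, rfl⟩
  obtain ⟨C₁, hC₁⟩ : ∃ C₁, C₁ = 4 * B * c₃ + 8 * B * u + c₅ + 16 * u * E := ⟨_, rfl⟩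
  have hexp : (1 : ℝ) ≤ Real.exp c₀ := Real.one_le_exp (by positivity)
  refine ⟨Real.exp c₀ + 2 * C₁, le_add_of_le_of_nonneg hexp (by positivity), ?_⟩
  intro r _ P x a b h Y M hA hP hLam hLA hLA' hr hM
  by_contra hY
  push Not at hY
  have hM1 : 1 ≤ M := by
    rcases Nat.eq_zero_or_pos M with h0 | h0
    · rw [h0, zero_pow (by omega)] at hM; omega
    · exact h0
  have hM1' : (1 : ℝ) ≤ M := by exact_mod_cast hM1
  have hh := hA.one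
  have hY1 : (2 * C₁ : ℝ) * M * h < Y := by
    refine lt_of_le_of_lt ?_ hY
    have : (0 : ℝ) ≤ M * h := by positivity
    nlinarith
  have hY2 : 2 * C₁ * M < Y := by
    have h1 : (2 * C₁ : ℝ) * M ≤ 2 * C₁ * M * h := le_mul_of_one_le_right (by positivity) hh
    exact_mod_cast h1.trans_lt hY1
  have hY3 : 2 * C₁ ≤ 2 * C₁ * M := Nat.le_mul_of_pos_right _ hM1
  have hD : 0 < 16 * u * E := by positivity
  obtain ⟨n, hn1, hnY, hYn⟩ : ∃ n, 1 ≤ n ∧ 16 * u * E * n ≤ Y ∧ Y ≤ 2 * (16 * u * E * n) := by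
    have h1 : 1 ≤ Y / (16 * u * E) := (Nat.le_div_iff_mul_le hD).2 (by omega)
    refine ⟨Y / (16 * u * E), h1, Nat.mul_div_le _ _, ?_⟩
    have h2 := Nat.lt_mul_div_succ Y hD
    have h3 := Nat.mul_le_mul_left (16 * u * E) h1
    rw [mul_add] at h2
    omega
  obtain ⟨N, hN⟩ : ∃ N, N = 16 * u * E * n := ⟨_, rfl⟩
  have hN1 : 1 ≤ N := by rw [hN]; exact Nat.mul_pos hD hn1
  rw [← hN] at hnY hYn
  have hQ1 : 1 ≤ Q := by omega
  obtain ⟨ρ, G, κ, e, ω, hρ, hG, hω0, hωG, hω1, hκ, he, hrel, hnorm⟩ :=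
    hG₀ Q M N r P x (by omega) hN1 hA.prime hA.hr hM
  obtain ⟨δ₁, hδ₁⟩ : ∃ δ₁, δ₁ = 64 * u * k * G + 1 := ⟨_, rfl⟩
  have hδ₁δ : δ₁ ≤ δ := by
    rw [hδ₁, hδ]; exact Nat.add_le_add_right (Nat.mul_le_mul_left _ hG) _
  obtain ⟨hEZ, hgZ⟩ := hE ρ hρ G hG
  rw [← hδ₁] at hEZ hgZ
  have hκ' : ∀ j, |κ j| ≤ ((G₀ * Q ^ u * M : ℕ) : ℤ) := fun j => (hκ j).trans (by
    have : G₀ * M * Q ^ P.card ≤ G₀ * Q ^ u * M := by
      rw [mul_right_comm]
      exact Nat.mul_le_mul_right _ (Nat.mul_le_mul_left _ (Nat.pow_le_pow_right hQ1 hP))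
    exact_mod_cast this)
  have hℓ : (c₀ : ℝ) ≤ Real.log r := by
    rw [Real.le_log_iff_exp_le (by exact_mod_cast (Fact.out : r.Prime).pos)]
    exact le_trans (le_add_of_nonneg_right (by positivity)) hr
  have hℓ1 : (1 : ℝ) ≤ Real.log r := le_trans (by exact_mod_cast (by omega : 1 ≤ c₀)) hℓ
  have hB0 : (0 : ℝ) < B := by rw [hB]; positivity
  have hNr : (0 : ℝ) < N := by exact_mod_cast hN1
  have hGδ : G < δ₁ := by
    have : G ≤ 64 * u * k * G := Nat.le_mul_of_pos_left _ (by positivity)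
    omega
  have hEn : EZ ρ (4 * δ₁) * n ≤ 4 * u * E * n := by
    refine Nat.mul_le_mul_right _ (hEZ.trans ?_)
    exact Nat.le_mul_of_pos_left _ (by positivity)
  have hKN : N = 4 * (4 * u * E * n) := by rw [hN]; ring
  have hNℓ : 0 < (N : ℝ) * Real.log r := by positivity
  have hYN : (Y : ℝ) ≤ 2 * N := by exact_mod_cast hYn
  have hNY : (N : ℝ) ≤ Y := by exact_mod_cast hnY
  have hur : (1 : ℝ) ≤ u := by exact_mod_cast hu
  have hEr : (1 : ℝ) ≤ E := by exact_mod_cast hE1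
  have hnr : (1 : ℝ) ≤ n := by exact_mod_cast hn1
  refine hCORE r P x a b h N ρ (4 * δ₁) (gZ ρ (4 * δ₁)) (EZ ρ (4 * δ₁)) G (2 * k) N (δ₁ * N)
    (4 * u * E * n) n E (32 * u) (ρ * δ₁ * (G₀ * Q ^ u * M)) (G₀ * Q ^ u * M) κ e ω
    ((G₀ : ℝ) / Q) (3 / 4 * (N * Real.log r / B)) (apx_mono hA hnY) (hZP _ _) hω0 hωG
    (by exact_mod_cast hω1) (by omega) hnorm hκ' (fun j p hp => near hQ1 hN1 (he j p hp))
    (by positivity) ?_ (Nat.mul_lt_mul_of_pos_right hGδ hN1) ?_ (by omega) hn1 (by omega) hEn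
    ?_ hN1 ?_ (le_of_eq (by ring)) ?_ ?_ ?_
  · intro v hv hd
    refine hrel v (fun j => (hv j).trans ?_) (norel hκ' hv ?_ hd)
    · rw [hδ₁]
      exact_mod_cast Finset.single_le_sum (s := Finset.range (2 * k + 1))
        (f := fun ρ => gZ ρ (4 * (64 * u * k * G + 1))) (fun _ _ => Nat.zero_le _) (a := ρ)
        (by simp; omega)
    · have h1 : ρ * gZ ρ (4 * δ₁) * (G₀ * Q ^ u * M) ≤ c₅ * M := by
        calc ρ * gZ ρ (4 * δ₁) * (G₀ * Q ^ u * M) ≤ 2 * k * E * (G₀ * Q ^ u * M) :=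
              Nat.mul_le_mul_right _ (Nat.mul_le_mul hρ hgZ)
          _ = c₅ * M := by rw [hc₅]; ring
      have h2 : c₅ * M ≤ C₁ * M := Nat.mul_le_mul_right _ (by omega)
      rw [mul_assoc] at hY2
      omega
  · rw [hKN]; exact le_of_eq (by ring)
  · rw [hN]
    exact Nat.mul_le_mul_right _ (Nat.mul_le_mul_right _ (by omega))
  · have h1 : 32 * u * (ρ * (G * N)) ≤ δ₁ * N := by
      calc 32 * u * (ρ * (G * N)) ≤ 32 * u * (2 * k * (G * N)) :=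
            Nat.mul_le_mul_left _ (Nat.mul_le_mul_right _ hρ)
        _ = 64 * u * k * G * N := by ring
        _ ≤ δ₁ * N := Nat.mul_le_mul_right _ (by omega)
    have h2 := count (E := E) (n := n) (Nat.mul_lt_mul_of_pos_right hGδ hN1) h1
    rwa [← hN] at h2
  · have hd0 : (0 : ℝ) < δ₁ * N := by
      have : (0 : ℝ) < δ₁ := by exact_mod_cast (by omega : 0 < δ₁)
      positivity
    have hkr : (1 : ℝ) ≤ k := by exact_mod_cast hk
    have h1 := errs (u := u) (k := k) (ρ := ρ) (δ₁ := δ₁) (δ := δ) (G₀ := G₀) (Q := Q) (B := B)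
      (Y := N) (h := h) (Λ := Lam P) (ℓ := Real.log r) (W := c₃ * M * h)
      (S := ρ * δ₁ * (G₀ * Q ^ u * M)) (lg := Real.log (δ₁ * N)) (lm := Real.log (2 * k))
      hur hkr (by positivity) (by exact_mod_cast hρ) (by positivity) (by exact_mod_cast hδ₁δ)
      (by positivity) hB0 (by exact_mod_cast hQ1)
      (by exact_mod_cast (by omega : 64 * B * k * δ * G₀ * u ≤ Q))
      (by exact_mod_cast (by omega : 8 * B * u ≤ N)) hLam hℓ1
      (le_trans (by exact_mod_cast (by omega :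
        4 * B * ((32 * u + 2) * (2 * k * δ + 2 * k) + 2 * k * δ) ≤ c₀)) hℓ)
      (Real.log_le_self hd0.le) (Real.log_le_self (by positivity)) ?_ ?_
    · push_cast
      exact h1
    · refine mul_le_mul_of_nonneg_right ?_ (by linarith)
      have h2 : 2 * (ρ * δ₁ * (G₀ * Q ^ u * M)) + 1 ≤ c₃ * M := by
        have h3 : ρ * δ₁ * (G₀ * Q ^ u * M) ≤ 2 * k * δ * (G₀ * Q ^ u * M) :=
          Nat.mul_le_mul_right _ (Nat.mul_le_mul hρ hδ₁δ)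
        have h4 : c₃ * M = 2 * (2 * k * δ * (G₀ * Q ^ u * M)) + M := by rw [hc₃]; ring
        omega
      exact_mod_cast h2
    · have h2 : (4 * B * c₃ : ℝ) ≤ C₁ := by exact_mod_cast (by omega : 4 * B * c₃ ≤ C₁)
      have h3 := mul_le_mul_of_nonneg_right h2 (show (0 : ℝ) ≤ M * h by positivity)
      linarith
  · have h1 : (2 : ℝ) * E * n / N = 1 / (8 * u) := by
      rw [hN]; push_cast; field_simp; ring
    have h2 : (N : ℝ) - (4 * u * E * n : ℕ) = 3 / 4 * N := by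
      rw [hN]; push_cast; ring
    have h3 : 1 / (8 * u) * LA P x ≤ 1 / 4 * (N * Real.log r) := by
      rw [one_div_mul_eq_div, div_le_iff₀ (by positivity)]
      have := mul_le_mul_of_nonneg_right hYN (show (0 : ℝ) ≤ u * Real.log r by positivity)
      linarith
    have h4 : N * Real.log r / B ≤ 1 / 2 * (N * Real.log r) := by
      rw [div_le_iff₀ hB0]
      have h5 : (2 : ℝ) ≤ B := by rw [hB]; push_cast; nlinarith
      nlinarith
    rw [h1, h2]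
    linarith
  · have h1 : (n : ℝ) / N = 2 / B := by
      rw [hN, hB]; push_cast; field_simp; ring
    have h2 : N * Real.log r / B ≤ 2 / B * LA P x := by
      rw [div_mul_eq_mul_div]
      refine div_le_div_of_nonneg_right ?_ hB0.le
      have := mul_le_mul_of_nonneg_right hNY (show (0 : ℝ) ≤ Real.log r by positivity)
      linarith
    have h3 : 0 < N * Real.log r / B := by positivity
    rw [h1]
    linarith

end Pool.Agent.MP_542436_nt.H39
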