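import Pool.Agent.MP_542436_nt.H39.Spec

/-! A minimal prime of a graded ideal is locally generated by homogeneous elements. -/

set_option autoImplicit false

namespace Pool.Agent.MP_542436_nt.H39

open MvPolynomial

namespace GR

variable {σ M : Type} [AddCommGroup M] (w : σ → M) (χ : AddChar M ℂ)

/-- twist of the variables by a character -/
noncomputable def tw : MvPolynomial σ ℂ →ₐ[ℂ] MvPolynomial σ ℂ := aeval fun v => C (χ (w v)) * X v

theorem tw_monomial (μ : σ →₀ ℕ) (c : ℂ) :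
    tw w χ (monomial μ c) = C (χ (Finsupp.weight w μ)) * monomial μ c := by
  induction μ using Finsupp.induction_linear generalizing c with
  | zero => simp [tw]
  | add f g hf hg =>
    rw [← mul_one c, ← monomial_mul, map_mul, hf, hg, map_add, χ.map_add_eq_mul, map_mul]
    ring
  | single v n =>
    rw [← C_mul_X_pow_eq_monomial, Finsupp.weight_single, χ.map_nsmul_eq_pow]
    simp only [tw, map_mul, map_pow, aeval_X, aeval_C, algebraMap_eq]
    ring

theorem coeff_tw (g : MvPolynomial σ ℂ) (d : σ →₀ ℕ) :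
    coeff d (tw w χ g) = χ (Finsupp.weight w d) * coeff d g := by
  classical
  induction g using MvPolynomial.induction_on' with
  | monomial μ c =>
    rw [tw_monomial, coeff_C_mul, coeff_monomial]
    split_ifs with h
    · rw [h]
    · rw [mul_zero, mul_zero]
  | add p q hp hq => rw [map_add, coeff_add, coeff_add, hp, hq, mul_add]

theorem tw_hom {φ : MvPolynomial σ ℂ} {c : M} (h : φ.IsWeightedHomogeneous w c) :
    tw w χ φ = C (χ c) * φ := by
  ext d
  rw [coeff_tw, coeff_C_mul]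
  by_cases e : coeff d φ = 0
  · rw [e, mul_zero, mul_zero]
  · rw [h e]

theorem comp [Fintype M] (g : MvPolynomial σ ℂ) (c : M) : weightedHomogeneousComponent w c g =
    ∑ χ : AddChar M ℂ, C (χ (-c) / Fintype.card M) * tw w χ g := by
  classical
  ext d
  have h0 : (Fintype.card M : ℂ) ≠ 0 := Nat.cast_ne_zero.2 Fintype.card_ne_zero
  have : ∀ χ : AddChar M ℂ, coeff d (C (χ (-c) / Fintype.card M) * tw w χ g) =
      χ (Finsupp.weight w d - c) * (coeff d g / Fintype.card M) := fun χ => by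
    rw [coeff_C_mul, coeff_tw, sub_eq_add_neg, χ.map_add_eq_mul]
    ring
  rw [coeff_weightedHomogeneousComponent, coeff_sum, Finset.sum_congr rfl fun χ _ => this χ,
    ← Finset.sum_mul, AddChar.sum_apply_eq_ite]
  simp only [sub_eq_zero]
  split_ifs
  · rw [mul_div_cancel₀ _ h0]
  · rw [zero_mul]

end GR

open GR in
theorem rowGR : RowGR := by
  intro ρ N _ w Φ 𝔭 hΦ h𝔭 f hf
  have hp := h𝔭.1.1
  have key : ∀ χ : AddChar (ZMod N) ℂ, ∃ h ∉ 𝔭, tw w χ (h * f) ∈ 𝔭 := fun χ => by
    by_cases e : 𝔭.comap (tw w χ) ≤ 𝔭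
    · refine ⟨1, (Ideal.ne_top_iff_one _).1 hp.ne_top, ?_⟩
      rw [one_mul]
      refine h𝔭.2 ⟨Ideal.comap_isPrime _ _, Ideal.span_le.2 fun φ hφ => ?_⟩ e hf
      obtain ⟨c, hc⟩ := hΦ φ hφ
      rw [SetLike.mem_coe, Ideal.mem_comap, tw_hom w χ hc]
      exact 𝔭.mul_mem_left _ (h𝔭.1.2 (Ideal.subset_span hφ))
    · obtain ⟨h, h1, h2⟩ := SetLike.not_le_iff_exists.1 e
      exact ⟨h, h2, by rw [map_mul]; exact 𝔭.mul_mem_right _ h1⟩
  choose h h1 h2 using key
  refine ⟨∏ χ, h χ, fun e => ?_, fun c => ?_⟩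
  · obtain ⟨χ, -, e⟩ := Ideal.IsPrime.prod_mem_iff.1 e
    exact h1 χ e
  · classical
    rw [comp]
    refine 𝔭.sum_mem fun χ _ => 𝔭.mul_mem_left _ ?_
    rw [← Finset.prod_erase_mul _ _ (Finset.mem_univ χ), mul_assoc, map_mul]
    exact 𝔭.mul_mem_left _ (h2 χ)

end Pool.Agent.MP_542436_nt.H39
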