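import Pool.Agent.MP_542436_nt.H39.Spec

/-! Two sums in one residue class. -/

namespace Pool.Agent.MP_542436_nt.H39

open Finset

namespace PIG

theorem norm_pw (r : ℕ) [hr : Fact r.Prime] (P : Finset ℕ) (hP : ∀ p ∈ P, p.Prime) (h : r ∉ P)
    (g : ℕ → ℤ) : ‖((pw P g : ℚ) : ℚ_[r])‖ = 1 := by
  unfold pw
  push_cast
  rw [norm_prod]
  refine prod_eq_one fun p hp => ?_
  rw [norm_zpow, Padic.norm_natCast_eq_one_iff.2, one_zpow]
  exact (Nat.coprime_primes hr.out (hP p hp)).2 fun e => h (e ▸ hp)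

theorem close {Q N a b : ℤ} (hQ : 0 < Q) (hN : 0 < N) (h : Q * a / N = Q * b / N) :
    Q * |a - b| ≤ N := by
  have a1 := Int.mul_ediv_add_emod (Q * a) N
  have a2 := Int.mul_ediv_add_emod (Q * b) N
  have a3 := Int.emod_nonneg (Q * a) hN.ne'
  have a4 := Int.emod_nonneg (Q * b) hN.ne'
  have a5 := Int.emod_lt_of_pos (Q * a) hN
  have a6 := Int.emod_lt_of_pos (Q * b) hN
  rw [h] at a1
  rw [← abs_of_pos hQ, ← abs_mul, mul_sub, abs_le]
  constructor <;> linarith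

theorem fib (n Q N : ℕ) (P : Finset ℕ) (x : ℕ → ℤ) (hQ : 1 ≤ Q) (hN : 1 ≤ N) :
    ∃ T : Finset ℕ, n ≤ T.card ∧ (∀ j ∈ T, j < n * Q ^ P.card) ∧ ∀ j ∈ T, ∀ j' ∈ T, ∀ p ∈ P,
      (Q : ℤ) * |(j' : ℤ) * x p % N - (j : ℤ) * x p % N| ≤ N := by
  have hN' : (0 : ℤ) < N := by exact_mod_cast hN
  have hQ' : (0 : ℤ) < Q := by exact_mod_cast hQ
  obtain ⟨y, -, hy⟩ := exists_le_card_fiber_of_mul_le_card_of_maps_to
    (s := range (n * Q ^ P.card)) (t := Fintype.piFinset fun _ : P => Ico (0 : ℤ) Q)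
    (f := fun (j : ℕ) (p : P) => (Q : ℤ) * ((j : ℤ) * x p % N) / N) (n := n)
    (fun j _ => Fintype.mem_piFinset.2 fun p => mem_Ico.2
      ⟨Int.ediv_nonneg (mul_nonneg hQ'.le (Int.emod_nonneg _ hN'.ne')) hN'.le,
        Int.ediv_lt_of_lt_mul hN' (mul_lt_mul_of_pos_left (Int.emod_lt_of_pos _ hN') hQ')⟩)
    ⟨fun _ => 0, Fintype.mem_piFinset.2 fun _ => mem_Ico.2 ⟨le_rfl, hQ'⟩⟩
    (by simp [mul_comm])
  refine ⟨_, hy, fun j hj => mem_range.1 (mem_filter.1 hj).1, fun j hj j' hj' p hp => ?_⟩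
  exact close hQ' hN' (congrFun ((mem_filter.1 hj').2.trans (mem_filter.1 hj).2.symm) ⟨p, hp⟩)

end PIG

open PIG in
theorem rowPIG : RowPIG := by
  intro k Q M N r hr P x hQ hN hP hrP hM
  obtain ⟨T, hT, hlt, hcl⟩ := fib (k * M) Q N P x hQ hN
  obtain ⟨φ⟩ : Nonempty (Fin k × Fin M ↪ T) :=
    Function.Embedding.nonempty_of_card_le (by simpa using hT)
  have hT0 : T.Nonempty := by
    rw [← card_pos]
    refine lt_of_lt_of_le (Nat.pos_of_ne_zero fun h => ?_) hT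
    have h2 := hr.out.two_le
    rcases Nat.mul_eq_zero.1 h with rfl | rfl
    · simp at hM; omega
    · have : 0 ^ k ≤ 1 := by cases k <;> simp
      omega
  obtain ⟨j₀, hj₀⟩ := hT0
  set G : ℕ → ℕ → ℤ := fun j p => (j : ℤ) * x p / N - (j₀ : ℤ) * x p / N with hG
  let u : ℕ → ℤ_[r] := fun j => ⟨((pw P (G j) : ℚ) : ℚ_[r]), (norm_pw r P hP hrP _).le⟩
  obtain ⟨f, f', hne, he⟩ := Fintype.exists_ne_map_eq_of_card_lt
    (fun f : Fin k → Fin M => PadicInt.toZMod (∑ i, u (φ (i, f i)))) (by simpa using hM)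
  obtain ⟨i₀, hi₀⟩ := Function.ne_iff.1 hne
  have h1 : ‖∑ i, u (φ (i, f i)) - ∑ i, u (φ (i, f' i))‖ < 1 := by
    rw [← PadicInt.mem_nonunits, ← IsLocalRing.mem_maximalIdeal, ← PadicInt.ker_toZMod,
      RingHom.mem_ker, map_sub, he, sub_self]
  let e : Fin (2 * k) ≃ Fin k ⊕ Fin k := (finCongr (two_mul k)).trans finSumFinEquiv.symm
  let J : Fin k ⊕ Fin k → T := Sum.elim (fun i => φ (i, f i)) fun i => φ (i, f' i)
  let c : Fin k ⊕ Fin k → ℤ := Sum.elim (fun _ => 1) fun _ => -1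
  refine ⟨fun i => ((J (e i) : ℕ) : ℤ) - j₀, fun i => G (J (e i)), fun i => c (e i),
    e.symm (Sum.inl i₀), fun i => ?_, fun i hi h => hi ?_, fun i => ?_, fun i p hp => ?_, ?_⟩
  · change c (e i) = 1 ∨ c (e i) = -1
    cases e i
    · exact Or.inl rfl
    · exact Or.inr rfl
  · simp only [Equiv.apply_symm_apply, sub_left_inj, Nat.cast_inj] at h
    rw [Equiv.eq_symm_apply]
    have h2 : J (e i) = φ (i₀, f i₀) := Subtype.ext h
    generalize e i = s at h2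
    cases s with
    | inl i' => exact congrArg Sum.inl (Prod.ext_iff.1 (φ.injective h2)).1
    | inr i' =>
      obtain ⟨a, b⟩ := Prod.ext_iff.1 (φ.injective h2)
      subst a
      exact absurd b.symm hi₀
  · have a1 : ((J (e i) : ℕ) : ℤ) < k * M * Q ^ P.card := by exact_mod_cast hlt _ (J (e i)).2
    have a2 : (j₀ : ℤ) < k * M * Q ^ P.card := by exact_mod_cast hlt _ hj₀
    have a3 : (0 : ℤ) ≤ ((J (e i) : ℕ) : ℤ) := Int.natCast_nonneg _
    have a4 : (0 : ℤ) ≤ j₀ := Int.natCast_nonneg _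
    rw [abs_le]
    constructor <;> linarith
  · refine le_trans (le_of_eq ?_) (hcl _ (J (e i)).2 _ hj₀ p hp)
    congr 2
    simp only [hG, Int.emod_def]
    ring
  · rw [e.sum_comp fun s => ((c s : ℤ) : ℚ) * pw P (G (J s)), Fintype.sum_sum_type]
    refine lt_of_eq_of_lt ?_ h1
    rw [PadicInt.norm_def]
    congr 1
    simp [c, J, u, PadicInt.coe_sum, sub_eq_add_neg]

end Pool.Agent.MP_542436_nt.H39
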