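import Pool.Agent.MP_542436_nt.H39.Spec

/-! Divisibility of the jets. -/

set_option autoImplicit false

namespace Pool.Agent.MP_542436_nt.H39

open MvPolynomial

namespace RAD

theorem coeff_binom {R : Type} [CommRing R] {ρ : ℕ} (z a : Fin ρ →₀ ℕ) :
    coeff a (∏ j, (1 + X j : MvPolynomial (Fin ρ) R) ^ z j) = ∏ j, ((z j).choose (a j) : R) := by
  classical
  have h1 : ∀ j, (1 + X j : MvPolynomial (Fin ρ) R) ^ z j =
      ∑ i ∈ Finset.range (z j + 1), monomial (Finsupp.single j i) ((z j).choose i : R) := by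
    intro j
    rw [add_comm, add_pow]
    refine Finset.sum_congr rfl fun i _ => ?_
    rw [one_pow, mul_one, X_pow_eq_monomial, ← map_natCast (C : R →+* _), mul_comm, C_mul_monomial,
      mul_one]
  have h2 : ∀ p : Fin ρ → ℕ, (∑ j, Finsupp.single j (p j) = a) ↔ p = a := fun p => by
    constructor
    · rintro rfl
      funext i
      simp [Finsupp.finsetSum_apply, Finsupp.single_apply]
    · rintro rfl
      ext i
      simp
  simp only [h1]
  rw [Finset.prod_univ_sum, coeff_sum]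
  simp only [← monomial_sum_prod, coeff_monomial, h2]
  rw [Finset.sum_ite_eq']
  split_ifs with h
  · rfl
  · rw [Fintype.mem_piFinset, not_forall] at h
    obtain ⟨j, hj⟩ := h
    refine (Finset.prod_eq_zero (Finset.mem_univ j) ?_).symm
    rw [Nat.choose_eq_zero_of_lt (by simpa using hj), Nat.cast_zero]

variable {r : ℕ} [Fact r.Prime] {ρ : ℕ}

/-- the twisted expansion at the point `δ` -/
noncomputable def ph (δ : Fin ρ → ℚ_[r]) :
    MvPolynomial (Fin ρ) ℤ →ₐ[ℤ] MvPolynomial (Fin ρ) ℚ_[r] :=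
  aeval fun j => C (δ j) * (1 + X j)

theorem coeff_ph (δ : Fin ρ → ℚ_[r]) (F : MvPolynomial (Fin ρ) ℤ) {S : Finset (Fin ρ →₀ ℕ)}
    (h : F.support ⊆ S) (a : Fin ρ →₀ ℕ) : coeff a (ph δ F) =
      ∑ z ∈ S, ((coeff z F * ∏ j, ((z j).choose (a j) : ℤ) : ℤ) : ℚ_[r]) * ∏ j, δ j ^ z j := by
  rw [← Finset.sum_subset h fun z _ hz => by simp [notMem_support_iff.1 hz]]
  conv_lhs => rw [F.as_sum, map_sum, coeff_sum]
  refine Finset.sum_congr rfl fun z _ => ?_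
  rw [ph, aeval_monomial, Finsupp.prod_fintype _ _ fun _ => pow_zero _]
  simp only [mul_pow, Finset.prod_mul_distrib, ← map_pow, ← map_prod]
  rw [eq_intCast, ← map_intCast (C : ℚ_[r] →+* _), coeff_C_mul, coeff_C_mul,
    coeff_binom]
  push_cast
  ring

theorem one_lt : (1 : ℝ) < r := by exact_mod_cast (Fact.out : r.Prime).one_lt

theorem term_le {δ : Fin ρ → ℚ_[r]} (hδ : ∀ j, ‖δ j‖ ≤ 1) (c : ℤ) (z : Fin ρ →₀ ℕ) :
    ‖(c : ℚ_[r]) * ∏ j, δ j ^ z j‖ ≤ 1 := by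
  rw [norm_mul, norm_prod]
  refine mul_le_one₀ (Padic.norm_int_le_one c) (Finset.prod_nonneg fun _ _ => norm_nonneg _)
    (Finset.prod_le_one (fun _ _ => norm_nonneg _) fun j _ => ?_)
  rw [norm_pow]
  exact pow_le_one₀ (norm_nonneg _) (hδ j)

/-- divisibility of the coefficients of low degree -/
def Pw (n : ℕ) (f : MvPolynomial (Fin ρ) ℚ_[r]) : Prop :=
  ∀ a : Fin ρ →₀ ℕ, ‖coeff a f‖ ≤ (r : ℝ) ^ (-((n - ∑ j, a j : ℕ) : ℤ))

theorem pw_zero {δ : Fin ρ → ℚ_[r]} (hδ : ∀ j, ‖δ j‖ ≤ 1) (F : MvPolynomial (Fin ρ) ℤ) :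
    Pw 0 (ph δ F) := fun a => by
  rw [coeff_ph δ F subset_rfl, Nat.zero_sub, Nat.cast_zero, neg_zero, zpow_zero]
  exact IsUltrametricDist.norm_sum_le_of_forall_le_of_nonneg zero_le_one
    fun z _ => term_le hδ _ z

theorem pw_one {δ : Fin ρ → ℚ_[r]} (hδ : ∀ j, ‖δ j‖ ≤ 1) {F : MvPolynomial (Fin ρ) ℤ}
    (h : ‖aeval δ F‖ < 1) : Pw 1 (ph δ F) := fun a => by
  by_cases h0 : ∑ j, a j = 0
  · have e : ∀ j, a j = 0 := fun j => Finset.sum_eq_zero_iff.1 h0 j (Finset.mem_univ j)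
    have e2 : coeff a (ph δ F) = aeval δ F := by
      rw [coeff_ph δ F subset_rfl, aeval_def, eval₂_eq']
      simp [e]
    rw [e2, h0, Padic.norm_le_pow_iff_norm_lt_pow_add_one]
    simpa using h
  · have := pw_zero hδ F a
    rwa [Nat.zero_sub, ← show 1 - ∑ j, a j = 0 by omega] at this

theorem pw_mul {n n' : ℕ} {f g : MvPolynomial (Fin ρ) ℚ_[r]} (hf : Pw n f) (hg : Pw n' g) :
    Pw (n + n') (f * g) := fun a => by
  classical
  have h1 := one_lt (r := r)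
  rw [coeff_mul]
  refine IsUltrametricDist.norm_sum_le_of_forall_le_of_nonneg (by positivity) fun p hp => ?_
  have e : ∑ j, a j = ∑ j, p.1 j + ∑ j, p.2 j := by
    rw [← Finset.HasAntidiagonal.mem_antidiagonal.1 hp, ← Finset.sum_add_distrib]
    rfl
  rw [norm_mul]
  refine (mul_le_mul (hf _) (hg _) (norm_nonneg _) (by positivity)).trans ?_
  rw [← zpow_add₀ (by positivity)]
  exact zpow_le_zpow_right₀ h1.le (by omega)

theorem pw_pow {δ : Fin ρ → ℚ_[r]} (hδ : ∀ j, ‖δ j‖ ≤ 1) {F : MvPolynomial (Fin ρ) ℤ}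
    (h : ‖aeval δ F‖ < 1) (H : MvPolynomial (Fin ρ) ℤ) (Y : ℕ) : Pw Y (ph δ (F ^ Y * H)) := by
  induction Y with
  | zero => exact pw_zero hδ _
  | succ Y ih =>
    rw [pow_succ', mul_assoc, map_mul, add_comm]
    exact pw_mul (pw_one hδ h) ih

theorem pow_sub {ξ : ℚ_[r]} {e : ℝ} (h1 : e ≤ 1) (h : ‖ξ - 1‖ ≤ e) (s : ℕ) : ‖ξ ^ s - 1‖ ≤ e := by
  have h0 : 0 ≤ e := (norm_nonneg _).trans h
  have h2 : ‖ξ‖ ≤ 1 := by
    have := IsUltrametricDist.norm_add_le_max (ξ - 1) 1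
    rw [sub_add_cancel, norm_one] at this
    exact this.trans (max_le (h.trans h1) le_rfl)
  induction s with
  | zero => simpa using h0
  | succ s ih =>
    have := IsUltrametricDist.norm_add_le_max (ξ * (ξ ^ s - 1)) (ξ - 1)
    rw [show ξ * (ξ ^ s - 1) + (ξ - 1) = ξ ^ (s + 1) - 1 by ring, norm_mul] at this
    exact this.trans (max_le ((mul_le_of_le_one_left (norm_nonneg _) h2).trans ih) h)

end RAD

open RAD in
theorem rowRAD : RowRAD := by
  intro r _ ρ Y ω H δ ξ S s a hδ hω hξ hS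
  have h1 := one_lt (r := r)
  have h2 := pw_pow hδ hω H Y (Finsupp.equivFunOnFinite.symm a)
  rw [coeff_ph δ _ hS] at h2
  simp only [Finsupp.equivFunOnFinite_symm_apply_apply] at h2
  have h3 : (r : ℝ) ^ (-(Y : ℤ)) ≤ (r : ℝ) ^ (-((Y - ∑ j, a j : ℕ) : ℤ)) :=
    zpow_le_zpow_right₀ h1.le (by omega)
  have h4 : (r : ℝ) ^ (-(Y : ℤ)) ≤ 1 := zpow_le_one_of_nonpos₀ h1.le (by omega)
  have h5 : ‖∑ z ∈ S, (((coeff z (ω ^ Y * H) * ∏ j, ((z j).choose (a j) : ℤ) : ℤ) : ℚ_[r]) *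
      ∏ j, δ j ^ z j) * (ξ ^ s z - 1)‖ ≤ (r : ℝ) ^ (-(Y : ℤ)) :=
    IsUltrametricDist.norm_sum_le_of_forall_le_of_nonneg (by positivity) fun z _ => by
      rw [norm_mul]
      exact (mul_le_of_le_one_left (norm_nonneg _) (term_le hδ _ z)).trans (pow_sub h4 hξ _)
  refine le_trans (le_of_eq ?_) ((IsUltrametricDist.norm_add_le_max _ _).trans
    (max_le h2 (h5.trans h3)))
  rw [← Finset.sum_add_distrib]
  congr 1
  exact Finset.sum_congr rfl fun z _ => by ring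

end Pool.Agent.MP_542436_nt.H39
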