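import Pool.Agent.MP_542436_nt.H39.Spec

/-! Removal of small relations. -/

set_option autoImplicit false

namespace Pool.Agent.MP_542436_nt.H39

namespace REL

open Matrix

/-- the conclusion for one vector -/
def Con (m : ℕ) (Φ : ℕ → ℕ) (G₀ : ℕ) (k : Fin m → ℤ) : Prop :=
  ∃ (ρ G : ℕ) (A : Matrix (Fin m) (Fin ρ) ℤ) (B : Matrix (Fin ρ) (Fin m) ℤ), ρ ≤ m ∧ G ≤ G₀ ∧
    (∀ i j, |A i j| ≤ G) ∧ (∀ j i, |B j i| ≤ G) ∧ k = A *ᵥ (B *ᵥ k) ∧
    ∀ v : Fin ρ → ℤ, (∀ j, |v j| ≤ Φ G) → v ⬝ᵥ (B *ᵥ k) = 0 → v = 0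

theorem Con.mono {m : ℕ} {Φ : ℕ → ℕ} {G G' : ℕ} {k : Fin m → ℤ} (h : Con m Φ G k) (l : G ≤ G') :
    Con m Φ G' k := by
  obtain ⟨ρ, g, A, B, h1, h2, h3⟩ := h
  exact ⟨ρ, g, A, B, h1, h2.trans l, h3⟩

theorem hyper {m : ℕ} (v : Fin m → ℤ) (hv : v ≠ 0) :
    ∃ (n : ℕ) (A : Matrix (Fin m) (Fin n) ℤ) (B : Matrix (Fin n) (Fin m) ℤ), n < m ∧
      ∀ k : Fin m → ℤ, v ⬝ᵥ k = 0 → k = A *ᵥ (B *ᵥ k) := by
  let f : (Fin m → ℤ) →ₗ[ℤ] ℤ := dotProductBilin ℤ ℤ v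
  obtain ⟨s, hs⟩ := f.rangeRestrict.exists_rightInverse_of_surjective f.range_rangeRestrict
  let p : (Fin m → ℤ) →ₗ[ℤ] LinearMap.ker f :=
    (LinearMap.id - s ∘ₗ f.rangeRestrict).codRestrict _ fun x => by
      have := congrArg Subtype.val (LinearMap.congr_fun hs (f.rangeRestrict x))
      simp only [LinearMap.mem_ker, LinearMap.sub_apply, map_sub]
      exact sub_eq_zero.2 this.symm
  let b := Module.finBasis ℤ (LinearMap.ker f)
  refine ⟨_, LinearMap.toMatrix' ((LinearMap.ker f).subtype ∘ₗ b.equivFun.symm.toLinearMap),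
    LinearMap.toMatrix' (b.equivFun.toLinearMap ∘ₗ p), ?_, fun k hk => ?_⟩
  · have h1 := (LinearMap.ker f).finrank_quotient_add_finrank
    rw [f.quotKerEquivRange.finrank_eq, Module.finrank_fin_fun] at h1
    have h2 : 1 ≤ Module.finrank ℤ (LinearMap.range f) := by
      rw [Submodule.one_le_finrank_iff, Ne, LinearMap.range_eq_bot]
      intro h
      exact hv (dotProduct_self_eq_zero.1 (LinearMap.congr_fun h v))
    omega
  · rw [LinearMap.toMatrix'_mulVec, LinearMap.toMatrix'_mulVec]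
    have h0 : f.rangeRestrict k = 0 := Subtype.ext hk
    simp [p, h0]

theorem bound {m n : ℕ} (A : Matrix (Fin m) (Fin n) ℤ) : ∃ β : ℕ, ∀ i j, |A i j| ≤ β := by
  refine ⟨Finset.univ.sup fun p : Fin m × Fin n => (A p.1 p.2).natAbs, fun i j => ?_⟩
  rw [← Int.natCast_natAbs]
  exact Int.ofNat_le.2 (Finset.le_sup (f := fun p : Fin m × Fin n => (A p.1 p.2).natAbs)
    (Finset.mem_univ (i, j)))

theorem mul_bound {m n l : ℕ} {A : Matrix (Fin m) (Fin n) ℤ} {B : Matrix (Fin n) (Fin l) ℤ}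
    {a b : ℤ} (ha : ∀ i j, |A i j| ≤ a) (hb : ∀ i j, |B i j| ≤ b) (i : Fin m) (j : Fin l) :
    |(A * B) i j| ≤ n * (a * b) := by
  rw [mul_apply]
  refine (Finset.abs_sum_le_sum_abs _ _).trans ((Finset.sum_le_card_nsmul _ _ (a * b)
    fun x _ => ?_).trans (by simp))
  rw [abs_mul]
  exact mul_le_mul (ha _ _) (hb _ _) (abs_nonneg _) ((abs_nonneg _).trans (ha i x))

theorem main (m : ℕ) : ∀ Φ : ℕ → ℕ, ∃ G₀, ∀ k, Con m Φ G₀ k := by
  induction m using Nat.strong_induction_on with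
  | _ m ih =>
  intro Φ
  have one : ∀ v : Fin m → ℤ, ∃ G₀, v ≠ 0 → ∀ k, v ⬝ᵥ k = 0 → Con m Φ G₀ k := fun v => by
    by_cases hv : v = 0
    · exact ⟨0, fun h => (h hv).elim⟩
    obtain ⟨n, A, B, hn, h⟩ := hyper v hv
    obtain ⟨a, ha⟩ := bound A
    obtain ⟨b, hb⟩ := bound B
    obtain ⟨G, hG⟩ := ih n hn fun G => Φ (n * (max a b * G))
    refine ⟨n * (max a b * G), fun _ k hk => ?_⟩
    obtain ⟨ρ, g, A', B', h1, h2, h3, h4, h5, h6⟩ := hG (B *ᵥ k)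
    refine ⟨ρ, n * (max a b * g), A * A', B' * B, h1.trans hn.le, by gcongr, fun i j => ?_,
      fun j i => ?_, ?_, fun w hw => ?_⟩
    · push_cast
      exact mul_bound (fun i j => (ha i j).trans (le_max_left _ _)) h3 i j
    · push_cast
      rw [mul_comm (max (a : ℤ) b)]
      exact mul_bound h4 (fun i j => (hb i j).trans (le_max_right _ _)) j i
    · rw [← mulVec_mulVec, ← mulVec_mulVec, ← h5]
      exact h k hk
    · rw [← mulVec_mulVec]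
      exact h6 w hw
  choose g hg using one
  refine ⟨(Fintype.piFinset fun _ : Fin m => Finset.Icc (-(Φ 1 : ℤ)) (Φ 1)).sup g + 1, fun k => ?_⟩
  by_cases h : ∀ v : Fin m → ℤ, (∀ j, |v j| ≤ Φ 1) → v ⬝ᵥ k = 0 → v = 0
  · have o : ∀ i j : Fin m, |(1 : Matrix (Fin m) (Fin m) ℤ) i j| ≤ (1 : ℕ) := fun i j => by
      rw [one_apply]
      split_ifs <;> simp
    exact ⟨m, 1, 1, 1, le_rfl, Nat.le_add_left _ _, o, o, by simp, by simpa using h⟩
  · push Not at h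
    obtain ⟨v, h1, h2, h3⟩ := h
    refine (hg v h3 k h2).mono (Nat.le_succ_of_le (Finset.le_sup ?_))
    exact Fintype.mem_piFinset.2 fun j => Finset.mem_Icc.2 (abs_le.1 (h1 j))

end REL

theorem rowREL : RowREL := fun m Φ => by
  obtain ⟨G₀, h⟩ := REL.main m Φ
  refine ⟨G₀, fun k => ?_⟩
  obtain ⟨ρ, G, A, B, h1, h2, h3, h4, h5, h6⟩ := h k
  exact ⟨ρ, G, A, B, h1, h2, h3, h4, fun i => congrFun h5 i, h6⟩

end Pool.Agent.MP_542436_nt.H39
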