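import Pool.Agent.MP_542436_nt.H39.Spec

/-! Vanishing and splitting of sums of products of powers of primes. -/

set_option autoImplicit false

namespace Pool.Agent.MP_542436_nt.H39

namespace SPL

theorem pw_add {P : Finset ℕ} (hP : ∀ p ∈ P, p.Prime) (f g : ℕ → ℤ) :
    pw P (f + g) = pw P f * pw P g := by
  rw [pw, pw, pw, ← Finset.prod_mul_distrib]
  exact Finset.prod_congr rfl fun p hp => zpow_add₀ (by exact_mod_cast (hP p hp).ne_zero) _ _

theorem pw_ne {P : Finset ℕ} (hP : ∀ p ∈ P, p.Prime) (f : ℕ → ℤ) : pw P f ≠ 0 :=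
  Finset.prod_ne_zero_iff.2 fun p hp => zpow_ne_zero _ (by exact_mod_cast (hP p hp).ne_zero)

theorem pw_nat {P : Finset ℕ} {f : ℕ → ℤ} (h : ∀ p ∈ P, 0 ≤ f p) :
    pw P f = ((∏ p ∈ P, p ^ (f p).toNat : ℕ) : ℚ) := by
  rw [pw, Nat.cast_prod]
  refine Finset.prod_congr rfl fun p hp => ?_
  rw [Nat.cast_pow, ← zpow_natCast, Int.toNat_of_nonneg (h p hp)]

theorem prod_exp {P : Finset ℕ} (hP : ∀ p ∈ P, p.Prime) (k : ℕ → ℕ) :
    ((∏ p ∈ P, p ^ k p : ℕ) : ℝ) = Real.exp (∑ p ∈ P, k p * Real.log p) := by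
  rw [Real.exp_sum, Nat.cast_prod]
  refine Finset.prod_congr rfl fun p hp => ?_
  rw [Real.exp_nat_mul, Real.exp_log (by exact_mod_cast (hP p hp).pos), Nat.cast_pow]

theorem norm_pw (r : ℕ) [Fact r.Prime] {P : Finset ℕ} (hP : ∀ p ∈ P, p.Prime) (f : ℕ → ℤ) :
    ‖((pw P f : ℚ) : ℚ_[r])‖ = if r ∈ P then (r : ℝ) ^ (-f r) else 1 := by
  rw [← Finset.prod_ite_eq P r fun p => (r : ℝ) ^ (-f p), pw]
  push_cast
  rw [norm_prod]
  refine Finset.prod_congr rfl fun p hp => ?_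
  rw [norm_zpow]
  split_ifs with e
  · subst e
    rw [Padic.norm_p, inv_zpow']
  · rw [Padic.norm_natCast_eq_one_iff.2 ((Nat.coprime_primes Fact.out (hP p hp)).2 e), one_zpow]

/-- the exponents of the normaliser -/
noncomputable def bt (x : ℕ → ℤ) (ε σ₀ σ₁ : ℝ) (p : ℕ) : ℤ :=
  -⌈(if 0 ≤ x p then σ₀ else σ₁) * x p - ε⌉

theorem log_nonneg (p : ℕ) : 0 ≤ Real.log p := Real.log_natCast_nonneg p

variable {ι : Type} {t : Finset ι} {P : Finset ℕ} {x : ℕ → ℤ} {a b : ℤ} {c : ι → ℤ} {s : ι → ℕ}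
  {f : ι → ℕ → ℤ} {σ : ι → ℝ} {S : ℕ} {h w ε : ℝ}

theorem term (T : Trm t P x a b c s f σ S h w ε) (β : ℕ → ℤ) {i : ι} (hi : i ∈ t) :
    (b : ℚ) ^ S * pw P β * (c i * (((a : ℚ) / b) ^ s i * pw P (f i))) =
      ((c i * (a ^ s i * b ^ (S - s i)) : ℤ) : ℚ) * pw P (f i + β) := by
  have hb : (b : ℚ) ≠ 0 := by exact_mod_cast T.hb
  obtain ⟨k, rfl⟩ := Nat.exists_eq_add_of_le (T.ss i hi)
  rw [pw_add T.prime, Nat.add_sub_cancel_left, div_pow, pow_add]
  push_cast
  field_simp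

theorem expo (T : Trm t P x a b c s f σ S h w ε) {σ₀ σ₁ : ℝ} {i : ι} (hi : i ∈ t)
    (h0 : σ₀ ≤ σ i) (h1 : σ i ≤ σ₁) {p : ℕ} (hp : p ∈ P) : 0 ≤ (f i + bt x ε σ₀ σ₁) p ∧
      (((f i + bt x ε σ₀ σ₁) p : ℤ) : ℝ) ≤ (σ i - σ₀) * ((max (x p) 0 : ℤ) : ℝ) +
        (σ₁ - σ i) * ((max ((-x) p) 0 : ℤ) : ℝ) + 2 * ε := by
  obtain ⟨n1, n2⟩ := abs_le.1 (T.near i hi p hp)
  simp only [Pi.add_apply, bt, Pi.neg_apply, ← sub_eq_add_neg, sub_nonneg, Int.ceil_le,
    Int.cast_sub]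
  split_ifs with e
  · have e' : (0 : ℝ) ≤ x p := by exact_mod_cast e
    rw [max_eq_left e, max_eq_right (by omega)]
    have := Int.le_ceil (σ₀ * x p - ε)
    push_cast
    constructor
    · nlinarith
    · linarith
  · have e' : (x p : ℝ) ≤ 0 := by exact_mod_cast (not_le.1 e).le
    rw [max_eq_right (by omega), max_eq_left (by omega)]
    have := Int.le_ceil (σ₁ * x p - ε)
    push_cast
    constructor
    · nlinarith
    · linarith

theorem int (T : Trm t P x a b c s f σ S h w ε) {σ₀ σ₁ : ℝ} {t' : Finset ι} (ht : t' ⊆ t)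
    (h0 : ∀ i ∈ t', σ₀ ≤ σ i ∧ σ i ≤ σ₁) : ∃ Z : ℤ,
      (Z : ℚ) = (b : ℚ) ^ S * pw P (bt x ε σ₀ σ₁) *
        ∑ i ∈ t', c i * (((a : ℚ) / b) ^ s i * pw P (f i)) ∧
      |(Z : ℝ)| ≤ Real.exp (w + S * h + (σ₁ - σ₀) * LA P x + 2 * ε * Lam P) := by
  refine ⟨∑ i ∈ t', c i * (a ^ s i * b ^ (S - s i)) *
    (∏ p ∈ P, p ^ ((f i + bt x ε σ₀ σ₁) p).toNat : ℕ), ?_, ?_⟩
  · rw [Finset.mul_sum, Int.cast_sum]
    refine Finset.sum_congr rfl fun i hi => ?_
    rw [term T _ (ht hi), pw_nat fun p hp => (expo T (ht hi) (h0 i hi).1 (h0 i hi).2 hp).1,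
      Int.cast_mul, Int.cast_natCast]
  · rw [Int.cast_sum, add_assoc, add_assoc, Real.exp_add]
    refine (Finset.abs_sum_le_sum_abs _ _).trans (le_trans ?_ (mul_le_mul_of_nonneg_right
      ((Finset.sum_le_sum_of_subset_of_nonneg ht fun _ _ _ => abs_nonneg _).trans T.sc)
      (Real.exp_pos _).le))
    rw [Finset.sum_mul]
    refine Finset.sum_le_sum fun i hi => ?_
    rw [Int.cast_mul, Int.cast_mul, mul_assoc, abs_mul, abs_mul, Real.exp_add]
    refine mul_le_mul_of_nonneg_left (mul_le_mul ?_ ?_ (abs_nonneg _) (Real.exp_pos _).le)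
      (abs_nonneg _)
    · rw [Real.exp_nat_mul, ← pow_mul_pow_sub _ (T.ss i (ht hi))]
      push_cast
      rw [abs_mul, abs_pow, abs_pow]
      exact mul_le_mul (pow_le_pow_left₀ (abs_nonneg _) T.sa _)
        (pow_le_pow_left₀ (abs_nonneg _) T.sb _) (by positivity) (by positivity)
    · rw [Int.cast_natCast, Nat.abs_cast, prod_exp T.prime, Real.exp_le_exp]
      have e : ∑ p ∈ P, (((f i + bt x ε σ₀ σ₁) p).toNat : ℝ) * Real.log p ≤
          (σ i - σ₀) * LA P x + (σ₁ - σ i) * LA P (-x) + 2 * ε * Lam P := by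
        rw [LA, LA, Lam, Finset.mul_sum, Finset.mul_sum, Finset.mul_sum, ← Finset.sum_add_distrib,
          ← Finset.sum_add_distrib]
        refine Finset.sum_le_sum fun p hp => ?_
        obtain ⟨e1, e2⟩ := expo T (ht hi) (h0 i hi).1 (h0 i hi).2 hp
        rw [← Int.cast_natCast, Int.toNat_of_nonneg e1]
        linarith [mul_le_mul_of_nonneg_right e2 (log_nonneg p)]
      linarith [mul_le_mul_of_nonneg_left T.ord (sub_nonneg.2 (h0 i hi).2)]

theorem small {Z : ℤ} {A : ℕ} (h1 : (A : ℤ) ∣ Z) (h2 : |(Z : ℝ)| < A) : Z = 0 :=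
  Int.eq_zero_of_abs_lt_dvd h1 (by exact_mod_cast h2)

theorem fin (T : Trm t P x a b c s f σ S h w ε) {β : ℕ → ℤ} {q : ℚ}
    (e : ((0 : ℤ) : ℚ) = (b : ℚ) ^ S * pw P β * q) : q = 0 :=
  (mul_eq_zero.1 (e.symm.trans Int.cast_zero)).resolve_left
    (mul_ne_zero (pow_ne_zero _ (by exact_mod_cast T.hb)) (pw_ne T.prime β))

end SPL

open SPL in
theorem rowSPL : RowSPL := by
  classical
  constructor
  · intro r _ ι t P x a b c s f σ S K h w ε σ₀ n T hr h0 h1 h2
    obtain ⟨Z, e1, e2⟩ := int T subset_rfl h0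
    rw [add_sub_cancel_left] at e2
    have hr0 : (0 : ℝ) < r := by exact_mod_cast (Fact.out : r.Prime).pos
    obtain rfl : Z = 0 := by
      refine small (A := r ^ K) ?_ (e2.trans_lt ?_)
      · rw [Nat.cast_pow, ← Padic.norm_int_le_pow_iff_dvd, ← Rat.cast_intCast, e1, Rat.cast_mul,
          Rat.cast_mul, norm_mul, norm_mul, norm_pw r T.prime, if_neg hr, mul_one]
        refine (mul_le_of_le_one_left (norm_nonneg _) ?_).trans h1
        exact_mod_cast Padic.norm_int_le_one (p := r) (b ^ S)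
      · rwa [Nat.cast_pow, ← Real.exp_log hr0, ← Real.exp_nat_mul, Real.exp_lt_exp]
    exact fin T e1
  · intro ι t P x a b c s f σ S h w ε σ₀ σ₁ γ T h0 h1 hγ h2
    rcases lt_or_ge σ₁ σ₀ with l | l
    · exact Finset.sum_eq_zero fun i hi => absurd ((h0 i (Finset.mem_filter.1 hi).1).1.trans
        (Finset.mem_filter.1 hi).2) l.not_ge
    obtain ⟨Z, e1, e2⟩ := int T (Finset.filter_subset (fun i => σ i ≤ σ₁) t)
      fun i hi => ⟨(h0 i (Finset.mem_filter.1 hi).1).1, (Finset.mem_filter.1 hi).2⟩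
    obtain rfl : Z = 0 := by
      let α : ℕ → ℕ := fun p => ⌊(σ₁ + γ - σ₀) * ((max (x p) 0 : ℤ) : ℝ)⌋₊
      refine small (A := ∏ p ∈ P, p ^ α p) ?_ (e2.trans_lt ?_)
      · rw [Nat.cast_prod]
        refine Finset.prod_dvd_of_coprime (fun p hp q hq e => Nat.isCoprime_iff_coprime.2
          (Nat.coprime_pow_primes _ _ (T.prime p hp) (T.prime q hq) e)) fun p hp => ?_
        by_cases hx : 0 ≤ x p
        swap
        · simp only [α, max_eq_right (not_le.1 hx).le]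
          simp
        have := Fact.mk (T.prime p hp)
        have hp1 : (1 : ℝ) ≤ p := by exact_mod_cast (T.prime p hp).one_le
        rw [← Finset.sum_filter_add_sum_filter_not t fun i => σ i ≤ σ₁, add_eq_zero_iff_eq_neg] at h1
        rw [Nat.cast_pow, ← Padic.norm_int_le_pow_iff_dvd, ← Rat.cast_intCast, e1, h1, mul_neg,
          Rat.cast_neg, norm_neg, Finset.mul_sum, Rat.cast_sum]
        refine IsUltrametricDist.norm_sum_le_of_forall_le_of_nonneg (by positivity) fun i hi => ?_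
        obtain ⟨i1, i2⟩ := Finset.mem_filter.1 hi
        rw [term T _ i1, Rat.cast_mul, norm_mul, norm_pw p T.prime, if_pos hp, Rat.cast_intCast]
        refine (mul_le_of_le_one_left (by positivity) (Padic.norm_int_le_one _)).trans
          (zpow_le_zpow_right₀ hp1 (neg_le_neg (Int.le_of_lt_add_one ?_)))
        have e' : (0 : ℝ) ≤ x p := by exact_mod_cast hx
        have a1 : (α p : ℝ) ≤ (σ₁ + γ - σ₀) * x p := by
          simp only [α, max_eq_left hx]
          exact Nat.floor_le (mul_nonneg (by linarith) e')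
        have a2 := Int.ceil_lt_add_one (σ₀ * x p - ε)
        have a3 := (abs_le.1 (T.near i i1 p hp)).1
        have a4 := mul_le_mul_of_nonneg_right ((h0 i i1).2.resolve_left i2) e'
        rw [← Int.cast_lt (R := ℝ), Pi.add_apply, bt, if_pos hx]
        push_cast
        linarith
      · rw [prod_exp T.prime, Real.exp_lt_exp]
        have e : (σ₁ + γ - σ₀) * LA P x - Lam P ≤ ∑ p ∈ P, (α p : ℝ) * Real.log p := by
          rw [LA, Lam, Finset.mul_sum, ← Finset.sum_sub_distrib]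
          refine Finset.sum_le_sum fun p _ => ?_
          linarith [mul_le_mul_of_nonneg_right
            (Nat.lt_floor_add_one ((σ₁ + γ - σ₀) * ((max (x p) 0 : ℤ) : ℝ))).le (log_nonneg p)]
        have e' : 0 ≤ ε * Lam P := mul_nonneg T.he (Finset.sum_nonneg fun p _ => log_nonneg p)
        linarith
    exact fin T e1

end Pool.Agent.MP_542436_nt.H39
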