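import Pool.Agent.MP_542436_nt.H39.Spec

/-! A polynomial congruence between independent positions. -/

set_option autoImplicit false

namespace Pool.Agent.MP_542436_nt.H39

open MvPolynomial

namespace STR

theorem sum_bound {n : ℕ} {a y : Fin n → ℤ} {G Q T : ℤ} (hQ : 0 ≤ Q) (ha : ∀ i, |a i| ≤ G)
    (hy : ∀ i, Q * |y i| ≤ T) : Q * |∑ i, a i * y i| ≤ n * (G * T) := by
  refine (mul_le_mul_of_nonneg_left (Finset.abs_sum_le_sum_abs _ _) hQ).trans ?_
  rw [Finset.mul_sum]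
  refine (Finset.sum_le_card_nsmul _ _ (G * T) fun i _ => ?_).trans (by simp)
  rw [abs_mul, mul_left_comm]
  exact mul_le_mul (ha i) (hy i) (by positivity) ((abs_nonneg _).trans (ha i))

theorem pw_ne {P : Finset ℕ} (hP : ∀ p ∈ P, p.Prime) (f : ℕ → ℤ) : pw P f ≠ 0 :=
  Finset.prod_ne_zero_iff.2 fun p hp => zpow_ne_zero _ (Nat.cast_ne_zero.2 (hP p hp).ne_zero)

theorem zpow_sum {n : ℕ} {x : ℚ} (hx : x ≠ 0) (f : Fin n → ℤ) :
    x ^ ∑ j, f j = ∏ j, x ^ f j := by
  induction (Finset.univ : Finset (Fin n)) using Finset.induction_on with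
  | empty => simp
  | insert j s hj ih => rw [Finset.sum_insert hj, Finset.prod_insert hj, zpow_add₀ hx, ih]

theorem pw_sum {P : Finset ℕ} (hP : ∀ p ∈ P, p.Prime) {n : ℕ} (a : Fin n → ℤ)
    (e : Fin n → ℕ → ℤ) (g : ℕ → ℤ) (h : ∀ p ∈ P, g p = ∑ j, a j * e j p) :
    pw P g = ∏ j, pw P (e j) ^ a j := by
  simp only [pw, ← Finset.prod_zpow]
  rw [Finset.prod_comm]
  refine Finset.prod_congr rfl fun p hp => ?_
  rw [h p hp, zpow_sum (Nat.cast_ne_zero.2 (hP p hp).ne_zero)]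
  exact Finset.prod_congr rfl fun j _ => by rw [mul_comm, zpow_mul]

theorem norm_pw {r : ℕ} [Fact r.Prime] {P : Finset ℕ} (hP : ∀ p ∈ P, p.Prime) (hr : r ∉ P)
    (f : ℕ → ℤ) : ‖((pw P f : ℚ) : ℚ_[r])‖ = 1 := by
  simp only [pw, Rat.cast_prod, Rat.cast_zpow, Rat.cast_natCast, norm_prod, norm_zpow]
  refine Finset.prod_eq_one fun p hp => ?_
  have hne : r ≠ p := fun h => hr (h ▸ hp)
  rw [Padic.norm_natCast_eq_one_iff.2 ((Nat.coprime_primes Fact.out (hP p hp)).2 hne), one_zpow]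

theorem l1 {ρ n : ℕ} (z : Fin n → Fin ρ →₀ ℕ) (c : Fin n → ℤ) (hc : ∀ i, |c i| = 1)
    (s : Finset (Fin ρ →₀ ℕ)) : ∑ w ∈ s, |coeff w (∑ i, monomial (z i) (c i))| ≤ n := by
  classical
  calc ∑ w ∈ s, |coeff w (∑ i, monomial (z i) (c i))|
      ≤ ∑ w ∈ s, ∑ i, (if z i = w then (1 : ℤ) else 0) := Finset.sum_le_sum fun w _ => by
        rw [coeff_sum]
        refine (Finset.abs_sum_le_sum_abs _ _).trans (Finset.sum_le_sum fun i _ => ?_)
        rw [coeff_monomial]
        split_ifs <;> simp [hc]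
    _ ≤ ∑ _i : Fin n, (1 : ℤ) := by
        rw [Finset.sum_comm]
        refine Finset.sum_le_sum fun i _ => ?_
        rw [Finset.sum_ite_eq]
        split_ifs <;> simp
    _ = n := by simp

end STR

open STR in
theorem rowSTR : RowREL → RowPIG → RowSTR := by
  intro hR hP k Φ
  obtain ⟨G₁, hG⟩ := hR (2 * k) fun G => Φ (2 * G)
  refine ⟨4 * k ^ 2 * G₁ ^ 2 + 2 * k ^ 2 * G₁ + 2 * k * G₁ + 2 * G₁ + 1,
    fun Q M N r _ P x hQ hN hp hr hM => ?_⟩
  obtain ⟨t, g, c, i₀, c1, t1, t2, g1, g2⟩ := hP k Q M N r P x (by omega) hN hp hr hM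
  obtain ⟨ρ, G, A, B, h1, h2, h3, h4, h5, h6⟩ := hG t
  have Q0 : (0 : ℤ) ≤ Q := Int.natCast_nonneg _
  have N0 : (0 : ℤ) < N := by exact_mod_cast hN
  have h2' : (G : ℤ) ≤ G₁ := by exact_mod_cast h2
  have h1' : (ρ : ℤ) ≤ 2 * k := by exact_mod_cast h1
  set κ : Fin ρ → ℤ := fun j => ∑ i, B j i * t i with hκ
  set e : Fin ρ → ℕ → ℤ := fun j p => ∑ i, B j i * g i p with he
  let z : Fin (2 * k) → Fin ρ →₀ ℕ := fun i =>
    Finsupp.equivFunOnFinite.symm fun j => (A i j + G).toNat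
  have z1 : ∀ i j, (z i j : ℤ) = A i j + G := fun i j =>
    Int.toNat_of_nonneg (by linarith [(abs_le.1 (h3 i j)).1])
  have c2 : ∀ i, |c i| = 1 := fun i => by rcases c1 i with h | h <;> simp [h]
  have e1 : ∀ j, ∀ p ∈ P, Q * |N * e j p - κ j * x p| ≤ 2 * k * (G * N) := fun j p hp' => by
    have := sum_bound Q0 (h4 j) fun i => g1 i p hp'
    push_cast at this
    convert this using 3
    simp only [he, hκ, Finset.mul_sum, Finset.sum_mul, ← Finset.sum_sub_distrib]
    exact Finset.sum_congr rfl fun i _ => by ring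
  have e2 : ∀ i, ∀ p ∈ P, g i p = ∑ j, A i j * e j p := fun i p hp' => by
    have a1 := sum_bound Q0 (h3 i) fun j => e1 j p hp'
    have a2 := g1 i p hp'
    have a3 : N * (g i p - ∑ j, A i j * e j p) =
        (N * g i p - t i * x p) - ∑ j, A i j * (N * e j p - κ j * x p) := by
      rw [h5 i]
      simp only [mul_sub, Finset.sum_sub_distrib, Finset.mul_sum, Finset.sum_mul, hκ]
      rw [sub_sub_sub_comm]
      simp only [mul_assoc, mul_left_comm (N : ℤ), sub_self, sub_zero]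
    have a4 := mul_le_mul_of_nonneg_left (abs_sub (N * g i p - t i * x p)
      (∑ j, A i j * (N * e j p - κ j * x p))) Q0
    rw [← a3, abs_mul, abs_of_pos N0, mul_add] at a4
    have a5 : (ρ : ℤ) * (G * (2 * k * (G * N))) ≤ 2 * k * (G₁ * (2 * k * (G₁ * N))) := by gcongr
    have a6 : (4 * k ^ 2 * G₁ ^ 2 + 1 : ℤ) < Q := by
      have : 4 * k ^ 2 * G₁ ^ 2 + 1 < Q := by omega
      exact_mod_cast this
    have a7 := mul_lt_mul_of_pos_right a6 N0
    by_contra q
    have a8 : 1 ≤ |g i p - ∑ j, A i j * e j p| := Int.one_le_abs (sub_ne_zero.2 q)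
    have a9 := mul_le_mul_of_nonneg_left (mul_le_mul_of_nonneg_left a8 N0.le) Q0
    linarith
  refine ⟨ρ, 2 * G, κ, e, ∑ i, monomial (z i) (c i), h1, by omega, fun h0 => ?_,
    fun w hw j => ?_, by exact_mod_cast l1 z c c2 _, fun j => ?_, fun j p hp' => ?_, h6, ?_⟩
  · have := congrArg (coeff (z i₀)) h0
    rw [coeff_sum, Finset.sum_eq_single i₀ (fun i _ hi => ?_) (by simp), coeff_monomial,
      if_pos rfl, coeff_zero] at this
    · simpa [this] using c2 i₀
    · rw [coeff_monomial, if_neg fun q => t1 i hi ?_]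
      rw [h5 i, h5 i₀]
      refine Finset.sum_congr rfl fun j _ => ?_
      have := z1 i j
      rw [q, z1] at this
      rw [add_right_cancel this]
  · obtain ⟨i, -, hi⟩ := Finset.mem_biUnion.1 (support_sum hw)
    obtain rfl := Finset.mem_singleton.1 (support_monomial_subset hi)
    have := z1 i j
    have := (abs_le.1 (h3 i j)).2
    omega
  · have := sum_bound (Q := 1) zero_le_one (h4 j) fun i => (one_mul _).trans_le (t2 i)
    rw [one_mul] at this
    refine this.trans ?_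
    push_cast
    calc (2 * k : ℤ) * (G * (k * M * Q ^ P.card)) = 2 * k ^ 2 * G * M * Q ^ P.card := by ring
      _ ≤ _ := by
        gcongr
        have : (2 * k ^ 2 * G : ℤ) ≤ 2 * k ^ 2 * G₁ := by gcongr
        have : (0 : ℤ) ≤ 4 * k ^ 2 * G₁ ^ 2 + 2 * k * G₁ + 2 * G₁ := by positivity
        linarith
  · refine (e1 j p hp').trans ?_
    push_cast
    rw [← mul_assoc]
    gcongr
    have : (2 * k * G : ℤ) ≤ 2 * k * G₁ := by gcongr
    have : (0 : ℤ) ≤ 4 * k ^ 2 * G₁ ^ 2 + 2 * k ^ 2 * G₁ + 2 * G₁ := by positivity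
    linarith
  · have : aeval (fun j => ((pw P (e j) : ℚ) : ℚ_[r])) (∑ i, monomial (z i) (c i)) =
        (∏ j, ((pw P (e j) : ℚ) : ℚ_[r]) ^ G) * ((∑ i, c i * pw P (g i) : ℚ) : ℚ_[r]) := by
      rw [map_sum, Rat.cast_sum, Finset.mul_sum]
      refine Finset.sum_congr rfl fun i _ => ?_
      rw [aeval_monomial, Finsupp.prod_fintype _ _ fun _ => pow_zero _,
        pw_sum hp (A i) e (g i) (e2 i)]
      push_cast
      rw [mul_left_comm, ← Finset.prod_mul_distrib]
      congr 1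
      refine Finset.prod_congr rfl fun j _ => ?_
      rw [← zpow_natCast, z1, add_comm, zpow_add₀ (Rat.cast_ne_zero.2 (pw_ne hp _)), zpow_natCast]
    rw [this, norm_mul, norm_prod]
    simp only [norm_pow, norm_pw hp hr, one_pow, Finset.prod_const_one, one_mul]
    exact g2

end Pool.Agent.MP_542436_nt.H39
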