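import Pool.Agent.MP_542436_nt.H39.Spec

/-! Expansion along a curve through the generic point of a prime. -/

set_option autoImplicit false

namespace Pool.Agent.MP_542436_nt.H39

open MvPolynomial

namespace TAY

variable {ρ : ℕ} {A : Type} [CommRing A] (φ : Rg ρ →+* A)

/-- translation to the generic point -/
noncomputable def sh : Rg ρ →+* MvPolynomial (Option (Fin ρ)) A :=
  eval₂Hom (C.comp (φ.comp C)) fun v => C (φ (X v)) + X v

theorem sh_C (a : ℂ) : sh φ (C a) = C (φ (C a)) := eval₂Hom_C _ _ _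

theorem sh_X (v : Option (Fin ρ)) : sh φ (X v) = C (φ (X v)) + X v :=
  eval₂Hom_X' _ _ _

theorem sh_pderiv (v : Option (Fin ρ)) (f : Rg ρ) : pderiv v (sh φ f) = sh φ (pderiv v f) := by
  induction f using MvPolynomial.induction_on with
  | C a => rw [sh_C, pderiv_C, pderiv_C, map_zero]
  | add f g hf hg => simp only [map_add, hf, hg]
  | mul_X f u hf =>
    rw [map_mul, pderiv_mul, pderiv_mul, hf, map_add, map_mul, map_mul, sh_X, map_add, pderiv_C,
      zero_add]
    obtain rfl | h := eq_or_ne u v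
    · rw [pderiv_X_self, pderiv_X_self, map_one]
    · rw [pderiv_X_of_ne h, pderiv_X_of_ne h, map_zero]

theorem sh_const (f : Rg ρ) : constantCoeff (sh φ f) = φ f :=
  RingHom.congr_fun (f := constantCoeff.comp (sh φ)) (MvPolynomial.ringHom_ext
    (fun a => by rw [RingHom.comp_apply, sh_C, constantCoeff_C])
    fun v => by rw [RingHom.comp_apply, sh_X, map_add, constantCoeff_C, constantCoeff_X, add_zero]) f

theorem sh_coeff [IsDomain A] [CharZero A] (n : ℕ) (f : Rg ρ) (μ : Option (Fin ρ) →₀ ℕ) (h0 : μ none = 0)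
    (hn : μ.degree = n) (h : ∀ l : List (Fin ρ), l.length = n → φ (Dl l f) = 0) :
    coeff μ (sh φ f) = 0 := by
  induction n generalizing f μ with
  | zero =>
    rw [(Finsupp.degree_eq_zero_iff μ).1 hn]
    exact (sh_const φ f).trans (h [] rfl)
  | succ n ih =>
    obtain ⟨v, hv⟩ := Finsupp.support_nonempty_iff.2 (show μ ≠ 0 by
      rintro rfl
      simp at hn)
    have hv' := Finsupp.mem_support_iff.1 hv
    obtain ⟨μ', rfl⟩ := exists_add_of_le (Finsupp.single_le_iff.2 (Nat.one_le_iff_ne_zero.2 hv'))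
    cases v with
    | none => exact absurd h0 hv'
    | some i =>
      have h1 := ih (pderiv (some i) f) μ' (by simpa using h0) (by
        rw [map_add, Finsupp.degree_single] at hn
        omega) fun l hl => by
          have h2 := h (l ++ [i]) (by simp [hl])
          rwa [Dl, List.foldr_append] at h2
      rw [← sh_pderiv, coeff_pderiv, add_comm μ'] at h1
      exact (mul_eq_zero.1 h1).resolve_right (Nat.cast_add_one_ne_zero _)

variable (ε : Option (Fin ρ) → Polynomial A)

/-- the expansion -/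
noncomputable def tt : Rg ρ →+* Polynomial A := (eval₂Hom Polynomial.C ε).comp (sh φ)

theorem tt_C (a : ℂ) : tt φ ε (C a) = Polynomial.C (φ (C a)) := by
  rw [tt, RingHom.comp_apply, sh_C, eval₂Hom_C]

theorem tt_X (v : Option (Fin ρ)) :
    tt φ ε (X v) = Polynomial.C (φ (X v)) + ε v := by
  rw [tt, RingHom.comp_apply, sh_X, map_add, eval₂Hom_C, eval₂Hom_X']

theorem tt_ord [IsDomain A] [CharZero A] {z : Polynomial A} {θ : ℕ} (h1 : ∀ v, z ∣ ε v)
    (h2 : z ^ θ ∣ ε none) (f : Rg ρ)
    (hf : ∀ l : List (Fin ρ), l.length < θ → φ (Dl l f) = 0) : z ^ θ ∣ tt φ ε f := by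
  rw [tt, RingHom.comp_apply, (sh φ f).as_sum, map_sum]
  refine Finset.dvd_sum fun μ hμ => ?_
  rw [eval₂Hom_monomial]
  refine Dvd.dvd.mul_left ?_ _
  by_cases h0 : μ none = 0
  · have h3 : θ ≤ μ.degree := not_lt.1 fun h => mem_support_iff.1 hμ
      (sh_coeff φ _ f μ h0 rfl fun l hl => hf l (hl.trans_lt h))
    refine (pow_dvd_pow z h3).trans ?_
    rw [Finsupp.degree_apply, ← Finset.prod_pow_eq_pow_sum]
    exact Finset.prod_dvd_prod_of_dvd _ _ fun v _ => pow_dvd_pow_of_dvd (h1 v) _
  · exact (h2.trans (dvd_pow_self _ h0)).trans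
      (Finset.dvd_prod_of_mem (fun v => ε v ^ μ v) (Finsupp.mem_support_iff.2 h0))

/-- the first order term -/
noncomputable def dd (S : Finset (Fin ρ)) (e : Fin ρ → Polynomial A) (f : Rg ρ) :
    Polynomial A :=
  ∑ i ∈ S, Polynomial.C (φ (pderiv (some i) f)) * e i

theorem tt_two {z : Polynomial A} (S : Finset (Fin ρ))
    (e : Fin ρ → Polynomial A) (h1 : ∀ v, z ∣ ε v) (h2 : ∀ i, z ∣ e i)
    (h3 : ∀ v, z ^ 2 ∣ ε v - dd φ S e (X v)) (f : Rg ρ) :
    z ^ 2 ∣ tt φ ε f - Polynomial.C (φ f) - dd φ S e f := by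
  induction f using MvPolynomial.induction_on with
  | C a => simp [tt_C, dd]
  | add f g hf hg =>
    refine (dvd_add hf hg).trans (dvd_of_eq ?_)
    simp only [dd, map_add, add_mul, Finset.sum_add_distrib]
    ring
  | mul_X f u hf =>
    have h4 : z ∣ dd φ S e f := Finset.dvd_sum fun i _ =>
      Dvd.dvd.mul_left (h2 i) _
    have h5 : z ^ 2 ∣ dd φ S e f * ε u := by
      rw [pow_two]
      exact mul_dvd_mul h4 (h1 u)
    have h6 : dd φ S e (f * X u) = dd φ S e f * Polynomial.C (φ (X u)) +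
        Polynomial.C (φ f) * dd φ S e (X u) := by
      simp only [dd, pderiv_mul, map_add, map_mul, Finset.sum_mul, Finset.mul_sum,
        ← Finset.sum_add_distrib]
      exact Finset.sum_congr rfl fun i _ => by ring
    refine (dvd_add (dvd_add (hf.mul_right (tt φ ε (X u)))
      ((h3 u).mul_left (Polynomial.C (φ f)))) h5).trans (dvd_of_eq ?_)
    rw [h6, map_mul, map_mul, map_mul, tt_X]
    ring

end TAY

open TAY in
theorem rowTAY : RowTAY := by
  intro ρ 𝔭 _ S w w' Ω θ h1 hw h2 h3
  let ε : Option (Fin ρ) → Polynomial (Rg ρ ⧸ 𝔭) := fun v =>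
    v.elim (Polynomial.X ^ w') fun i => if i ∈ S then Polynomial.X ^ w i else 0
  have e1 : ∀ v, Polynomial.X ^ Ω ∣ ε v := fun v => by
    cases v with
    | none => exact pow_dvd_pow _ (by omega)
    | some i =>
      by_cases h : i ∈ S
      · exact (pow_dvd_pow _ (hw i)).trans (dvd_of_eq (if_pos h).symm)
      · exact (dvd_zero _).trans (dvd_of_eq (if_neg h).symm)
  refine ⟨tt (Ideal.Quotient.mk 𝔭) ε, fun f => ?_, ?_, fun f hf => ?_, fun f => ?_⟩
  · refine RingHom.congr_fun (f := Polynomial.constantCoeff.comp (tt (Ideal.Quotient.mk 𝔭) ε))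
      (MvPolynomial.ringHom_ext (fun a => ?_) fun v => ?_) f
    · rw [RingHom.comp_apply, tt_C, Polynomial.constantCoeff_apply, Polynomial.coeff_C_zero]
    · rw [RingHom.comp_apply, tt_X, Polynomial.constantCoeff_apply, Polynomial.coeff_add,
        Polynomial.coeff_C_zero, Polynomial.X_pow_dvd_iff.1 (e1 v) 0 h1, add_zero]
  · rw [map_sub, map_sub, map_sub, tt_X, map_one, map_one, map_one]
    exact add_sub_right_comm _ _ _
  · have : CharZero (Rg ρ ⧸ 𝔭) :=
      charZero_of_injective_algebraMap (algebraMap ℂ (Rg ρ ⧸ 𝔭)).injective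
    rw [mul_comm, pow_mul]
    exact tt_ord _ ε e1 (by
      rw [← pow_mul]
      exact pow_dvd_pow _ ((mul_comm _ _).trans_le h2)) f
        fun l hl => Ideal.Quotient.eq_zero_iff_mem.2 (hf l hl)
  · rw [mul_comm, pow_mul]
    refine tt_two _ ε S _ e1 (fun i => pow_dvd_pow _ (hw i)) (fun v => ?_) f
    cases v with
    | none =>
      rw [dd, Finset.sum_eq_zero fun i _ => by
        rw [pderiv_X_of_ne (Option.some_ne_none i).symm, map_zero, map_zero, zero_mul], sub_zero,
        ← pow_mul]
      exact pow_dvd_pow _ ((mul_comm _ _).trans_le h3)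
    | some j =>
      have : dd (Ideal.Quotient.mk 𝔭) S (fun i => Polynomial.X ^ w i) (X (some j)) = ε (some j) := by
        refine (Finset.sum_congr rfl fun i _ => ?_).trans (Finset.sum_ite_eq S j fun _ => Polynomial.X ^ w j)
        split_ifs with h
        · rw [h, pderiv_X_self, map_one, map_one, one_mul]
        · rw [pderiv_X_of_ne fun h' => h (Option.some.inj h'), map_zero, map_zero, zero_mul]
      rw [this, sub_self]
      exact dvd_zero _

end Pool.Agent.MP_542436_nt.H39
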