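import Pool.Agent.MP_542436_nt.H39.Spec

/-! The variable `y` stays transcendental over an algebraic extension. -/

set_option autoImplicit false

namespace Pool.Agent.MP_542436_nt.H39

open MvPolynomial

namespace TRA

theorem aev {ρ : ℕ} (𝔭 : Ideal (Rg ρ)) (V : Set (Option (Fin ρ))) (p : MvPolynomial V ℂ) :
    aeval (fun v : V => Ideal.Quotient.mk 𝔭 (X (v : Option (Fin ρ)))) p =
      Ideal.Quotient.mk 𝔭 (rename ((↑) : V → _) p) := by
  have : aeval (fun v : V => Ideal.Quotient.mk 𝔭 (X (v : Option (Fin ρ)))) =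
      (Ideal.Quotient.mkₐ ℂ 𝔭).comp (rename ((↑) : V → _)) := by
    ext v
    simp
  rw [this]
  rfl

theorem ind_iff {ρ : ℕ} (𝔭 : Ideal (Rg ρ)) (V : Finset (Option (Fin ρ))) :
    Ind 𝔭 V ↔ AlgebraicIndepOn ℂ (fun v => Ideal.Quotient.mk 𝔭 (X v)) (V : Set _) := by
  rw [AlgebraicIndepOn, algebraicIndependent_iff]
  constructor
  · intro h p hp
    rw [aev, Ideal.Quotient.eq_zero_iff_mem] at hp
    have : rename Subtype.val p ∈ supported ℂ (V : Set (Option (Fin ρ))) := by
      rw [supported_eq_range_rename]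
      exact ⟨p, rfl⟩
    have := h _ hp (by exact_mod_cast mem_supported.1 this)
    exact rename_injective _ Subtype.val_injective (this.trans (map_zero _).symm)
  · intro h f hf hv
    have : f ∈ supported ℂ (V : Set _) := mem_supported.2 (by exact_mod_cast hv)
    rw [supported_eq_range_rename] at this
    obtain ⟨p, rfl⟩ := this
    have := h p (by rw [aev]; exact Ideal.Quotient.eq_zero_iff_mem.2 hf)
    simp [this]

end TRA

theorem rowTRA : RowTRA := by
  classical
  intro ρ 𝔭 J i hp h1 h2 s c hc hs w hw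
  rw [TRA.ind_iff] at h1 h2
  set x : Option (Fin ρ) → Rg ρ ⧸ 𝔭 := fun v => Ideal.Quotient.mk 𝔭 (X v) with hx
  rw [Finset.coe_insert, AlgebraicIndepOn.insert_iff (by simp [xs])] at h1
  have e : (xs (insert i J) : Set (Option (Fin ρ))) = insert (some i) (xs J : Set _) := by
    simp [xs]
  have hi : some i ∉ (xs J : Set (Option (Fin ρ))) := fun k => h2 (by
    rw [e, Set.insert_eq_of_mem k]; exact h1.1)
  rw [e, AlgebraicIndepOn.insert_iff hi, not_and, Transcendental, not_not] at h2
  have tr : Transcendental (Algebra.adjoin ℂ (x '' (xs (insert i J) : Set _))) (x none) := fun a =>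
    h1.2 (a.adjoin_of_forall_isAlgebraic fun y hy => by
      rw [e, Set.image_insert_eq] at hy
      obtain rfl := hy.1.resolve_right hy.2
      exact h2 h1.1)
  have mem : ∀ w ∈ s, Ideal.Quotient.mk 𝔭 (c w) ∈
      Algebra.adjoin ℂ (x '' (xs (insert i J) : Set _)) := fun w hw => by
    have : c w ∈ supported ℂ (xs (insert i J) : Set _) := mem_supported.2 (by exact_mod_cast hc w hw)
    have := Subalgebra.mem_map.2 ⟨_, this, rfl (a := Ideal.Quotient.mkₐ ℂ 𝔭 (c w))⟩
    rwa [supported_eq_adjoin_X, AlgHom.map_adjoin, Set.image_image] at this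
  have z := transcendental_iff.1 tr
    (∑ w ∈ s.attach, Polynomial.monomial w.1 ⟨_, mem w.1 w.2⟩) (by
      rw [← Ideal.Quotient.eq_zero_iff_mem, ← Finset.sum_attach, map_sum] at hs
      rw [map_sum, ← hs]
      refine Finset.sum_congr rfl fun w _ => ?_
      simp [Polynomial.aeval_monomial, hx])
  have := congrArg (Polynomial.coeff · w) z
  simp only [Polynomial.finsetSum_coeff, Polynomial.coeff_monomial] at this
  rw [Finset.sum_eq_single ⟨w, hw⟩ (fun b _ hb => if_neg fun k => hb (Subtype.ext k))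
    (fun k => absurd (Finset.mem_attach _ _) k), if_pos rfl] at this
  exact Ideal.Quotient.eq_zero_iff_mem.1 (congrArg Subtype.val this)

end Pool.Agent.MP_542436_nt.H39
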