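import Pool.Agent.MP_542436_nt.H39.Spec

/-! A transcendence basis among the variables and the minimal equations over it. -/

set_option autoImplicit false

namespace Pool.Agent.MP_542436_nt.H39

open MvPolynomial

namespace TRI

variable {ρ : ℕ}

theorem supp_pderiv {f : Rg ρ} {v : Option (Fin ρ)} {μ : Option (Fin ρ) →₀ ℕ}
    (h : μ ∈ (pderiv v f).support) : μ + Finsupp.single v 1 ∈ f.support := by
  rw [mem_support_iff, coeff_pderiv] at h
  exact mem_support_iff.2 (left_ne_zero_of_mul h)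

theorem vars_pderiv (f : Rg ρ) (v : Option (Fin ρ)) : (pderiv v f).vars ⊆ f.vars := by
  intro w hw
  obtain ⟨μ, hμ, hw⟩ := (mem_vars_iff_mem_support w).1 hw
  refine (mem_vars_iff_mem_support w).2 ⟨_, supp_pderiv hμ, ?_⟩
  rw [Finsupp.mem_support_iff] at hw ⊢
  rw [Finsupp.add_apply]
  omega

theorem deg_pderiv {f : Rg ρ} {v : Option (Fin ρ)} (h : pderiv v f ≠ 0) :
    (pderiv v f).totalDegree < f.totalDegree := by
  obtain ⟨μ, hμ, he⟩ := Finset.exists_mem_eq_sup (pderiv v f).support (support_nonempty.2 h)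
    (fun s : Option (Fin ρ) →₀ ℕ => s.sum fun _ e => e)
  have h1 := le_totalDegree (supp_pderiv hμ)
  rw [Finsupp.sum_add_index' (fun _ => rfl) (fun _ _ _ => rfl), Finsupp.sum_single_index rfl] at h1
  have h2 : (pderiv v f).totalDegree = μ.sum fun _ e => e := he
  omega

theorem notMem_vars {f : Rg ρ} {v : Option (Fin ρ)} (h : pderiv v f = 0) : v ∉ f.vars := by
  intro hv
  obtain ⟨μ, hμ, hv⟩ := (mem_vars_iff_mem_support v).1 hv
  have h1 := coeff_pderiv (i := v) f (μ - Finsupp.single v 1)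
  rw [h, coeff_zero, tsub_add_cancel_of_le (Finsupp.single_le_iff.2
    (Nat.one_le_iff_ne_zero.2 (Finsupp.mem_support_iff.1 hv)))] at h1
  exact mul_ne_zero (mem_support_iff.1 hμ) (Nat.cast_add_one_ne_zero _) h1.symm

theorem minimal {𝔭 : Ideal (Rg ρ)} {V : Finset (Option (Fin ρ))} (h : ¬ Ind 𝔭 V) :
    ∃ f ∈ 𝔭, f ≠ 0 ∧ f.vars ⊆ V ∧ ∀ v ∈ f.vars, pderiv v f ∉ 𝔭 := by
  classical
  have hex : ∃ n, ∃ f ∈ 𝔭, f ≠ 0 ∧ f.vars ⊆ V ∧ f.totalDegree = n := by
    by_contra hc
    apply h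
    intro f hf hV
    by_contra h0
    exact hc ⟨_, f, hf, h0, hV, rfl⟩
  obtain ⟨f, hf, h0, hV, hn⟩ := Nat.find_spec hex
  refine ⟨f, hf, h0, hV, fun v hv hp => ?_⟩
  have hne : pderiv v f ≠ 0 := fun hz => notMem_vars hz hv
  exact Nat.find_min hex (hn ▸ deg_pderiv hne)
    ⟨_, hp, hne, (vars_pderiv f v).trans hV, rfl⟩

theorem mem_xs {J : Finset (Fin ρ)} {i : Fin ρ} : some i ∈ xs J ↔ i ∈ J := by
  simp [xs]

theorem none_xs (J : Finset (Fin ρ)) : none ∉ xs J := by
  simp [xs]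

theorem ind_empty {𝔭 : Ideal (Rg ρ)} (h1 : ∀ f ∈ 𝔭, eval 1 f = 0) : Ind 𝔭 (xs ∅) := by
  intro f hf hV
  have h2 : f.vars = ∅ := by simpa [xs] using hV
  have h3 := vars_eq_empty_iff_eq_C.1 h2
  have h4 := h1 f hf
  rw [h3, eval_C] at h4
  rw [h3, h4, C_0]

theorem only_y {𝔭 : Ideal (Rg ρ)} (hp : 𝔭.IsPrime) (h1 : ∀ f ∈ 𝔭, eval 1 f = 0) {g : Rg ρ}
    (hg : g ∈ 𝔭) (h0 : g ≠ 0) (hV : ∀ v ∈ g.vars, v = none) : (X none - 1 : Rg ρ) ∈ 𝔭 := by
  let φ : Rg ρ →ₐ[ℂ] Polynomial ℂ := aeval fun _ => Polynomial.X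
  let ψ : Polynomial ℂ →ₐ[ℂ] Rg ρ := Polynomial.aeval (X none)
  have hψ : ψ (φ g) = g := by
    have := hom_congr_vars (f₁ := ((ψ.comp φ : Rg ρ →ₐ[ℂ] Rg ρ) : Rg ρ →+* Rg ρ))
      (f₂ := RingHom.id _) (p₁ := g) (p₂ := g) (by ext c : 1; simp [φ, ψ])
      (fun i hi _ => by rw [hV i hi]; simp [φ, ψ]) rfl
    simpa using this
  haveI := hp
  have hne : 𝔭.comap ψ ≠ ⊥ := by
    intro hb
    have h2 : φ g ∈ 𝔭.comap ψ := by
      rw [Ideal.mem_comap, hψ]
      exact hg
    rw [hb, Ideal.mem_bot] at h2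
    rw [h2, map_zero] at hψ
    exact h0 hψ.symm
  have hmax : (𝔭.comap ψ).IsMaximal := IsPrime.to_maximal_ideal hne
  have hle : 𝔭.comap ψ ≤ RingHom.ker (Polynomial.evalRingHom (1 : ℂ)) := by
    intro q hq
    have h2 := h1 _ (Ideal.mem_comap.1 hq)
    have h3 : ((eval 1 : Rg ρ →+* ℂ).comp (ψ : Polynomial ℂ →+* Rg ρ)) =
        Polynomial.evalRingHom (1 : ℂ) := by
      ext c <;> simp [ψ]
    rw [RingHom.mem_ker, ← h3]
    exact h2
  have heq := hmax.eq_of_le (RingHom.ker_ne_top _) hle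
  have h4 : (Polynomial.X - 1 : Polynomial ℂ) ∈ 𝔭.comap ψ := by
    rw [heq, RingHom.mem_ker]
    simp
  simpa [ψ] using Ideal.mem_comap.1 h4

end TRI

open TRI in
theorem rowTRI : RowTRI := by
  classical
  intro ρ 𝔭 hp h1
  obtain ⟨J, hJ, hmax⟩ := Finset.exists_max_image
    (Finset.univ.filter fun J : Finset (Fin ρ) => Ind 𝔭 (xs J)) Finset.card
    ⟨∅, Finset.mem_filter.2 ⟨Finset.mem_univ _, ind_empty h1⟩⟩
  have hJ' : Ind 𝔭 (xs J) := (Finset.mem_filter.1 hJ).2
  have hnot : ∀ i ∉ J, ¬ Ind 𝔭 (xs (insert i J)) := by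
    intro i hi h
    have := hmax _ (Finset.mem_filter.2 ⟨Finset.mem_univ _, h⟩)
    rw [Finset.card_insert_of_notMem hi] at this
    omega
  have hπ : ∀ i : Fin ρ, ∃ f : Rg ρ, i ∉ J → f ∈ 𝔭 ∧ pderiv (some i) f ∉ 𝔭 ∧
      ∀ i' ∉ J, i' ≠ i → pderiv (some i') f ∈ 𝔭 := by
    intro i
    by_cases hi : i ∈ J
    · exact ⟨0, fun h => absurd hi h⟩
    obtain ⟨f, hf, h0, hV, hd⟩ := minimal (hnot i hi)
    refine ⟨f, fun _ => ⟨hf, hd _ ?_, fun i' hi' hne => ?_⟩⟩
    · by_contra hv
      refine h0 (hJ' f hf fun v hv' => ?_)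
      have h2 := hV hv'
      cases v with
      | none => exact absurd h2 (none_xs _)
      | some j =>
        rcases Finset.mem_insert.1 (mem_xs.1 h2) with rfl | hj
        · exact absurd hv' hv
        · exact mem_xs.2 hj
    · rw [pderiv_eq_zero_of_notMem_vars]
      · exact 𝔭.zero_mem
      · intro hv
        rcases Finset.mem_insert.1 (mem_xs.1 (hV hv)) with h | h
        · exact hne h
        · exact hi' h
  choose π hπ using hπ
  have hcard : (Jᶜ).card = ρ - J.card := by rw [Finset.card_compl, Fintype.card_fin]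
  refine ⟨J, hJ', hnot, ⟨Jᶜ, π, Fin.val, hcard, Fin.val_injective, fun i hi => ?_⟩, ?_⟩
  · have h := hπ i (Finset.mem_compl.1 hi)
    exact ⟨h.1, h.2.1, fun i' hi' hne => Or.inl (h.2.2 i' (Finset.mem_compl.1 hi') hne)⟩
  by_cases hy : Ind 𝔭 (insert none (xs J))
  · exact Or.inl hy
  right
  obtain ⟨g, hg, h0, hV, hd⟩ := minimal hy
  by_cases hj : ∃ j, some j ∈ g.vars
  · right
    obtain ⟨j, hj⟩ := hj
    have hin : ∀ i, some i ∈ g.vars → i ∈ J := fun i hi => by
      rcases Finset.mem_insert.1 (hV hi) with h | h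
      · exact absurd h (Option.some_ne_none i)
      · exact mem_xs.1 h
    have hjJ : j ∈ J := hin j hj
    refine ⟨insert j Jᶜ, fun i => if i = j then g else π i, fun i => if i = j then ρ else i.val,
      ?_, ?_, ?_⟩
    · rw [Finset.card_insert_of_notMem (by simpa using hjJ), hcard]
    · intro a b hab
      have ha := a.2
      have hb := b.2
      by_cases h2 : a = j <;> by_cases h3 : b = j
      · rw [h2, h3]
      · simp only [h2, h3, if_true, if_false] at hab
        omega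
      · simp only [h2, h3, if_true, if_false] at hab
        omega
      · simp only [h2, h3, if_false] at hab
        exact Fin.ext hab
    · intro i hi
      by_cases h2 : i = j
      · subst h2
        simp only [if_true]
        refine ⟨hg, hd _ hj, fun i' hi' hne => Or.inl ?_⟩
        rw [pderiv_eq_zero_of_notMem_vars]
        · exact 𝔭.zero_mem
        · intro hv
          rcases Finset.mem_insert.1 hi' with h | h
          · exact hne h
          · exact Finset.mem_compl.1 h (hin i' hv)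
      · have hi2 : i ∉ J := by
          rcases Finset.mem_insert.1 hi with h | h
          · exact absurd h h2
          · exact Finset.mem_compl.1 h
        have h := hπ i hi2
        simp only [h2, if_false]
        refine ⟨h.1, h.2.1, fun i' hi' hne => ?_⟩
        by_cases h3 : i' = j
        · right
          simp only [h3, if_true]
          exact i.2
        · left
          rcases Finset.mem_insert.1 hi' with h4 | h4
          · exact absurd h4 h3
          · exact h.2.2 i' (Finset.mem_compl.1 h4) hne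
  · left
    refine only_y hp h1 hg h0 fun v hv => ?_
    cases v with
    | none => rfl
    | some i => exact absurd ⟨i, hv⟩ hj

end Pool.Agent.MP_542436_nt.H39
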