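import Pool.Agent.MP_542436_nt.H39.Spec

/-! Homogeneous polynomials in a box. -/

set_option autoImplicit false

namespace Pool.Agent.MP_542436_nt.H39

open MvPolynomial

namespace UP

theorem weight_eq {ρ N : ℕ} (κ : Fin ρ → ZMod N) (μ : Option (Fin ρ) →₀ ℕ) :
    Finsupp.weight (wt κ) μ = (μ none : ZMod N) + ∑ i, μ (some i) • κ i := by
  rw [Finsupp.weight_apply, Finsupp.sum_fintype _ _ (by simp), Fintype.sum_option]
  simp [wt]

theorem card_le {ρ N : ℕ} (κ : Fin ρ → ZMod N) (c : ZMod N) (a b : ℕ)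
    (s : Finset (Option (Fin ρ) →₀ ℕ))
    (h : ∀ μ ∈ s, Finsupp.weight (wt κ) μ = c ∧ (∀ i, μ (some i) ≤ a) ∧ μ none ≤ b) :
    s.card ≤ (a + 1) ^ ρ * (b / N + 1) := by
  have h1 := Finset.card_le_card_of_injOn (s := s)
    (t := (Fintype.piFinset fun _ : Fin ρ => Finset.range (a + 1)) ×ˢ Finset.range (b / N + 1))
    (fun μ => (fun i => μ (some i), μ none / N)) (fun μ hμ => ?_) fun μ hμ μ' hμ' e => ?_
  · simpa using h1
  · obtain ⟨-, h2, h3⟩ := h μ hμ
    rw [Finset.mem_coe, Finset.mem_product, Fintype.mem_piFinset]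
    exact ⟨fun i => Finset.mem_range.2 (Nat.lt_succ_of_le (h2 i)),
      Finset.mem_range.2 (Nat.lt_succ_of_le (Nat.div_le_div_right h3))⟩
  · have e1 : ∀ i, μ (some i) = μ' (some i) := congrFun (congrArg Prod.fst e)
    have e2 : μ none / N = μ' none / N := congrArg Prod.snd e
    have e3 := (h μ hμ).1.trans (h μ' hμ').1.symm
    rw [weight_eq, weight_eq, Finset.sum_congr rfl fun i _ => by rw [e1 i], add_left_inj,
      ZMod.natCast_eq_natCast_iff'] at e3
    ext v
    cases v with
    | none => rw [← Nat.div_add_mod (μ none) N, ← Nat.div_add_mod (μ' none) N, e2, e3]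
    | some i => exact e1 i

end UP

theorem rowUP : RowUP := by
  classical
  intro ρ N _ κ c a b ι _ f hf h
  let s : Finset (Option (Fin ρ) →₀ ℕ) := Finset.univ.biUnion fun i => (f i).support
  have h1 := UP.card_le κ c a b s fun μ hμ => by
    obtain ⟨i, -, hi⟩ := Finset.mem_biUnion.1 hμ
    exact ⟨(h i).1 (mem_support_iff.1 hi), (h i).2 μ hi⟩
  let w : Finset (Rg ρ) := s.image fun μ => monomial μ 1
  have h2 := linearIndependent_le_span_aux' f hf (w : Set (Rg ρ)) (by
    rintro _ ⟨i, rfl⟩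
    rw [(f i).as_sum]
    refine Submodule.sum_mem _ fun μ hμ => ?_
    have e : monomial μ (coeff μ (f i)) = coeff μ (f i) • (monomial μ 1 : Rg ρ) := by
      rw [smul_monomial, smul_eq_mul, mul_one]
    rw [e]
    exact Submodule.smul_mem _ _ (Submodule.subset_span (Finset.mem_coe.2
      (Finset.mem_image_of_mem _ (Finset.mem_biUnion.2 ⟨i, Finset.mem_univ _, hμ⟩)))))
  exact (h2.trans_eq (Fintype.card_coe w)).trans (Finset.card_image_le.trans h1)

end Pool.Agent.MP_542436_nt.H39
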