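import Pool.Agent.MP_542436_nt.H39.Spec

/-! Many values of a valuation. -/

set_option autoImplicit false

namespace Pool.Agent.MP_542436_nt.H39

open MvPolynomial

namespace VAL

theorem dig {ι : Type} [Fintype ι] {B M : ℕ} (hB : 0 < B) (pl : ι → Fin M)
    (h : Function.Injective pl) (a : ι → Fin B) : ∑ i, (a i : ℕ) * B ^ (pl i : ℕ) =
      finFunctionFinEquiv (Function.extend pl a fun _ => ⟨0, hB⟩) := by
  rw [finFunctionFinEquiv_apply]
  refine Fintype.sum_of_injective pl h _ _ (fun k hk => ?_) fun i => by rw [h.extend_apply]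
  rw [Function.extend_apply' _ _ _ hk, zero_mul]

theorem dig_lt {ι : Type} [Fintype ι] {B M : ℕ} (hB : 0 < B) (pl : ι → ℕ) (hM : ∀ i, pl i < M)
    (h : Function.Injective pl) (a : ι → ℕ) (ha : ∀ i, a i < B) : ∑ i, a i * B ^ pl i < B ^ M :=
  (dig hB (fun i => ⟨pl i, hM i⟩) (fun _ _ e => h (Fin.mk.inj e)) fun i => ⟨a i, ha i⟩).trans_lt
    (Fin.is_lt _)

theorem dig_inj {ι : Type} [Fintype ι] {B M : ℕ} (hB : 0 < B) (pl : ι → ℕ) (hM : ∀ i, pl i < M)
    (h : Function.Injective pl) (a a' : ι → ℕ) (ha : ∀ i, a i < B) (ha' : ∀ i, a' i < B)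
    (e : ∑ i, a i * B ^ pl i = ∑ i, a' i * B ^ pl i) (i : ι) : a i = a' i := by
  have hi : Function.Injective fun i => (⟨pl i, hM i⟩ : Fin M) := fun _ _ e => h (Fin.mk.inj e)
  have := congrFun (finFunctionFinEquiv.injective (Fin.ext
    ((dig hB _ hi fun i => ⟨a i, ha i⟩).symm.trans
      (e.trans (dig hB _ hi fun i => ⟨a' i, ha' i⟩))))) ⟨pl i, hM i⟩
  rw [hi.extend_apply, hi.extend_apply] at this
  exact Fin.mk.inj this

variable {R A : Type} [CommRing R] [CommRing A] [IsDomain A] {T : R →+* Polynomial A}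

variable (T) in
/-- exact order of vanishing -/
def Ex (v : ℕ) (f : R) : Prop := ∃ q, T f = Polynomial.X ^ v * q ∧ q.coeff 0 ≠ 0

theorem Ex.one : Ex T 0 1 := ⟨1, by simp, by simp⟩

theorem Ex.mul {v v' : ℕ} {f g : R} (h : Ex T v f) (h' : Ex T v' g) : Ex T (v + v') (f * g) := by
  obtain ⟨q, h1, h2⟩ := h
  obtain ⟨q', h3, h4⟩ := h'
  exact ⟨q * q', by rw [map_mul, h1, h3]; ring, by
    rw [Polynomial.mul_coeff_zero]; exact mul_ne_zero h2 h4⟩

theorem Ex.pow {v : ℕ} {f : R} (h : Ex T v f) (a : ℕ) : Ex T (a * v) (f ^ a) := by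
  induction a with
  | zero => simpa using Ex.one
  | succ a ih => rw [pow_succ, add_mul, one_mul]; exact ih.mul h

theorem Ex.prod {ι : Type} (s : Finset ι) {v : ι → ℕ} {f : ι → R} (h : ∀ i, Ex T (v i) (f i)) :
    Ex T (∑ i ∈ s, v i) (∏ i ∈ s, f i) := by
  induction s using Finset.cons_induction with
  | empty => exact Ex.one
  | cons i s hi ih => rw [Finset.sum_cons, Finset.prod_cons]; exact (h i).mul ih

theorem Ex.ne {v : ℕ} {f : R} (h : Ex T v f) :
    (Ideal.span {Polynomial.X ^ (v + 1)}).comap T ≠ (Ideal.span {Polynomial.X ^ v}).comap T := by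
  obtain ⟨q, h1, h2⟩ := h
  intro e
  have : f ∈ (Ideal.span {Polynomial.X ^ v}).comap T := Ideal.mem_span_singleton.2 ⟨q, h1⟩
  rw [← e, Ideal.mem_comap, Ideal.mem_span_singleton, h1, pow_succ,
    mul_dvd_mul_iff_left (pow_ne_zero _ Polynomial.X_ne_zero), Polynomial.X_dvd_iff] at this
  exact h2 this

omit [IsDomain A] in
theorem Ex.of {v : ℕ} {f : R} {a : A} (ha : a ≠ 0)
    (h : Polynomial.X ^ (v + 1) ∣ T f - Polynomial.C a * Polynomial.X ^ v) : Ex T v f := by
  obtain ⟨r, hr⟩ := h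
  exact ⟨Polynomial.C a + Polynomial.X * r, by linear_combination hr, by simpa using ha⟩

omit [IsDomain A] in
theorem mono {v v' : ℕ} (h : v ≤ v') :
    (Ideal.span {Polynomial.X ^ v'}).comap T ≤ (Ideal.span {Polynomial.X ^ v}).comap T :=
  Ideal.comap_mono (Ideal.span_singleton_le_span_singleton.2 (pow_dvd_pow _ h))

theorem cancel {v : ℕ} {h f : R} (hh : (T h).coeff 0 ≠ 0)
    (hf : h * f ∈ (Ideal.span {Polynomial.X ^ v}).comap T) :
    f ∈ (Ideal.span {Polynomial.X ^ v}).comap T := by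
  rw [Ideal.mem_comap, Ideal.mem_span_singleton] at hf ⊢
  rw [map_mul] at hf
  exact Polynomial.prime_X.pow_dvd_of_dvd_mul_left v (mt Polynomial.X_dvd_iff.1 hh) hf

omit [IsDomain A] in
theorem prd {j v : ℕ} {φ : Fin j → R} (h : ∀ i, Polynomial.X ^ v ∣ T (φ i)) :
    ∏ i, φ i ∈ (Ideal.span {Polynomial.X ^ (j * v)}).comap T := by
  rw [Ideal.mem_comap, Ideal.mem_span_singleton, map_prod, mul_comm, pow_mul, ← Fin.prod_const]
  exact Finset.prod_dvd_prod_of_dvd _ _ fun i _ => h i

omit [IsDomain A] in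
theorem Ex.sum {ι : Type} [DecidableEq ι] {C : Finset ι} {a : ι → A} {w : ι → ℕ} {N : ℕ} {f : R}
    {i : ι} (hi : i ∈ C) (ha : a i ≠ 0) (hN : w i < N)
    (hw : ∀ i' ∈ C, i' ≠ i → a i' = 0 ∨ w i < w i')
    (h : Polynomial.X ^ N ∣ T f - Polynomial.C 0 -
      ∑ i ∈ C, Polynomial.C (a i) * Polynomial.X ^ w i) : Ex T (w i) f := by
  refine Ex.of ha ?_
  rw [map_zero, sub_zero, ← Finset.add_sum_erase _ _ hi, ← sub_sub] at h
  refine (dvd_sub_left (Finset.dvd_sum fun i' hi' => ?_)).1 ((pow_dvd_pow _ hN).trans h)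
  obtain ⟨h1, h2⟩ := Finset.mem_erase.1 hi'
  obtain k | k := hw i' h2 h1
  · rw [k, map_zero, zero_mul]
    exact dvd_zero _
  · exact (pow_dvd_pow _ k).mul_left _

theorem Ex.pure {v : ℕ} {f : R} (h : T f = Polynomial.C 0 + Polynomial.X ^ v) : Ex T v f :=
  ⟨1, by simpa using h, by simp⟩

end VAL

open VAL in
theorem rowVAL : RowTAY → RowVAL := by
  classical
  intro hT ρ 𝔭 θ c n n' j hp hθ ⟨C, π, rk, hc, hrk, hπ⟩ hy hj
  set B := n + n' + 2 with hB
  set top := Finset.univ.sup rk + 1 with htop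
  have rt : ∀ i, rk i < top := fun i => Nat.lt_succ_of_le (Finset.le_sup (Finset.mem_univ i))
  set Ω := B ^ (top + 1) with hΩ
  have B1 : 1 < B := by omega
  have Ω0 : 0 < Ω := by positivity
  obtain ⟨T, t1, t2, t3, t4⟩ := hT ρ 𝔭 C (fun i => Ω + B ^ rk i) (θ * Ω + B ^ top) Ω θ Ω0
    (fun _ => Nat.le_add_right _ _) (Nat.le_add_right _ _)
    ((Nat.mul_le_mul_right _ hθ).trans (Nat.le_add_right _ _))
  have e1 : ∀ i ∈ C, Ex T (Ω + B ^ rk i) (π i) := fun i hi => by
    obtain ⟨p1, p2, p3⟩ := hπ i hi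
    have h := t4 (π i)
    rw [Ideal.Quotient.eq_zero_iff_mem.2 p1] at h
    have lt : B ^ rk i < Ω := Nat.pow_lt_pow_right B1 (by have := rt i; omega)
    exact Ex.sum (w := fun i => Ω + B ^ rk i) hi (mt Ideal.Quotient.eq_zero_iff_mem.1 p2)
      (by omega) (fun i' h2 h1 => (p3 i' h2 h1).imp Ideal.Quotient.eq_zero_iff_mem.2
        fun k => Nat.add_lt_add_left (Nat.pow_lt_pow_right B1 k) _) h
  let bd : Option C → ℕ := fun o => o.elim n' fun _ => n
  let pl : Option C → ℕ := fun o => o.elim top fun i => rk i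
  let mu : Option C → ℕ := fun o => o.elim θ fun _ => 1
  let g : Option C → Rg ρ := fun o => o.elim (X none - 1) fun i => π i
  have hb : ∀ o, bd o < B := by rintro (_ | i) <;> simp only [bd, Option.elim] <;> omega
  have hm : ∀ o, pl o < top + 1 := by
    rintro (_ | i)
    exacts [Nat.lt_succ_self _, (rt i).trans (Nat.lt_succ_self _)]
  have hi : Function.Injective pl := by
    rintro (_ | i) (_ | i') e
    exacts [rfl, absurd e (rt i').ne', absurd e (rt i).ne, congrArg some (Subtype.ext (hrk e))]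
  let val : (∀ o, Fin (bd o)) → ℕ := fun a => ∑ o, a o * (mu o * Ω + B ^ pl o)
  have hv : ∀ a, val a = ∑ o, a o * B ^ pl o + Ω * ∑ o, a o * mu o := fun a => by
    rw [Finset.mul_sum, ← Finset.sum_add_distrib]
    exact Finset.sum_congr rfl fun o _ => by ring
  have hl : ∀ a : ∀ o, Fin (bd o), ∑ o, a o * B ^ pl o < Ω := fun a =>
    dig_lt (by omega) pl hm hi _ fun o => (a o).2.trans (hb o)
  have vi : Function.Injective val := fun a a' e => by
    have := congrArg (· % Ω) e
    simp only [hv, Nat.add_mul_mod_self_left, Nat.mod_eq_of_lt (hl _)] at this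
    exact funext fun o => Fin.ext (dig_inj (by omega) pl hm hi _ _
      (fun o => (a o).2.trans (hb o)) (fun o => (a' o).2.trans (hb o)) this o)
  refine ⟨fun v => (Ideal.span {Polynomial.X ^ v}).comap T, j * (θ * Ω), Finset.univ.image val,
    fun v v' h => mono h, fun v h hh f hf => cancel ?_ hf, ?_, fun v hW => ?_,
    fun φ hφ => prd fun i => t3 _ (hφ i)⟩
  · rw [t1]
    exact mt Ideal.Quotient.eq_zero_iff_mem.1 hh
  · rw [Finset.card_image_of_injective _ vi, Finset.card_univ, Fintype.card_pi,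
      Fintype.prod_option, mul_comm]
    simp only [Fintype.card_fin]
    simp [bd, hc]
  · obtain ⟨a, -, rfl⟩ := Finset.mem_image.1 hW
    refine ⟨?_, (Ex.prod (f := fun o => g o ^ (a o : ℕ)) _ ?_).ne⟩
    · have h1 : ∑ i : C, (a (some i) : ℕ) * mu (some i) ≤ c * n := by
        refine (Finset.sum_le_card_nsmul _ _ n fun i _ => ?_).trans (by simp [hc])
        exact (mul_one _).trans_le (a (some i)).2.le
      have h2 : (a none + 1) * θ ≤ n' * θ := Nat.mul_le_mul_right _ (a none).2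
      have h3 : ∑ o, a o * mu o + 1 ≤ j * θ := by
        rw [Fintype.sum_option]
        change a none * θ + _ + 1 ≤ _
        rw [add_mul, mul_comm n'] at h2
        omega
      have h4 := Nat.mul_le_mul_left Ω h3
      have h5 := hl a
      rw [hv, ← mul_assoc, mul_comm (j * θ)]
      rw [mul_add] at h4
      omega
    · rintro (_ | i)
      · obtain k | k := hy
        · have : (a none : ℕ) = 0 := by
            have : (a none : ℕ) < n' := (a none).2
            omega
          rw [this, zero_mul, pow_zero]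
          exact Ex.one
        · rw [Ideal.Quotient.eq_zero_iff_mem.2 k] at t2
          exact (Ex.pure t2).pow _
      · refine Ex.pow ?_ _
        simpa only [mu, pl, g, Option.elim, one_mul] using e1 i i.2

end Pool.Agent.MP_542436_nt.H39
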