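import Pool.Agent.MP_542436_nt.H39.Spec

/-! A good shift of the windows. -/

set_option autoImplicit false

namespace Pool.Agent.MP_542436_nt.H39

namespace WIN

theorem fib {N : ℕ} (hN : 1 ≤ N) (a : ℤ) (W : Finset ℕ) (hW : ∀ w ∈ W, w < N) :
    W.card ≤ ((Finset.range N).filter fun h : ℕ => ((a - h) % N).toNat ∈ W).card := by
  have hN' : (0 : ℤ) < N := by exact_mod_cast hN
  have key : ∀ w ∈ W, ((a - (((a - w) % N).toNat : ℕ)) % N).toNat = w := by
    intro w hw
    have h1 : (w : ℤ) < N := by exact_mod_cast hW w hw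
    rw [Int.toNat_of_nonneg (Int.emod_nonneg _ hN'.ne'), Int.sub_emod, Int.emod_emod,
      ← Int.sub_emod, sub_sub_cancel, Int.emod_eq_of_lt (by positivity) h1, Int.toNat_natCast]
  refine Finset.card_le_card_of_injOn (fun w => ((a - w) % N).toNat) (fun w hw => ?_)
    fun w hw w' hw' h => ?_
  · rw [Finset.coe_filter]
    refine ⟨Finset.mem_range.2 ?_, by rw [key w hw]; exact hw⟩
    have := Int.emod_lt_of_pos (a - w) hN'
    have := Int.emod_nonneg (a - w) hN'.ne'
    simp only
    omega
  · have h' : ((a - w) % N).toNat = ((a - w') % N).toNat := h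
    rw [← key w hw, ← key w' hw', h']

end WIN

theorem rowWIN : RowWIN := by
  intro N ι t f W hN hW
  have h1 : ∑ _h ∈ Finset.range N, W.card * t.card ≤
      ∑ h ∈ Finset.range N, N * (t.filter fun z => ((f z - h) % N).toNat ∈ W).card := by
    rw [Finset.sum_const, Finset.card_range, smul_eq_mul, ← Finset.mul_sum]
    refine Nat.mul_le_mul_left _ ?_
    simp only [Finset.card_filter]
    rw [Finset.sum_comm, mul_comm, ← smul_eq_mul, ← Finset.sum_const]
    refine Finset.sum_le_sum fun z _ => ?_
    rw [← Finset.card_filter]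
    exact WIN.fib hN (f z) W hW
  obtain ⟨h, hh, h2⟩ := Finset.exists_le_of_sum_le (Finset.nonempty_range_iff.2 (by omega)) h1
  exact ⟨h, _, Finset.mem_range.1 hh, Finset.filter_subset _ _, h2,
    fun z hz => (Finset.mem_filter.1 hz).2⟩

end Pool.Agent.MP_542436_nt.H39
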