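import Pool.Agent.MP_542436_nt.H39.Spec

/-! Interpolation on a thin set from the multiplicity estimate. -/

set_option autoImplicit false

namespace Pool.Agent.MP_542436_nt.H39

open MvPolynomial

namespace Z

variable {ρ : ℕ}

theorem Dl_sum {ι : Type} (l : List (Fin ρ)) (t : Finset ι) (f : ι → Rg ρ) :
    Dl l (∑ z ∈ t, f z) = ∑ z ∈ t, Dl l (f z) := by
  induction l with
  | nil => rfl
  | cons i l ih => exact (congrArg (pderiv (some i)) ih).trans (map_sum _ _ _)

theorem desc (n k : ℕ) : n.descFactorial (k + 1) = n * (n - 1).descFactorial k := by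
  cases n with
  | zero => simp
  | succ n => rw [Nat.succ_descFactorial_succ, Nat.add_sub_cancel]

theorem ev (l : List (Fin ρ)) (μ : Option (Fin ρ) →₀ ℕ) (c : ℂ) :
    eval 1 (Dl l (monomial μ c)) = c * ∏ i, ((μ (some i)).descFactorial (l.count i) : ℂ) := by
  induction l using List.reverseRecOn generalizing μ c with
  | nil => simp [Dl, eval_monomial]
  | append_singleton l i ih =>
    have e : Dl (l ++ [i]) (monomial μ c) = Dl l (pderiv (some i) (monomial μ c)) :=
      List.foldr_append
    rw [e, pderiv_monomial, ih, ← Finset.mul_prod_erase _ _ (Finset.mem_univ i),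
      ← Finset.mul_prod_erase _ _ (Finset.mem_univ i), List.count_append, List.count_singleton_self,
      desc, Finsupp.tsub_apply, Finsupp.single_eq_same, Nat.cast_mul, mul_assoc, mul_assoc]
    congr 3
    refine Finset.prod_congr rfl fun j hj => ?_
    have hj := Finset.ne_of_mem_erase hj
    rw [Finsupp.tsub_apply, Finsupp.single_eq_of_ne (by simpa using hj), List.count_append,
      List.count_eq_zero_of_not_mem (l := [i]) (by simpa using hj)]
    rfl

theorem sum_count (l : List (Fin ρ)) : ∑ i, l.count i = l.length := by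
  induction l with
  | nil => simp
  | cons a l ih => simp [List.count_cons, Finset.sum_add_distrib, ih]

end Z

open Z in
theorem rowZ : RowMUL → RowZ := by
  classical
  intro H ρ δ
  obtain ⟨g, E, H⟩ := H ρ δ
  refine ⟨g, E, fun N K d ν κ h t θ hv hN h1 h2 h3 h4 h5 ht ha z hz => ?_⟩
  have : NeZero N := ⟨by omega⟩
  choose! hd w hw1 hw2 using ht
  let μ : (Fin ρ →₀ ℕ) → Option (Fin ρ) →₀ ℕ := fun z =>
    Finsupp.equivFunOnFinite.symm fun v => v.elim (w z) z
  have inj : Function.Injective μ := fun z z' e =>
    Finsupp.ext fun i => DFunLike.congr_fun e (some i)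
  have hF := H N (fun i => -(κ i : ZMod N)) K d ν (∑ z ∈ t, monomial (μ z) (θ z : ℂ)) (-h)
    (fun y y' b b' e => ?_) h1 h2 h3 h4 h5 ?_ (fun ν hν => ?_) fun l hl => ?_
  · have := congrArg (coeff (μ z)) hF
    rw [coeff_sum, Finset.sum_eq_single_of_mem z hz fun y _ hy => by
      rw [coeff_monomial, if_neg (inj.ne hy)], coeff_monomial, if_pos rfl, coeff_zero] at this
    exact_mod_cast this
  · have := hv (fun i => (y i : ℤ) - y' i) (fun i => by
      have := b i
      have := b' i
      rw [abs_le]
      omega) (by
      rw [← ZMod.intCast_zmod_eq_zero_iff_dvd]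
      simp only [mul_neg, Finset.sum_neg_distrib, neg_inj] at e
      push_cast
      simp only [sub_mul, Finset.sum_sub_distrib, e, sub_self])
    funext i
    have := congrFun this i
    simp only [Pi.zero_apply] at this
    omega
  · refine IsWeightedHomogeneous.sum _ _ _ fun y hy => isWeightedHomogeneous_monomial _ _ _ ?_
    have := (ZMod.intCast_zmod_eq_zero_iff_dvd _ _).2 (hw2 y hy)
    push_cast at this
    rw [Finsupp.weight_apply, Finsupp.sum_fintype _ _ (by simp), Fintype.sum_option]
    simp only [μ, wt, Finsupp.coe_equivFunOnFinite_symm, Option.elim, nsmul_eq_mul, mul_neg,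
      Finset.sum_neg_distrib]
    linear_combination -this
  · obtain ⟨y, hy, e⟩ := Finset.mem_biUnion.1 (support_sum hν)
    obtain rfl := Finset.mem_singleton.1 (support_monomial_subset e)
    exact ⟨hd y hy, hw1 y hy⟩
  · have := congrArg (fun q : ℚ => (∏ i, ((l.count i).factorial : ℂ)) * q)
      (ha (fun i => l.count i) (by rwa [sum_count]))
    push_cast at this
    rw [Dl_sum, map_sum, ← mul_zero (∏ i, ((l.count i).factorial : ℂ)), ← this, Finset.mul_sum]
    refine Finset.sum_congr rfl fun y _ => ?_
    rw [ev, mul_left_comm, ← Finset.prod_mul_distrib]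
    simp only [Nat.descFactorial_eq_factorial_mul_choose, Nat.cast_mul]
    rfl

end Pool.Agent.MP_542436_nt.H39
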