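import Pool.Agent.MP_542436_nt.H39.ABC
import Pool.Agent.MP_542436_nt.H39.AUXP
import Pool.Agent.MP_542436_nt.H39.CHN
import Pool.Agent.MP_542436_nt.H39.CNT
import Pool.Agent.MP_542436_nt.H39.CORE
import Pool.Agent.MP_542436_nt.H39.COUNT
import Pool.Agent.MP_542436_nt.H39.FAM
import Pool.Agent.MP_542436_nt.H39.FRE
import Pool.Agent.MP_542436_nt.H39.GCD
import Pool.Agent.MP_542436_nt.H39.GM
import Pool.Agent.MP_542436_nt.H39.GR
import Pool.Agent.MP_542436_nt.H39.MUL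
import Pool.Agent.MP_542436_nt.H39.PIG
import Pool.Agent.MP_542436_nt.H39.RAD
import Pool.Agent.MP_542436_nt.H39.REL
import Pool.Agent.MP_542436_nt.H39.SPL
import Pool.Agent.MP_542436_nt.H39.STR
import Pool.Agent.MP_542436_nt.H39.TAY
import Pool.Agent.MP_542436_nt.H39.TRA
import Pool.Agent.MP_542436_nt.H39.TRI
import Pool.Agent.MP_542436_nt.H39.UP
import Pool.Agent.MP_542436_nt.H39.VAL
import Pool.Agent.MP_542436_nt.H39.WIN
import Pool.Agent.MP_542436_nt.H39.Z
import Pool.Agent.MP_542436_nt.H96.ARI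
import Pool.Agent.MP_542436_nt.H96.BOX
import Pool.Agent.MP_542436_nt.H96.CORE
import Pool.Agent.MP_542436_nt.H96.EXP
import Pool.Agent.MP_542436_nt.H96.KUM
import Pool.Agent.MP_542436_nt.H96.LAT
import Pool.Agent.MP_542436_nt.H96.LOCP
import Pool.Agent.MP_542436_nt.H96.LOCR
import Pool.Agent.MP_542436_nt.H96.LV
import Pool.Agent.MP_542436_nt.H96.MID
import Pool.Agent.MP_542436_nt.H96.NEW
import Pool.Agent.MP_542436_nt.H96.P2
import Pool.Agent.MP_542436_nt.H96.P3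
import Pool.Agent.MP_542436_nt.H96.PAD
import Pool.Agent.MP_542436_nt.H96.PAR
import Pool.Agent.MP_542436_nt.H96.REA
import Pool.Agent.MP_542436_nt.H96.SEP
import Pool.Agent.MP_542436_nt.H96.SIE

/-! Assembly. -/

set_option autoImplicit false

namespace Pool.Agent.MP_542436_nt.H39

theorem allMUL : RowMUL :=
  rowMUL rowCHN rowTRI rowFAM (rowFRE rowGCD rowTRA) (rowVAL rowTAY) (rowCOUNT rowGR rowCNT rowUP)

theorem allZ : RowZ := rowZ allMUL

theorem allGM : RowGM :=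
  rowGM (rowSTR rowREL rowPIG) (rowCORE rowWIN rowAUX rowRAD rowSPL) allZ

theorem oldMID : H96.RowMID :=
  H96.rowMID (H96.rowCORE H96.rowKUM) H96.rowSIE H96.rowLAT H96.rowSEP H96.rowPAR

theorem oldP2 : H96.RowP2 :=
  H96.rowP2 (H96.rowPAD oldMID (H96.rowLOCP H96.rowLV H96.rowNEW H96.rowEXP) H96.rowEXP H96.rowBOX)
    H96.rowARI

theorem oldP3 : H96.RowP3 :=
  H96.rowP3 (H96.rowREA oldMID (H96.rowLOCR H96.rowLV H96.rowNEW) H96.rowBOX) H96.rowARI

theorem allABC : RowABC := rowABC oldP2 oldP3 H96.rowARI allGM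

end Pool.Agent.MP_542436_nt.H39
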