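import Pool.Agent.MP_542436_nt.H39.Spec

/-! The multiplicity estimate from its pieces. -/

set_option autoImplicit false

namespace Pool.Agent.MP_542436_nt.H39.MUL

open MvPolynomial

theorem Dl_append {ρ : ℕ} (l l' : List (Fin ρ)) (f : Rg ρ) :
    Dl l (Dl l' f) = Dl (l ++ l') f := by
  simp [Dl, List.foldr_append]

theorem box_pderiv {ρ a b : ℕ} {f : Rg ρ} (h : Box a b f) (v : Option (Fin ρ)) :
    Box a b (pderiv v f) := by
  intro μ hμ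
  rw [mem_support_iff, coeff_pderiv] at hμ
  have h1 := h (μ + Finsupp.single v 1) (mem_support_iff.2 (left_ne_zero_of_mul hμ))
  refine ⟨fun i => le_trans ?_ (h1.1 i), le_trans ?_ h1.2⟩ <;> simp

theorem box_Dl {ρ a b : ℕ} {f : Rg ρ} (h : Box a b f) (l : List (Fin ρ)) : Box a b (Dl l f) := by
  induction l with
  | nil => exact h
  | cons i l ih => exact box_pderiv ih _

theorem hom_Dl {ρ N : ℕ} {w : Option (Fin ρ) → ZMod N} {f : Rg ρ} {c : ZMod N}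
    (h : f.IsWeightedHomogeneous w c) (l : List (Fin ρ)) :
    ∃ c', (Dl l f).IsWeightedHomogeneous w c' := by
  induction l with
  | nil => exact ⟨c, h⟩
  | cons i l ih =>
    obtain ⟨c', hc⟩ := ih
    exact ⟨c' - w (some i), hc.pderiv (sub_add_cancel _ _)⟩

theorem cancel {A Z c Δ θ d m e f : ℕ} (hθ : 1 ≤ θ) (hd : 1 ≤ d) (hm : 1 ≤ m) (hΔ : d ≤ Δ * θ)
    (h : A * θ ^ f * d ^ e * m ≤ c * m * d ^ (e + f) * Z) : A ≤ c * Δ ^ (e + f) * Z := by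
  have hΔ1 : 1 ≤ Δ := by
    rcases Nat.eq_zero_or_pos Δ with h0 | h0
    · subst h0; omega
    · exact h0
  have h1 : A * θ ^ f ≤ c * d ^ f * Z := by
    have hp : 0 < d ^ e * m := by positivity
    refine Nat.le_of_mul_le_mul_right ?_ hp
    calc A * θ ^ f * (d ^ e * m) = A * θ ^ f * d ^ e * m := by ring
      _ ≤ c * m * d ^ (e + f) * Z := h
      _ = c * d ^ f * Z * (d ^ e * m) := by ring
  have h2 : d ^ f ≤ Δ ^ (e + f) * θ ^ f := by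
    calc d ^ f ≤ (Δ * θ) ^ f := Nat.pow_le_pow_left hΔ f
      _ = Δ ^ f * θ ^ f := mul_pow _ _ _
      _ ≤ Δ ^ (e + f) * θ ^ f :=
        Nat.mul_le_mul_right _ (Nat.pow_le_pow_right hΔ1 (by omega))
  have hp : 0 < θ ^ f := by positivity
  refine Nat.le_of_mul_le_mul_right ?_ hp
  calc A * θ ^ f ≤ c * d ^ f * Z := h1
    _ ≤ c * (Δ ^ (e + f) * θ ^ f) * Z :=
      Nat.mul_le_mul_right _ (Nat.mul_le_mul_left _ h2)
    _ = c * Δ ^ (e + f) * Z * θ ^ f := by ring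

theorem upper {ρ N C d ν m b U : ℕ} (hd : 1 ≤ d) (hν : 1 ≤ ν) (hm : C + N ≤ m) (hb : b ≤ m * ν)
    (h : U ≤ (2 * (ρ + 1) * m * d + m * d + C) ^ ρ * ((2 * (ρ + 1) * m * ν + b + C) / N + 1)) :
    N * U ≤ (2 * ρ + 4) ^ (ρ + 1) * m ^ (ρ + 1) * d ^ ρ * ν := by
  have h1 : 2 * (ρ + 1) * m * d + m * d + C ≤ (2 * ρ + 4) * m * d := by
    have : m ≤ m * d := Nat.le_mul_of_pos_right _ hd
    nlinarith
  have h2 : N * ((2 * (ρ + 1) * m * ν + b + C) / N + 1) ≤ (2 * ρ + 4) * m * ν := by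
    have h3 := Nat.mul_div_le (2 * (ρ + 1) * m * ν + b + C) N
    have : m ≤ m * ν := Nat.le_mul_of_pos_right _ hν
    nlinarith
  calc N * U ≤ N * (((2 * ρ + 4) * m * d) ^ ρ * ((2 * (ρ + 1) * m * ν + b + C) / N + 1)) :=
        Nat.mul_le_mul_left _ (h.trans (Nat.mul_le_mul_right _ (Nat.pow_le_pow_left h1 ρ)))
    _ = ((2 * ρ + 4) * m * d) ^ ρ * (N * ((2 * (ρ + 1) * m * ν + b + C) / N + 1)) := by ring
    _ ≤ ((2 * ρ + 4) * m * d) ^ ρ * ((2 * ρ + 4) * m * ν) := Nat.mul_le_mul_left _ h2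
    _ = (2 * ρ + 4) ^ (ρ + 1) * m ^ (ρ + 1) * d ^ ρ * ν := by
        rw [mul_pow, mul_pow, pow_succ, pow_succ]; ring

theorem tri_le {ρ c : ℕ} {𝔭 : Ideal (Rg ρ)} (h : Tri 𝔭 c) : c ≤ ρ := by
  obtain ⟨C, _, _, hC, _⟩ := h
  rw [← hC]
  simpa using C.card_le_univ

end Pool.Agent.MP_542436_nt.H39.MUL

namespace Pool.Agent.MP_542436_nt.H39

open MvPolynomial MUL

theorem rowMUL : RowCHN → RowTRI → RowFAM → RowFRE → RowVAL → RowCOUNT → RowMUL := by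
  intro hCHN hTRI hFAM hFRE hVAL hCOUNT ρ δ
  set c₁ := (2 * ρ + 4) ^ (ρ + 1) with hc₁
  set Δ := δ * (ρ + 1) with hΔ
  set g := (ρ + 1) * (c₁ * Δ ^ ρ) + ρ + 2 with hg
  refine ⟨g, g, ?_⟩
  intro N _ κ K d ν F c hrel hd hdK hν hEN hEK hhom hbox hvan
  by_contra hF
  have hN : 1 ≤ N := NeZero.pos N
  have hgν : g ≤ g * ν := Nat.le_mul_of_pos_right _ hν
  have hK : ρ + 2 ≤ K := by omega
  obtain ⟨θ₀, hθ₀, hθ₁, hθ₂⟩ : ∃ θ₀, 1 ≤ θ₀ ∧ (ρ + 1) * θ₀ < K ∧ K ≤ (ρ + 1) * (θ₀ + 1) := by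
    refine ⟨(K - 1) / (ρ + 1), ?_, ?_, ?_⟩
    · exact (Nat.le_div_iff_mul_le (by omega)).2 (by omega)
    · have := Nat.mul_div_le (K - 1) (ρ + 1); omega
    · have := Nat.lt_mul_div_succ (K - 1) (show 0 < ρ + 1 by omega); omega
  obtain ⟨j₀, 𝔭, hmin, hone, hnext⟩ := hCHN ρ θ₀ F hF (fun l hl => hvan l (by omega))
  have hprime : 𝔭.IsPrime := hmin.1.1
  have hy : (X none : Rg ρ) ∉ 𝔭 := fun h => by simpa using hone _ h
  have hFp : F ∈ 𝔭 := hnext [] (by simp)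
  set θ := θ₀ + 1 with hθ
  obtain ⟨C, hC⟩ := hCOUNT ρ N κ _ 𝔭 θ d ν ((List.finite_length_le _ _).image _) hmin hy (by
    rintro _ ⟨l, hl, rfl⟩
    refine ⟨hom_Dl hhom l, box_Dl hbox l, fun l' hl' => ?_⟩
    rw [Dl_append]
    refine hnext _ ?_
    have hl2 : l.length ≤ j₀ * θ₀ := hl
    rw [List.length_append, add_mul]
    omega)
  obtain ⟨J, hJ, hmax, htri, hcases⟩ := hTRI ρ 𝔭 hprime hone
  obtain ⟨f, hf⟩ : ∃ f, ρ = J.card + f :=
    Nat.exists_eq_add_of_le (by simpa using J.card_le_univ)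
  have hf' : ρ - J.card = f := by omega
  rw [hf'] at htri hcases
  obtain ⟨m₀, hm₀⟩ : ∃ m₀, m₀ = C + g + 1 := ⟨_, rfl⟩
  obtain ⟨m, hm⟩ : ∃ m, m = N * m₀ := ⟨_, rfl⟩
  have hm₁ : C + N ≤ m := by rw [hm, hm₀]; nlinarith
  have hm₂ : g ≤ m := by rw [hm, hm₀]; nlinarith
  have hm₃ : 1 ≤ m := by omega
  have hdθ : d ≤ Δ * θ := by
    calc d ≤ δ * K := hdK
      _ ≤ δ * ((ρ + 1) * θ) := Nat.mul_le_mul_left _ hθ₂
      _ = Δ * θ := by rw [hΔ]; ring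
  have key : ∀ c' n' b H : ℕ, Tri 𝔭 c' → (n' ≤ 1 ∨ (X none - 1 : Rg ρ) ∈ 𝔭) → n' ≤ m →
      b ≤ m * ν → Fam 𝔭 κ (m * d) b H →
      N * ((θ * m) ^ c' * n' * H) ≤ c₁ * m ^ (ρ + 1) * d ^ ρ * ν := by
    intro c' n' b H ht hn hn' hb hfam
    have hc' := tri_le ht
    have hdeep := hVAL ρ 𝔭 θ c' (θ * m) n' (2 * (ρ + 1) * m) hprime (by omega) ht hn (by
      have h1 : c' * (θ * m) ≤ ρ * (θ * m) := Nat.mul_le_mul_right _ hc'
      have h2 : θ * n' ≤ θ * m := Nat.mul_le_mul_left _ hn'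
      calc 2 * (c' * (θ * m) + θ * n') ≤ 2 * (ρ * (θ * m) + θ * m) := by omega
        _ = 2 * (ρ + 1) * m * θ := by ring)
    exact upper hd hν hm₁ hb (hC _ _ _ _ _ (by nlinarith) hdeep hfam)
  have hθ1 : 1 ≤ θ := by omega
  have hmp : 1 ≤ m ^ (ρ + 1) := Nat.one_le_pow _ _ hm₃
  have hpow : m ^ (ρ + 1) = m ^ J.card * m ^ f * m := by rw [← pow_add, ← hf, pow_succ]
  have hlow : c₁ * Δ ^ ρ < g := by rw [hg]; nlinarith [Nat.zero_le (c₁ * Δ ^ ρ)]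
  have fin : ∀ A Z : ℕ, A * θ ^ f * d ^ J.card * m ^ (ρ + 1) ≤ c₁ * m ^ (ρ + 1) * d ^ ρ * Z →
      A ≤ c₁ * Δ ^ ρ * Z := by
    intro A Z h
    have := cancel (A := A) (Z := Z) (c := c₁) (e := J.card) (f := f) hθ1 hd hmp hdθ
      (by rw [← hf]; exact h)
    rwa [← hf] at this
  rcases hcases with hind | hy1 | htri'
  · obtain ⟨i, hi⟩ : ∃ i, i ∉ J := by
      by_contra hall
      push Not at hall
      refine hF (hind F hFp fun v _ => ?_)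
      cases v with
      | none => simp
      | some i => simp [xs, hall i]
    have hfam := hFRE ρ N κ 𝔭 J i g (m * d) (m₀ * ν) hprime hone hrel hind hi (hmax i hi)
      (hm₂.trans (Nat.le_mul_of_pos_right _ hd))
    have h1 := key f 1 _ _ htri (Or.inl le_rfl) hm₃ (by rw [hm, mul_assoc]) hfam
    have h2 := fin (g * ν) ν (by
      refine le_of_eq_of_le ?_ h1
      rw [hpow, mul_pow, mul_pow]
      generalize m ^ J.card = A
      generalize m ^ f = B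
      rw [hm]
      ring)
    have := Nat.le_of_mul_le_mul_right h2 hν
    omega
  · have hfam := (hFAM ρ N κ 𝔭 J (m * d) hJ).1 hy1
    have h1 := key f m N _ htri (Or.inr hy1) le_rfl
      ((show N ≤ m by omega).trans (Nat.le_mul_of_pos_right _ hν)) hfam
    have h2 := fin N ν (by
      refine le_of_eq_of_le ?_ h1
      rw [hpow, mul_pow, mul_pow]
      ring)
    have h3 : c₁ * Δ ^ ρ * ν < g * ν := Nat.mul_lt_mul_of_pos_right hlow hν
    omega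
  · obtain ⟨H, hH, hfam⟩ := (hFAM ρ N κ 𝔭 J (m * d) hJ).2
    have h1 := key (f + 1) 1 0 H htri' (Or.inl le_rfl) hm₃ (Nat.zero_le _) hfam
    have h2 := fin θ ν (by
      refine le_trans ?_ h1
      calc θ * θ ^ f * d ^ J.card * m ^ (ρ + 1) = (θ * m) ^ (f + 1) * (m * d) ^ J.card := by
            rw [hpow, mul_pow, mul_pow]; ring
        _ ≤ (θ * m) ^ (f + 1) * (N * H) := Nat.mul_le_mul_left _ hH
        _ = N * ((θ * m) ^ (f + 1) * 1 * H) := by ring)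
    have h3 : (ρ + 1) * θ ≤ (ρ + 1) * (c₁ * Δ ^ ρ * ν) := Nat.mul_le_mul_left _ h2
    have h4 : (ρ + 1) * (c₁ * Δ ^ ρ) * ν < g * ν :=
      Nat.mul_lt_mul_of_pos_right (by omega) hν
    rw [mul_assoc] at h4
    omega

end Pool.Agent.MP_542436_nt.H39
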