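import Mathlib

/-! Statements of the pieces: a multiplicity estimate for thin supports, and approximation to one
by products of powers of primes. -/

set_option autoImplicit false

namespace Pool.Agent.MP_542436_nt.H39

open MvPolynomial

/-! ### Part Z: the multiplicity estimate -/

/-- polynomials in `x i = X (some i)` and `y = X none` -/
abbrev Rg (ρ : ℕ) : Type := MvPolynomial (Option (Fin ρ)) ℂ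

/-- iterated derivatives in the variables `x i` -/
noncomputable def Dl {ρ : ℕ} (l : List (Fin ρ)) (f : Rg ρ) : Rg ρ :=
  l.foldr (fun i g => pderiv (some i) g) f

/-- order at least `θ` along `𝔭` in the variables `x i` -/
def Ord {ρ : ℕ} (𝔭 : Ideal (Rg ρ)) (θ : ℕ) (f : Rg ρ) : Prop :=
  ∀ l : List (Fin ρ), l.length < θ → Dl l f ∈ 𝔭

/-- degree at most `a` in each `x i` and at most `b` in `y` -/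
def Box {ρ : ℕ} (a b : ℕ) (f : Rg ρ) : Prop :=
  ∀ μ ∈ f.support, (∀ i, μ (some i) ≤ a) ∧ μ none ≤ b

/-- weights of the variables -/
def wt {ρ N : ℕ} (κ : Fin ρ → ZMod N) : Option (Fin ρ) → ZMod N := fun v => v.elim 1 κ

/-- no relation of size below `g` between the weights -/
def NoRel {ρ N : ℕ} (κ : Fin ρ → ZMod N) (g : ℕ) : Prop :=
  ∀ z z' : Fin ρ → ℕ, (∀ i, z i < g) → (∀ i, z' i < g) →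
    ∑ i, (z i : ZMod N) * κ i = ∑ i, (z' i : ZMod N) * κ i → z = z'

/-- the variables in `J` are algebraically independent modulo `𝔭` -/
def Ind {ρ : ℕ} (𝔭 : Ideal (Rg ρ)) (J : Finset (Option (Fin ρ))) : Prop :=
  ∀ f ∈ 𝔭, f.vars ⊆ J → f = 0

/-- a set of variables `x i` -/
def xs {ρ : ℕ} (J : Finset (Fin ρ)) : Finset (Option (Fin ρ)) := J.image some

/-- `c` elements of `𝔭` with a triangular matrix of derivatives -/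
def Tri {ρ : ℕ} (𝔭 : Ideal (Rg ρ)) (c : ℕ) : Prop :=
  ∃ (C : Finset (Fin ρ)) (π : Fin ρ → Rg ρ) (rk : Fin ρ → ℕ), C.card = c ∧
    Function.Injective rk ∧ ∀ i ∈ C, π i ∈ 𝔭 ∧ pderiv (some i) (π i) ∉ 𝔭 ∧
      ∀ i' ∈ C, i' ≠ i → pderiv (some i') (π i) ∈ 𝔭 ∨ rk i < rk i'

/-- `u` strict steps of saturated ideals above all products of `j` elements of order `θ` -/
def Deep {ρ : ℕ} (𝔭 : Ideal (Rg ρ)) (θ j u : ℕ) : Prop :=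
  ∃ (𝔞 : ℕ → Ideal (Rg ρ)) (n : ℕ) (W : Finset ℕ), Antitone 𝔞 ∧
    (∀ v, ∀ h ∉ 𝔭, ∀ f, h * f ∈ 𝔞 v → f ∈ 𝔞 v) ∧ u ≤ W.card ∧
    (∀ v ∈ W, v < n ∧ 𝔞 (v + 1) ≠ 𝔞 v) ∧
    ∀ φ : Fin j → Rg ρ, (∀ i, Ord 𝔭 θ (φ i)) → ∏ i, φ i ∈ 𝔞 n

/-- `H` monomials of one weight in a box, independent modulo `𝔭` -/
def Fam {ρ N : ℕ} (𝔭 : Ideal (Rg ρ)) (κ : Fin ρ → ZMod N) (a b H : ℕ) : Prop :=
  ∃ (c : ZMod N) (s : Finset (Option (Fin ρ) →₀ ℕ)), H ≤ s.card ∧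
    (∀ μ ∈ s, Finsupp.weight (wt κ) μ = c ∧ (∀ i, μ (some i) ≤ a) ∧ μ none ≤ b) ∧
    ∀ f ∈ 𝔭, f.support ⊆ s → f = 0

/-- comparison of two filtrations of a local ring -/
def RowCNT : Prop :=
  ∀ (O E : Type) [CommRing O] [IsLocalRing O] [Fintype E] (e : E → O) (rk : E → ℕ)
    (𝔞 : ℕ → Ideal O) (n : ℕ) (W : Finset ℕ), Antitone 𝔞 →
    (∀ v ∈ W, v < n ∧ 𝔞 (v + 1) ≠ 𝔞 v) → Ideal.span (Set.range e) ⊔ 𝔞 n = ⊤ →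
    (∀ x ∈ IsLocalRing.maximalIdeal O, ∀ i,
      x * e i ∈ Ideal.span (e '' {i' | rk i < rk i'}) ⊔ 𝔞 n) →
    ∃ E' : Finset E, W.card ≤ E'.card ∧ ∀ o : E → O, (∀ i, o i = 0 ∨ IsUnit (o i)) →
      ∑ i ∈ E', o i * e i ∈ 𝔞 n → ∀ i ∈ E', o i = 0

/-- a minimal prime of a graded ideal is locally generated by homogeneous elements -/
def RowGR : Prop :=
  ∀ (ρ N : ℕ) [NeZero N] (w : Option (Fin ρ) → ZMod N) (Φ : Set (Rg ρ)) (𝔭 : Ideal (Rg ρ)),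
    (∀ φ ∈ Φ, ∃ c, φ.IsWeightedHomogeneous w c) → 𝔭 ∈ (Ideal.span Φ).minimalPrimes →
    ∀ f ∈ 𝔭, ∃ h ∉ 𝔭, ∀ c, weightedHomogeneousComponent w c (h * f) ∈ 𝔭

/-- homogeneous polynomials in a box -/
def RowUP : Prop :=
  ∀ (ρ N : ℕ) [NeZero N] (κ : Fin ρ → ZMod N) (c : ZMod N) (a b : ℕ) (ι : Type) [Fintype ι]
    (f : ι → Rg ρ), LinearIndependent ℂ f →
    (∀ i, (f i).IsWeightedHomogeneous (wt κ) c ∧ Box a b (f i)) →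
    Fintype.card ι ≤ (a + 1) ^ ρ * (b / N + 1)

/-- the inequality of Bezout type -/
def RowCOUNT : Prop :=
  ∀ (ρ N : ℕ) [NeZero N] (κ : Fin ρ → ZMod N) (Φ : Set (Rg ρ)) (𝔭 : Ideal (Rg ρ)) (θ d ν : ℕ),
    Φ.Finite → 𝔭 ∈ (Ideal.span Φ).minimalPrimes → (X none : Rg ρ) ∉ 𝔭 →
    (∀ φ ∈ Φ, (∃ c, φ.IsWeightedHomogeneous (wt κ) c) ∧ Box d ν φ ∧ Ord 𝔭 θ φ) →
    ∃ C : ℕ, ∀ j u a b H : ℕ, 1 ≤ j → Deep 𝔭 θ j u → Fam 𝔭 κ a b H →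
      u * H ≤ (j * d + a + C) ^ ρ * ((j * ν + b + C) / N + 1)

/-- expansion along a curve through the generic point -/
def RowTAY : Prop :=
  ∀ (ρ : ℕ) (𝔭 : Ideal (Rg ρ)) [𝔭.IsPrime] (C : Finset (Fin ρ)) (w : Fin ρ → ℕ) (w' Ω θ : ℕ),
    1 ≤ Ω → (∀ i, Ω ≤ w i) → θ * Ω ≤ w' → 2 * Ω ≤ w' →
    ∃ T : Rg ρ →+* Polynomial (Rg ρ ⧸ 𝔭),
      (∀ f, (T f).coeff 0 = Ideal.Quotient.mk 𝔭 f) ∧
      T (X none - 1) = Polynomial.C (Ideal.Quotient.mk 𝔭 (X none - 1)) + Polynomial.X ^ w' ∧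
      (∀ f, Ord 𝔭 θ f → Polynomial.X ^ (θ * Ω) ∣ T f) ∧
      ∀ f, Polynomial.X ^ (2 * Ω) ∣ T f - Polynomial.C (Ideal.Quotient.mk 𝔭 f) -
        ∑ i ∈ C, Polynomial.C (Ideal.Quotient.mk 𝔭 (pderiv (some i) f)) * Polynomial.X ^ w i

/-- many values of a valuation -/
def RowVAL : Prop :=
  ∀ (ρ : ℕ) (𝔭 : Ideal (Rg ρ)) (θ c n n' j : ℕ), 𝔭.IsPrime → 2 ≤ θ → Tri 𝔭 c →
    (n' ≤ 1 ∨ (X none - 1 : Rg ρ) ∈ 𝔭) → 2 * (c * n + θ * n') ≤ j * θ → Deep 𝔭 θ j (n ^ c * n')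

/-- a transcendence basis and the equations over it -/
def RowTRI : Prop :=
  ∀ (ρ : ℕ) (𝔭 : Ideal (Rg ρ)), 𝔭.IsPrime → (∀ f ∈ 𝔭, eval 1 f = 0) →
    ∃ J : Finset (Fin ρ), Ind 𝔭 (xs J) ∧ (∀ i ∉ J, ¬ Ind 𝔭 (xs (insert i J))) ∧
      Tri 𝔭 (ρ - J.card) ∧
      (Ind 𝔭 (insert none (xs J)) ∨ (X none - 1 : Rg ρ) ∈ 𝔭 ∨ Tri 𝔭 (ρ - J.card + 1))

/-- monomials in independent variables -/
def RowFAM : Prop :=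
  ∀ (ρ N : ℕ) [NeZero N] (κ : Fin ρ → ZMod N) (𝔭 : Ideal (Rg ρ)) (J : Finset (Fin ρ)) (a : ℕ),
    Ind 𝔭 (xs J) → ((X none - 1 : Rg ρ) ∈ 𝔭 → Fam 𝔭 κ a N (a ^ J.card)) ∧
      ∃ H, a ^ J.card ≤ N * H ∧ Fam 𝔭 κ a 0 H

/-- no homogeneous equation of small degree -/
def RowGCD : Prop :=
  ∀ (ρ N : ℕ) [NeZero N] (κ : Fin ρ → ZMod N) (𝔭 : Ideal (Rg ρ)) (J : Finset (Fin ρ)) (i : Fin ρ)
    (g : ℕ), 𝔭.IsPrime → (∀ f ∈ 𝔭, eval 1 f = 0) → NoRel κ g → Ind 𝔭 (xs J) → i ∉ J →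
    ∃ i₀ ∈ insert i J, ∀ G ∈ 𝔭, ∀ c, G.IsWeightedHomogeneous (wt κ) c →
      G.vars ⊆ xs (insert i J) → G.degreeOf (some i₀) < g → G = 0

/-- `y` stays transcendental over an algebraic extension -/
def RowTRA : Prop :=
  ∀ (ρ : ℕ) (𝔭 : Ideal (Rg ρ)) (J : Finset (Fin ρ)) (i : Fin ρ), 𝔭.IsPrime →
    Ind 𝔭 (insert none (xs J)) → ¬ Ind 𝔭 (xs (insert i J)) →
    ∀ (s : Finset ℕ) (c : ℕ → Rg ρ), (∀ w ∈ s, (c w).vars ⊆ xs (insert i J)) →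
      ∑ w ∈ s, c w * X none ^ w ∈ 𝔭 → ∀ w ∈ s, c w ∈ 𝔭

/-- monomials when `y` is free -/
def RowFRE : Prop :=
  ∀ (ρ N : ℕ) [NeZero N] (κ : Fin ρ → ZMod N) (𝔭 : Ideal (Rg ρ)) (J : Finset (Fin ρ)) (i : Fin ρ)
    (g a b : ℕ), 𝔭.IsPrime → (∀ f ∈ 𝔭, eval 1 f = 0) → NoRel κ g →
    Ind 𝔭 (insert none (xs J)) → i ∉ J → ¬ Ind 𝔭 (xs (insert i J)) → g ≤ a →
    Fam 𝔭 κ a (N * b) (g * a ^ J.card * b)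

/-- a prime that is minimal at one step and contains the next step -/
def RowCHN : Prop :=
  ∀ (ρ θ : ℕ) (F : Rg ρ), F ≠ 0 →
    (∀ l : List (Fin ρ), l.length ≤ (ρ + 1) * θ → eval 1 (Dl l F) = 0) →
    ∃ (j : ℕ) (𝔭 : Ideal (Rg ρ)),
      𝔭 ∈ (Ideal.span ((fun l => Dl l F) '' {l | l.length ≤ j * θ})).minimalPrimes ∧
      (∀ f ∈ 𝔭, eval 1 f = 0) ∧ ∀ l : List (Fin ρ), l.length ≤ (j + 1) * θ → Dl l F ∈ 𝔭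

/-- the multiplicity estimate -/
def RowMUL : Prop :=
  ∀ ρ δ : ℕ, ∃ g E : ℕ, ∀ (N : ℕ) [NeZero N] (κ : Fin ρ → ZMod N) (K d ν : ℕ) (F : Rg ρ)
    (c : ZMod N), NoRel κ g → 1 ≤ d → d ≤ δ * K → 1 ≤ ν → E * ν ≤ N → E * ν ≤ K →
    F.IsWeightedHomogeneous (wt κ) c → Box d ν F →
    (∀ l : List (Fin ρ), l.length < K → eval 1 (Dl l F) = 0) → F = 0

/-- interpolation on a thin set -/
def ZP (ρ δ g E : ℕ) : Prop :=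
  ∀ (N K d ν : ℕ) (κ : Fin ρ → ℤ) (h : ℤ) (t : Finset (Fin ρ →₀ ℕ)) (θ : (Fin ρ →₀ ℕ) → ℚ),
    (∀ v : Fin ρ → ℤ, (∀ i, |v i| ≤ g) → (N : ℤ) ∣ ∑ i, v i * κ i → v = 0) → 1 ≤ N → 1 ≤ d →
    d ≤ δ * K → 1 ≤ ν → E * ν ≤ N → E * ν ≤ K →
    (∀ z ∈ t, (∀ i, z i ≤ d) ∧ ∃ w : ℕ, w ≤ ν ∧ (N : ℤ) ∣ ∑ i, (z i : ℤ) * κ i - h - w) →
    (∀ a : Fin ρ → ℕ, ∑ i, a i < K → ∑ z ∈ t, θ z * ∏ i, ((z i).choose (a i) : ℚ) = 0) →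
    ∀ z ∈ t, θ z = 0

def RowZ : Prop := ∀ ρ δ : ℕ, ∃ g E : ℕ, ZP ρ δ g E

/-! ### Part A: arithmetic -/

/-- a product of powers -/
def pw (P : Finset ℕ) (f : ℕ → ℤ) : ℚ := ∏ p ∈ P, (p : ℚ) ^ f p

/-- logarithm of the numerator -/
noncomputable def LA (P : Finset ℕ) (x : ℕ → ℤ) : ℝ :=
  ∑ p ∈ P, ((max (x p) 0 : ℤ) : ℝ) * Real.log p

/-- logarithm of the product -/
noncomputable def Lam (P : Finset ℕ) : ℝ := ∑ p ∈ P, Real.log p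

/-- exponents below `d` -/
noncomputable def bx (ρ d : ℕ) : Finset (Fin ρ →₀ ℕ) :=
  (Fintype.piFinset fun _ : Fin ρ => Finset.range d).map Finsupp.equivFunOnFinite.symm.toEmbedding

theorem mem_bx {ρ d : ℕ} {z : Fin ρ →₀ ℕ} : z ∈ bx ρ d ↔ ∀ i, z i < d := by
  simp [bx, Finset.mem_map_equiv]

theorem card_bx (ρ d : ℕ) : (bx ρ d).card = d ^ ρ := by simp [bx]

/-- removal of small relations -/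
def RowREL : Prop :=
  ∀ (m : ℕ) (Φ : ℕ → ℕ), ∃ G₀ : ℕ, ∀ k : Fin m → ℤ,
    ∃ (ρ G : ℕ) (A : Fin m → Fin ρ → ℤ) (B : Fin ρ → Fin m → ℤ), ρ ≤ m ∧ G ≤ G₀ ∧
      (∀ i j, |A i j| ≤ G) ∧ (∀ j i, |B j i| ≤ G) ∧
      (∀ i, k i = ∑ j, A i j * ∑ i', B j i' * k i') ∧
      ∀ v : Fin ρ → ℤ, (∀ j, |v j| ≤ Φ G) → ∑ j, v j * ∑ i', B j i' * k i' = 0 → v = 0

/-- two sums in one residue class -/
def RowPIG : Prop :=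
  ∀ (k Q M N r : ℕ) [Fact r.Prime] (P : Finset ℕ) (x : ℕ → ℤ), 1 ≤ Q → 1 ≤ N →
    (∀ p ∈ P, p.Prime) → r ∉ P → r < M ^ k →
    ∃ (t : Fin (2 * k) → ℤ) (g : Fin (2 * k) → ℕ → ℤ) (c : Fin (2 * k) → ℤ) (i₀ : Fin (2 * k)),
      (∀ i, c i = 1 ∨ c i = -1) ∧ (∀ i, i ≠ i₀ → t i ≠ t i₀) ∧
      (∀ i, |t i| ≤ k * M * Q ^ P.card) ∧ (∀ i, ∀ p ∈ P, Q * |N * g i p - t i * x p| ≤ N) ∧
      ‖((∑ i, c i * pw P (g i) : ℚ) : ℚ_[r])‖ < 1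

/-- a polynomial congruence between independent positions -/
def RowSTR : Prop :=
  ∀ (k : ℕ) (Φ : ℕ → ℕ), ∃ G₀ : ℕ, ∀ (Q M N r : ℕ) [Fact r.Prime] (P : Finset ℕ) (x : ℕ → ℤ),
    G₀ < Q → 1 ≤ N → (∀ p ∈ P, p.Prime) → r ∉ P → r < M ^ k →
    ∃ (ρ G : ℕ) (κ : Fin ρ → ℤ) (e : Fin ρ → ℕ → ℤ) (ω : MvPolynomial (Fin ρ) ℤ),
      ρ ≤ 2 * k ∧ G ≤ G₀ ∧ ω ≠ 0 ∧ (∀ z ∈ ω.support, ∀ i, z i ≤ G) ∧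
      ∑ z ∈ ω.support, |coeff z ω| ≤ 2 * k ∧ (∀ j, |κ j| ≤ G₀ * M * Q ^ P.card) ∧
      (∀ j, ∀ p ∈ P, Q * |N * e j p - κ j * x p| ≤ G₀ * N) ∧
      (∀ v : Fin ρ → ℤ, (∀ j, |v j| ≤ Φ G) → ∑ j, v j * κ j = 0 → v = 0) ∧
      ‖aeval (fun j => ((pw P (e j) : ℚ) : ℚ_[r])) ω‖ < 1

/-- a good shift of the windows -/
def RowWIN : Prop :=
  ∀ (N : ℕ) (ι : Type) (t : Finset ι) (f : ι → ℤ) (W : Finset ℕ), 1 ≤ N → (∀ w ∈ W, w < N) →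
    ∃ (h : ℕ) (t' : Finset ι), h < N ∧ t' ⊆ t ∧ W.card * t.card ≤ N * t'.card ∧
      ∀ z ∈ t', ((f z - h) % N).toNat ∈ W

/-- the auxiliary polynomial -/
def RowAUX : Prop :=
  ∀ (ρ G m Y d L : ℕ) (ω : MvPolynomial (Fin ρ) ℤ) (S : Finset (Fin ρ →₀ ℕ)), 1 ≤ m → 1 ≤ d →
    ω ≠ 0 → (∀ z ∈ ω.support, ∀ i, z i ≤ G) → ∑ z ∈ ω.support, |coeff z ω| ≤ m →
    S ⊆ bx ρ d → (L + 1) * d ^ ρ ≤ L * ((d - G * Y) ^ ρ + S.card) → G * Y < d →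
    ∃ H : MvPolynomial (Fin ρ) ℤ, ω ^ Y * H ≠ 0 ∧ (ω ^ Y * H).support ⊆ S ∧
      ∑ z ∈ S, |coeff z (ω ^ Y * H)| ≤ (d ^ ρ * m ^ Y) ^ (L + 2)

/-- divisibility of the jets -/
def RowRAD : Prop :=
  ∀ (r : ℕ) [Fact r.Prime] (ρ Y : ℕ) (ω H : MvPolynomial (Fin ρ) ℤ) (δ : Fin ρ → ℚ_[r])
    (ξ : ℚ_[r]) (S : Finset (Fin ρ →₀ ℕ)) (s : (Fin ρ →₀ ℕ) → ℕ) (a : Fin ρ → ℕ),
    (∀ j, ‖δ j‖ ≤ 1) → ‖aeval δ ω‖ < 1 → ‖ξ - 1‖ ≤ (r : ℝ) ^ (-(Y : ℤ)) →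
    (ω ^ Y * H).support ⊆ S →
    ‖∑ z ∈ S, ((coeff z (ω ^ Y * H) * ∏ j, ((z j).choose (a j) : ℤ) : ℤ) : ℚ_[r]) *
      (ξ ^ s z * ∏ j, δ j ^ z j)‖ ≤ (r : ℝ) ^ (-((Y - ∑ j, a j : ℕ) : ℤ))

/-- the terms of a sum -/
structure Trm {ι : Type} (t : Finset ι) (P : Finset ℕ) (x : ℕ → ℤ) (a b : ℤ) (c : ι → ℤ)
    (s : ι → ℕ) (f : ι → ℕ → ℤ) (σ : ι → ℝ) (S : ℕ) (h w ε : ℝ) : Prop where
  prime : ∀ p ∈ P, p.Prime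
  ord : LA P (-x) ≤ LA P x
  hb : b ≠ 0
  sa : |(a : ℝ)| ≤ Real.exp h
  sb : |(b : ℝ)| ≤ Real.exp h
  sc : ∑ i ∈ t, |(c i : ℝ)| ≤ Real.exp w
  ss : ∀ i ∈ t, s i ≤ S
  he : 0 ≤ ε
  near : ∀ i ∈ t, ∀ p ∈ P, |(f i p : ℝ) - σ i * x p| ≤ ε

/-- vanishing and splitting of sums -/
structure RowSPL : Prop where
  van : ∀ (r : ℕ) [Fact r.Prime] (ι : Type) (t : Finset ι) (P : Finset ℕ) (x : ℕ → ℤ) (a b : ℤ)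
    (c : ι → ℤ) (s : ι → ℕ) (f : ι → ℕ → ℤ) (σ : ι → ℝ) (S T : ℕ) (h w ε σ₀ n : ℝ),
    Trm t P x a b c s f σ S h w ε → r ∉ P → (∀ i ∈ t, σ₀ ≤ σ i ∧ σ i ≤ σ₀ + n) →
    ‖((∑ i ∈ t, c i * (((a : ℚ) / b) ^ s i * pw P (f i)) : ℚ) : ℚ_[r])‖ ≤ (r : ℝ) ^ (-(T : ℤ)) →
    w + S * h + n * LA P x + 2 * ε * Lam P < T * Real.log r →
    ∑ i ∈ t, c i * (((a : ℚ) / b) ^ s i * pw P (f i)) = 0
  spl : ∀ (ι : Type) (t : Finset ι) (P : Finset ℕ) (x : ℕ → ℤ) (a b : ℤ)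
    (c : ι → ℤ) (s : ι → ℕ) (f : ι → ℕ → ℤ) (σ : ι → ℝ) (S : ℕ) (h w ε σ₀ σ₁ γ : ℝ),
    Trm t P x a b c s f σ S h w ε → (∀ i ∈ t, σ₀ ≤ σ i ∧ (σ i ≤ σ₁ ∨ σ₁ + γ ≤ σ i)) →
    ∑ i ∈ t, c i * (((a : ℚ) / b) ^ s i * pw P (f i)) = 0 → 0 < γ →
    w + S * h + (4 * ε + 1) * Lam P < γ * LA P x →
    ∑ i ∈ t with σ i ≤ σ₁, c i * (((a : ℚ) / b) ^ s i * pw P (f i)) = 0

/-- the number that is close to one -/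
structure Apx (r : ℕ) [Fact r.Prime] (P : Finset ℕ) (x : ℕ → ℤ) (a b : ℤ) (h : ℝ) (Y : ℕ) :
    Prop where
  prime : ∀ p ∈ P, p.Prime
  hr : r ∉ P
  ord : LA P (-x) ≤ LA P x
  ha : a ≠ 0
  hb : b ≠ 0
  sa : |(a : ℝ)| ≤ Real.exp h
  sb : |(b : ℝ)| ≤ Real.exp h
  one : 1 ≤ h
  apx : ‖(((a : ℚ) / b * pw P x : ℚ) : ℚ_[r]) - 1‖ ≤ (r : ℝ) ^ (-(Y : ℤ))

/-- the contradiction with free parameters -/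
def RowCORE : Prop :=
  ∀ (r : ℕ) [Fact r.Prime] (P : Finset ℕ) (x : ℕ → ℤ) (a b : ℤ) (h : ℝ) (Y : ℕ)
    (ρ δ g E G m N d K ν L L₀ S κ₀ : ℕ) (κ : Fin ρ → ℤ) (e : Fin ρ → ℕ → ℤ)
    (ω : MvPolynomial (Fin ρ) ℤ) (ε err : ℝ), Apx r P x a b h Y → ZP ρ δ g E →
    ω ≠ 0 → (∀ z ∈ ω.support, ∀ i, z i ≤ G) → ∑ z ∈ ω.support, |coeff z ω| ≤ m → 1 ≤ m →
    ‖aeval (fun j => ((pw P (e j) : ℚ) : ℚ_[r])) ω‖ < 1 → (∀ j, |κ j| ≤ κ₀) →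
    (∀ j, ∀ p ∈ P, |(e j p : ℝ) - κ j * x p / N| ≤ ε) → 0 ≤ ε →
    (∀ v : Fin ρ → ℤ, (∀ i, |v i| ≤ g) → (N : ℤ) ∣ ∑ i, v i * κ i → v = 0) →
    G * Y < d → d ≤ δ * K → K ≤ Y → 1 ≤ ν → E * ν ≤ N → E * ν ≤ K → 2 * L * ν ≤ N → 1 ≤ N →
    (L₀ + 1) * d ^ ρ * N ≤ L₀ * ((d - G * Y) ^ ρ * N + L * ν * d ^ ρ) → ρ * d * κ₀ ≤ N * S →
    (L₀ + 2) * (ρ * Real.log d + Y * Real.log m) + ρ * d * Real.log 2 + (2 * S + 1) * h +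
      (4 * ρ * d * ε + 1) * Lam P ≤ err →
    err + 2 * L * ν / N * LA P x < (Y - K) * Real.log r → err < ν / N * LA P x → False

/-- approximation to one: the dependence on the prime is an arbitrarily small power -/
def RowGM : Prop :=
  ∀ k u : ℕ, 1 ≤ k → 1 ≤ u → ∃ C : ℝ, 1 ≤ C ∧ ∀ (r : ℕ) [Fact r.Prime] (P : Finset ℕ)
    (x : ℕ → ℤ) (a b : ℤ) (h : ℝ) (Y M : ℕ), Apx r P x a b h Y → P.card ≤ u →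
    Lam P ≤ u * Real.log r → LA P x ≤ u * Y * Real.log r → Y * Real.log r ≤ 2 * LA P x →
    C ≤ r → r < M ^ k → Y ≤ C * M * h

/-- the theorem -/
def RowABC : Prop :=
  ∀ ε : ℝ, 0 < ε → ∃ C : ℝ, ∀ a b c : ℕ, 0 < a → 0 < b → a + b = c → Nat.Coprime a b →
    Real.log c ≤ C * (∏ r ∈ (a * b * c).primeFactors, (r : ℝ)) ^ ε

end Pool.Agent.MP_542436_nt.H39
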